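import Pool.Agent.Helper95.Riesz.Choose5
import Pool.Agent.Helper63.Riesz.Extract
import Pool.Agent.Helper5.Riesz.Avg
import Pool.Agent.Helper5.Riesz.Scale
import Pool.Agent.Helper70.Riesz.Finish
import Pool.Agent.Helper74.Riesz.GapId

/-!
# The source side for `-2 < s < 0`: existence of good random cells
-/

set_option autoImplicit false
open MeasureTheory Set Filter Topology
open scoped ENNReal NNReal

namespace Helper23.Riesz

variable {s : ℝ} {d : ℕ}

theorem has_flat (hd : 2 ≤ d) (hs : -2 < s) (hs0 : s < 0) (L : ℝ) (hL0 : 0 ≤ L)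
    (hL : ∃ᶠ N : ℕ in atTop, gap s d N ≤ L * (N : ℝ) ^ (1 + s / d)) :
    HasFlat s d (L * (omega d) ^ (s / d)) :=
  has_flat_of_avg (fun _ ht => avg_gauss_le hd ht) hd hs hs0 L hL0 hL

theorem cell_exists (hd : 2 ≤ d) (hs : -2 < s) (hs0 : s < 0) (L : ℝ)
    (hL : ∃ᶠ N : ℕ in atTop, gap s d N ≤ L * (N : ℝ) ^ (1 + s / d)) (ε : ℝ) (hε : 0 < ε) :
    HasCell s d (L * (omega d) ^ (s / d)) ε := by
  have hd1 : 1 ≤ d := by omega
  have hL0 := L_nonneg hd1 hs hs0 L hL
  have hLam : 0 ≤ L * (omega d) ^ (s / d) :=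
    mul_nonneg hL0 (Real.rpow_nonneg (omega_pos hd1).le _)
  exact scale_cell hd1 hs hs0 hε (finish hd hs hs0 hLam
    (choose_cell hd hs hs0 hLam (has_flat hd hs hs0 L hL0 hL)) ε hε)

end Helper23.Riesz
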