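import Pool.Agent.Helper95.Riesz.SDefs
import Pool.Agent.Helper94.Riesz.Pull
import Pool.Agent.Helper74.Riesz.PDId
import Pool.Agent.Helper98.Riesz.Planch

/-!
# CHOOSE, part 1: configurations, means and the averaged spectrum
-/

set_option autoImplicit false
set_option linter.unusedSectionVars false
open MeasureTheory Set Filter Topology
open scoped ENNReal NNReal FourierTransform SchwartzMap

namespace Helper23.Riesz

namespace Choose

variable {s : ℝ} {d n : ℕ} {O : Type*} [MeasurableSpace O]

lemma integral_cfgC {W : Type*} [NormedAddCommGroup W] [NormedSpace ℝ W] [CompleteSpace W]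
    (Λ : ℝ) (y : Fin n → R d) (f : R d → W) :
    ∫ x, f x ∂(cfg Λ y) = ∑ i, (Bx d Λ).indicator f (y i) := by
  unfold cfg
  rw [← integral_indicator (Pull.measurableSet_Bx Λ), integral_finsetSum_measure]
  · exact Finset.sum_congr rfl fun i _ => integral_dirac _ _
  · intro i _
    exact integrable_dirac enorm_lt_top

lemma lintegral_cfg (Λ : ℝ) (y : Fin n → R d) {f : R d → ℝ≥0∞} (hf : Measurable f) :
    ∫⁻ x, f x ∂(cfg Λ y) = ∑ i, (Bx d Λ).indicator f (y i) := by
  unfold cfg
  rw [← lintegral_indicator (Pull.measurableSet_Bx Λ), lintegral_finsetSum_measure]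
  exact Finset.sum_congr rfl fun i _ =>
    lintegral_dirac' _ (hf.indicator (Pull.measurableSet_Bx Λ))

instance (Λ : ℝ) (y : Fin n → R d) : IsFiniteMeasure (cfg Λ y) := by
  unfold cfg; infer_instance

lemma measurable_indic {W : Type*} [MeasurableSpace W] [Zero W] {Pm : Type*} [MeasurableSpace Pm]
    (Λ : ℝ) {G : Pm → R d → W} (hG : Measurable (Function.uncurry G)) :
    Measurable fun q : Pm × R d => (Bx d Λ).indicator (G q.1) q.2 := by
  have h : (fun q : Pm × R d => (Bx d Λ).indicator (G q.1) q.2) =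
      (Prod.snd ⁻¹' (Bx d Λ)).indicator (Function.uncurry G) := by
    funext q
    by_cases hq : q.2 ∈ Bx d Λ
    · rw [indicator_of_mem hq, indicator_of_mem (by exact hq)]
      rfl
    · rw [indicator_of_notMem hq, indicator_of_notMem (by exact hq)]
  rw [h]
  exact hG.indicator (measurable_snd (Pull.measurableSet_Bx Λ))

/-- joint measurability of integrals against random configurations -/
lemma measurable_int_cfg {Pm : Type*} [MeasurableSpace Pm] (Λ : ℝ) {Y : O → Fin n → R d}
    (hY : ∀ i, Measurable fun o => Y o i) {G : Pm → R d → ℂ}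
    (hG : Measurable (Function.uncurry G)) :
    Measurable fun q : O × Pm => ∫ x, G q.2 x ∂(cfg Λ (Y q.1)) := by
  simp_rw [integral_cfgC]
  refine Finset.measurable_sum _ fun i _ => ?_
  exact (measurable_indic Λ hG).comp (measurable_snd.prodMk ((hY i).comp measurable_fst))

lemma measurable_cfg (Λ : ℝ) {Y : O → Fin n → R d} (hY : ∀ i, Measurable fun o => Y o i) :
    Measurable fun o => cfg Λ (Y o) := by
  refine Measure.measurable_of_measurable_coe _ fun B hB => ?_
  simp_rw [Pull.cfg_apply Λ _ hB]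
  refine Finset.measurable_sum _ fun i _ => ?_
  exact (measurable_one.indicator (hB.inter (Pull.measurableSet_Bx Λ))).comp (hY i)

/-- the mean property for functions -/
lemma mean_lintegral {P : Measure O} {Λ : ℝ} {Y : O → Fin n → R d}
    (hY : ∀ i, Measurable fun o => Y o i) {ρ : Measure (R d)}
    (hρ : ∀ B : Set (R d), MeasurableSet B → ∫⁻ o, cfg Λ (Y o) B ∂P = ρ B)
    {f : R d → ℝ≥0∞} (hf : Measurable f) :
    ∫⁻ o, ∫⁻ x, f x ∂(cfg Λ (Y o)) ∂P = ∫⁻ x, f x ∂ρ := by
  have hm := measurable_cfg Λ hY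
  have h : ρ = P.bind fun o => cfg Λ (Y o) := by
    ext B hB
    rw [Measure.bind_apply hB hm.aemeasurable, hρ B hB]
  rw [h, Measure.lintegral_bind hm.aemeasurable hf.aemeasurable]

lemma mean_integral {P : Measure O} {Λ : ℝ} {Y : O → Fin n → R d}
    (hY : ∀ i, Measurable fun o => Y o i) {ρ : Measure (R d)}
    (hρ : ∀ B : Set (R d), MeasurableSet B → ∫⁻ o, cfg Λ (Y o) B ∂P = ρ B)
    {f : R d → ℝ} (hf : Measurable f) (hf0 : ∀ x, 0 ≤ f x) :
    ∫ o, ∫ x, f x ∂(cfg Λ (Y o)) ∂P = ∫ x, f x ∂ρ := by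
  have e1 : ∀ o, ENNReal.ofReal (∫ x, f x ∂(cfg Λ (Y o))) =
      ∫⁻ x, ENNReal.ofReal (f x) ∂(cfg Λ (Y o)) := by
    intro o
    rw [integral_cfgC, lintegral_cfg _ _ hf.ennreal_ofReal, ENNReal.ofReal_sum_of_nonneg]
    · refine Finset.sum_congr rfl fun i _ => ?_
      by_cases hi : Y o i ∈ Bx d Λ
      · rw [indicator_of_mem hi, indicator_of_mem hi]
      · rw [indicator_of_notMem hi, indicator_of_notMem hi, ENNReal.ofReal_zero]
    · intro i _
      exact indicator_nonneg (fun x _ => hf0 x) _
  have hm : Measurable fun o => ∫ x, f x ∂(cfg Λ (Y o)) := by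
    simp_rw [integral_cfgC]
    refine Finset.measurable_sum _ fun i _ => ?_
    exact (hf.indicator (Pull.measurableSet_Bx Λ)).comp (hY i)
  rw [integral_eq_lintegral_of_nonneg_ae (Eventually.of_forall fun o => integral_nonneg hf0)
    hm.aestronglyMeasurable, integral_eq_lintegral_of_nonneg_ae (Eventually.of_forall hf0)
    hf.aestronglyMeasurable]
  simp_rw [e1]
  rw [mean_lintegral hY hρ hf.ennreal_ofReal]

/-- the Gaussian kernel -/
lemma measurable_gk (t : ℝ) : Measurable fun p : R d × R d => Real.exp (-(t * dist p.1 p.2 ^ 2)) := by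
  fun_prop

lemma gk_le {t : ℝ} (ht : 0 ≤ t) (x y : R d) : Real.exp (-(t * dist x y ^ 2)) ≤ 1 := by
  rw [Real.exp_le_one_iff, neg_nonpos]
  positivity

lemma cfg_real_le (Λ : ℝ) (y : Fin n → R d) : (cfg Λ y).real univ ≤ n := by
  have h1 : (cfg Λ y).real univ = ∫ _, (1:ℝ) ∂(cfg Λ y) := by simp
  rw [h1, integral_cfgC]
  calc ∑ i, (Bx d Λ).indicator (fun _ => (1:ℝ)) (y i) ≤ ∑ _i : Fin n, (1:ℝ) := by
        refine Finset.sum_le_sum fun i _ => ?_
        exact indicator_le' (fun _ _ => le_rfl) (fun _ _ => zero_le_one) _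
    _ = n := by simp

lemma measurable_pot {t : ℝ} (ρ : Measure (R d)) [IsFiniteMeasure ρ] :
    Measurable fun x : R d => ∫ y, Real.exp (-(t * dist x y ^ 2)) ∂ρ :=
  ((measurable_gk t).stronglyMeasurable.integral_prod_right' (ν := ρ)).measurable

lemma pot_le {t : ℝ} (ht : 0 ≤ t) (ρ : Measure (R d)) [IsFiniteMeasure ρ] (x : R d) :
    ∫ y, Real.exp (-(t * dist x y ^ 2)) ∂ρ ≤ ρ.real univ := by
  have h1 : ρ.real univ = ∫ _, (1:ℝ) ∂ρ := by simp
  rw [h1]
  refine integral_mono_of_nonneg (Eventually.of_forall fun y => (Real.exp_pos _).le)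
    (integrable_const _) (Eventually.of_forall fun y => gk_le ht x y)

lemma abs_sum_indic_le {c : ℝ} (hc : 0 ≤ c) (Λ : ℝ) (y : Fin n → R d) {f : R d → ℝ}
    (hf0 : ∀ x, 0 ≤ f x) (hf : ∀ x, f x ≤ c) :
    |∑ i, (Bx d Λ).indicator f (y i)| ≤ n * c := by
  rw [abs_of_nonneg (Finset.sum_nonneg fun i _ => indicator_nonneg (fun x _ => hf0 x) _)]
  calc ∑ i, (Bx d Λ).indicator f (y i) ≤ ∑ _i : Fin n, c := by
        refine Finset.sum_le_sum fun i _ => ?_
        exact indicator_le' (fun x _ => hf x) (fun _ _ => hc) _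
    _ = n * c := by simp

lemma measurable_Qcc {t : ℝ} (Λ : ℝ) {Y : O → Fin n → R d}
    (hY : ∀ i, Measurable fun o => Y o i) :
    Measurable fun o => Qt t (cfg Λ (Y o)) (cfg Λ (Y o)) := by
  unfold Qt
  simp_rw [integral_cfgC]
  have h1 : ∀ i : Fin n, Measurable fun q : O × R d =>
      (Bx d Λ).indicator (fun y => Real.exp (-(t * dist q.2 y ^ 2))) (Y q.1 i) := by
    intro i
    have := measurable_indic (d := d) Λ (G := fun (x y : R d) => Real.exp (-(t * dist x y ^ 2)))
      (measurable_gk t)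
    exact this.comp (measurable_snd.prodMk ((hY i).comp measurable_fst))
  have h2 : Measurable (Function.uncurry fun (o : O) (x : R d) =>
      ∑ i, (Bx d Λ).indicator (fun y => Real.exp (-(t * dist x y ^ 2))) (Y o i)) :=
    Finset.measurable_sum _ fun i _ => h1 i
  refine Finset.measurable_sum _ fun i _ => ?_
  exact (measurable_indic Λ h2).comp (measurable_id.prodMk (hY i))

lemma Qt_nonneg' {X : Type*} [PseudoMetricSpace X] [MeasurableSpace X] (t : ℝ)
    (μ ν : Measure X) : 0 ≤ Qt t μ ν :=
  integral_nonneg fun x => integral_nonneg fun y => (Real.exp_pos _).le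

lemma Qcc_le {t : ℝ} (ht : 0 ≤ t) (Λ : ℝ) (y : Fin n → R d) :
    Qt t (cfg Λ y) (cfg Λ y) ≤ n * n := by
  unfold Qt
  rw [integral_cfgC]
  refine (le_abs_self _).trans (abs_sum_indic_le (Nat.cast_nonneg n) Λ y
    (fun x => integral_nonneg fun y => (Real.exp_pos _).le) (fun x => ?_))
  exact (pot_le ht _ x).trans (cfg_real_le Λ y)

/-- the averaged spectrum gives the averaged Gaussian energy -/
lemma Phi_eq {P : Measure O} [IsProbabilityMeasure P] {Λ : ℝ} {Y : O → Fin n → R d}
    (hY : ∀ i, Measurable fun o => Y o i) {ρ : Measure (R d)} [IsFiniteMeasure ρ]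
    (hρ : ∀ B : Set (R d), MeasurableSet B → ∫⁻ o, cfg Λ (Y o) B ∂P = ρ B) {t : ℝ} (ht : 0 < t) :
    Phi (fun η : R d => ∫⁻ o, ENNReal.ofReal (‖chi (cfg Λ (Y o)) η - chi ρ η‖ ^ 2) ∂P) t =
      ENNReal.ofReal (∫ o, Qt t (cfg Λ (Y o)) (cfg Λ (Y o)) ∂P - Qt t ρ ρ) := by
  have hchi : Measurable fun q : O × R d => chi (cfg Λ (Y q.1)) q.2 := by
    refine measurable_int_cfg Λ hY (G := fun (η x : R d) =>
      Complex.exp (((-2 * Real.pi * inner ℝ x η : ℝ) : ℂ) * Complex.I)) ?_
    refine Continuous.measurable ?_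
    simp only [Function.uncurry_def]
    fun_prop
  have hchiρ : Measurable fun η : R d => chi ρ η := by
    have hc : Continuous fun q : R d × R d =>
        Complex.exp (((-2 * Real.pi * inner ℝ q.2 q.1 : ℝ) : ℂ) * Complex.I) := by fun_prop
    exact (hc.stronglyMeasurable.integral_prod_right' (ν := ρ)).measurable
  have hD : Measurable fun q : O × R d =>
      ENNReal.ofReal (‖chi (cfg Λ (Y q.1)) q.2 - chi ρ q.2‖ ^ 2) :=
    ((hchi.sub (hchiρ.comp measurable_snd)).norm.pow_const 2).ennreal_ofReal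
  unfold Phi
  have hgam : Measurable fun ζ : R d => ENNReal.ofReal (gam t ζ) := (measurable_gam t).ennreal_ofReal
  calc ∫⁻ ξ : R d, ENNReal.ofReal (gam t ξ) *
        ∫⁻ o, ENNReal.ofReal (‖chi (cfg Λ (Y o)) ξ - chi ρ ξ‖ ^ 2) ∂P
      = ∫⁻ ξ : R d, ∫⁻ o, ENNReal.ofReal (gam t ξ) *
          ENNReal.ofReal (‖chi (cfg Λ (Y o)) ξ - chi ρ ξ‖ ^ 2) ∂P := by
        refine lintegral_congr fun ξ => ?_
        rw [lintegral_const_mul' _ _ ENNReal.ofReal_ne_top]
    _ = ∫⁻ o, (∫⁻ ξ : R d, ENNReal.ofReal (gam t ξ) *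
          ENNReal.ofReal (‖chi (cfg Λ (Y o)) ξ - chi ρ ξ‖ ^ 2)) ∂P := by
        rw [lintegral_lintegral_swap]
        exact ((hgam.comp measurable_fst).mul (hD.comp measurable_swap)).aemeasurable
    _ = ∫⁻ o, ENNReal.ofReal (Qt t (cfg Λ (Y o)) (cfg Λ (Y o)) - 2 * Qt t (cfg Λ (Y o)) ρ +
          Qt t ρ ρ) ∂P := by
        refine lintegral_congr fun o => ?_
        rw [(pd_identity (cfg Λ (Y o)) ρ ht).2]
    _ = ENNReal.ofReal (∫ o, (Qt t (cfg Λ (Y o)) (cfg Λ (Y o)) - 2 * Qt t (cfg Λ (Y o)) ρ +
          Qt t ρ ρ) ∂P) := by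
        rw [ofReal_integral_eq_lintegral_ofReal]
        · have i1 : Integrable (fun o => Qt t (cfg Λ (Y o)) (cfg Λ (Y o))) P := by
            refine (integrable_const ((n:ℝ) * n)).mono' (measurable_Qcc Λ hY).aestronglyMeasurable
              (Eventually.of_forall fun o => ?_)
            rw [Real.norm_of_nonneg (Qt_nonneg' _ _ _)]
            exact Qcc_le ht.le Λ _
          have i2 : Integrable (fun o => Qt t (cfg Λ (Y o)) ρ) P := by
            refine (integrable_const ((n:ℝ) * ρ.real univ)).mono' ?_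
              (Eventually.of_forall fun o => ?_)
            · refine Measurable.aestronglyMeasurable ?_
              unfold Qt
              simp_rw [integral_cfgC]
              refine Finset.measurable_sum _ fun i _ => ?_
              exact ((measurable_pot ρ).indicator (Pull.measurableSet_Bx Λ)).comp (hY i)
            · unfold Qt
              rw [integral_cfgC]
              exact abs_sum_indic_le measureReal_nonneg Λ _
                (fun x => integral_nonneg fun y => (Real.exp_pos _).le) (pot_le ht.le ρ)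
          exact (i1.sub (i2.const_mul 2)).add (integrable_const _)
        · exact Eventually.of_forall fun o => (pd_identity (cfg Λ (Y o)) ρ ht).1
    _ = _ := by
        congr 1
        have i1 : Integrable (fun o => Qt t (cfg Λ (Y o)) (cfg Λ (Y o))) P := by
          refine (integrable_const ((n:ℝ) * n)).mono' (measurable_Qcc Λ hY).aestronglyMeasurable
            (Eventually.of_forall fun o => ?_)
          rw [Real.norm_of_nonneg (Qt_nonneg' _ _ _)]
          exact Qcc_le ht.le Λ _
        have i2 : Integrable (fun o => Qt t (cfg Λ (Y o)) ρ) P := by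
          refine (integrable_const ((n:ℝ) * ρ.real univ)).mono' ?_
            (Eventually.of_forall fun o => ?_)
          · refine Measurable.aestronglyMeasurable ?_
            unfold Qt
            simp_rw [integral_cfgC]
            refine Finset.measurable_sum _ fun i _ => ?_
            exact ((measurable_pot ρ).indicator (Pull.measurableSet_Bx Λ)).comp (hY i)
          · unfold Qt
            rw [integral_cfgC]
            exact abs_sum_indic_le measureReal_nonneg Λ _
              (fun x => integral_nonneg fun y => (Real.exp_pos _).le) (pot_le ht.le ρ)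
        have i12 : Integrable (fun o => Qt t (cfg Λ (Y o)) (cfg Λ (Y o)) -
            2 * Qt t (cfg Λ (Y o)) ρ) P := i1.sub (i2.const_mul 2)
        have i2' : Integrable (fun o => 2 * Qt t (cfg Λ (Y o)) ρ) P := i2.const_mul 2
        rw [integral_add i12 (integrable_const _), integral_sub i1 i2', integral_const_mul]
        have e : ∫ o, Qt t (cfg Λ (Y o)) ρ ∂P = Qt t ρ ρ := by
          unfold Qt
          exact mean_integral hY hρ (measurable_pot ρ)
            (fun x => integral_nonneg fun y => (Real.exp_pos _).le)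
        rw [e]
        simp
        ring

end Choose

end Helper23.Riesz
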