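import Pool.Agent.Helper95.Riesz.Choose1
import Pool.Agent.Helper70.Riesz.FinishB

/-!
# CHOOSE, part 2: the windows
-/

set_option autoImplicit false
set_option linter.unusedSectionVars false
open MeasureTheory Set Filter Topology
open scoped ENNReal NNReal FourierTransform SchwartzMap

namespace Helper23.Riesz

namespace Choose

variable {s : ℝ} {d n : ℕ} {O : Type*} [MeasurableSpace O]

/-- the Fourier transform of the unit cube -/
noncomputable def kap (d : ℕ) (ζ : R d) : ℂ :=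
  chi ((volume : Measure (R d)).restrict (cubo 0 1)) ζ

instance isProb_cubo : IsProbabilityMeasure ((volume : Measure (R d)).restrict (cubo 0 1)) :=
  ⟨by rw [Measure.restrict_apply MeasurableSet.univ, univ_inter, FinishAux.vCu']⟩

lemma norm_kap_le (ζ : R d) : ‖kap d ζ‖ ≤ 1 := by
  unfold kap
  refine (PDId.norm_chi_le _ ζ).trans ?_
  simp

lemma measurable_chi (ρ : Measure (R d)) [IsFiniteMeasure ρ] : Measurable fun η : R d => chi ρ η := by
  have hc : Continuous fun q : R d × R d =>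
      Complex.exp (((-2 * Real.pi * inner ℝ q.2 q.1 : ℝ) : ℂ) * Complex.I) := by fun_prop
  exact (hc.stronglyMeasurable.integral_prod_right' (ν := ρ)).measurable

lemma measurable_kap : Measurable (kap d) := measurable_chi _

lemma integrable_ech (ρ : Measure (R d)) [IsFiniteMeasure ρ] (ζ : R d) :
    Integrable (fun x => ech x ζ) ρ := by
  refine (integrable_const (1:ℝ)).mono' ?_ (Eventually.of_forall fun x => (norm_ech x ζ).le)
  exact (continuous_ech.comp (continuous_id.prodMk continuous_const)).aestronglyMeasurable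

lemma norm_one_sub_kap (ζ : R d) : ‖1 - kap d ζ‖ ≤ (2 * Real.pi * d) * ‖ζ‖ := by
  have h1 : (1:ℂ) - kap d ζ =
      ∫ x, (1 - ech x ζ) ∂((volume : Measure (R d)).restrict (cubo 0 1)) := by
    rw [integral_sub (integrable_const _) (integrable_ech _ ζ)]
    simp only [integral_const, probReal_univ, one_smul]
    rfl
  rw [h1]
  have h2 : ∀ x ∈ cubo (0 : R d) 1, ‖1 - ech x ζ‖ ≤ (2 * Real.pi * d) * ‖ζ‖ := by
    intro x hx
    have hx1 : ‖x‖ ≤ d := by
      have := FinishAux.cubo_ball hx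
      rw [mem_closedBall_zero_iff, mul_one] at this
      exact this
    rw [norm_sub_rev]
    unfold ech
    rw [mul_comm]
    refine Real.norm_exp_I_mul_ofReal_sub_one_le.trans ?_
    rw [norm_mul, norm_mul, Real.norm_eq_abs Real.pi, abs_of_pos Real.pi_pos]
    have : ‖inner ℝ x ζ‖ ≤ ‖x‖ * ‖ζ‖ := norm_inner_le_norm x ζ
    have h3 : ‖(-2:ℝ)‖ = 2 := by norm_num
    rw [h3]
    calc 2 * Real.pi * ‖inner ℝ x ζ‖ ≤ 2 * Real.pi * (‖x‖ * ‖ζ‖) :=
          mul_le_mul_of_nonneg_left this (by have := Real.pi_pos; positivity)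
      _ ≤ 2 * Real.pi * (d * ‖ζ‖) := by
          refine mul_le_mul_of_nonneg_left ?_ (by have := Real.pi_pos; positivity)
          exact mul_le_mul_of_nonneg_right hx1 (norm_nonneg _)
      _ = _ := by ring
  have h3 := norm_setIntegral_le_of_norm_le_const (μ := (volume : Measure (R d)))
    (s := cubo (0 : R d) 1) (by rw [FinishAux.vCu']; simp) h2
  rw [FinishAux.vCu, mul_one] at h3
  exact h3

/-- the window functions -/
noncomputable def fz (ψ : 𝓢(R d, ℂ)) (ζ : R d) : 𝓢(R d, ℂ) :=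
  𝓕⁻ (SchwartzMap.compSubConstCLM ℂ (-ζ) (𝓕 ψ) - kap d ζ • 𝓕 ψ)

lemma fourier_fz (ψ : 𝓢(R d, ℂ)) (ζ η : R d) :
    𝓕 (fz ψ ζ) η = 𝓕 ψ (η + ζ) - kap d ζ * 𝓕 ψ η := by
  unfold fz
  rw [FourierTransform.fourier_fourierInv_eq]
  simp [sub_neg_eq_add]

lemma fz_apply (ψ : 𝓢(R d, ℂ)) (ζ u : R d) :
    fz ψ ζ u = ψ u * (ech u ζ - kap d ζ) := by
  unfold fz
  have h0 : 𝓕⁻ (SchwartzMap.compSubConstCLM ℂ (-ζ) (𝓕 ψ) - kap d ζ • 𝓕 ψ) =
      𝓕⁻ (SchwartzMap.compSubConstCLM ℂ (-ζ) (𝓕 ψ)) - kap d ζ • ψ := by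
    have h1 : 𝓕⁻ (SchwartzMap.compSubConstCLM ℂ (-ζ) (𝓕 ψ) - kap d ζ • 𝓕 ψ) =
      𝓕⁻ (SchwartzMap.compSubConstCLM ℂ (-ζ) (𝓕 ψ)) - 𝓕⁻ (kap d ζ • 𝓕 ψ) := by
      exact map_sub (FourierTransform.fourierInvCLM ℂ 𝓢(R d, ℂ)) _ _
    have h2 : 𝓕⁻ (kap d ζ • 𝓕 ψ) = kap d ζ • ψ := by
      have : 𝓕⁻ (kap d ζ • 𝓕 ψ) = kap d ζ • 𝓕⁻ (𝓕 ψ) :=
        map_smul (FourierTransform.fourierInvCLM ℂ 𝓢(R d, ℂ)) _ _
      rw [this, FourierTransform.fourierInv_fourier_eq]
    rw [h1, h2]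
  rw [h0]
  simp only [sub_apply, smul_apply, smul_eq_mul]
  rw [mul_sub, mul_comm (ψ u) (kap d ζ)]
  congr 1
  have h3 : ψ u = 𝓕⁻ (𝓕 ψ) u := by rw [FourierTransform.fourierInv_fourier_eq]
  rw [h3, SchwartzMap.fourierInv_coe, SchwartzMap.fourierInv_coe, Real.fourierInv_eq',
    Real.fourierInv_eq', ← integral_mul_const]
  rw [← integral_sub_right_eq_self _ ζ]
  refine integral_congr_ae (Eventually.of_forall fun η => ?_)
  simp only [SchwartzMap.compSubConstCLM_apply, smul_eq_mul, ech, sub_neg_eq_add, sub_add_cancel]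
  have e : Complex.exp (((2 * Real.pi * inner ℝ (η - ζ) u : ℝ) : ℂ) * Complex.I) =
      Complex.exp (((2 * Real.pi * inner ℝ η u : ℝ) : ℂ) * Complex.I) *
        Complex.exp (((-2 * Real.pi * inner ℝ u ζ : ℝ) : ℂ) * Complex.I) := by
    rw [← Complex.exp_add]
    congr 1
    rw [inner_sub_left, real_inner_comm u ζ]
    push_cast
    ring
  rw [e]
  ring

end Choose

end Helper23.Riesz
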