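import Pool.Agent.Helper95.Riesz.Choose2

/-!
# CHOOSE, part 3: averaging over the windows
-/

set_option autoImplicit false
set_option linter.unusedSectionVars false
open MeasureTheory Set Filter Topology
open scoped ENNReal NNReal FourierTransform SchwartzMap

namespace Helper23.Riesz

namespace Choose

variable {s : ℝ} {d n : ℕ} {O : Type*} [MeasurableSpace O]

/-- the discrepancy against a window -/
noncomputable def Gd (Λ : ℝ) (ψ : 𝓢(R d, ℂ)) (ρ : Measure (R d)) (y : Fin n → R d)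
    (ζ z : R d) : ℂ := ∫ x, fz ψ ζ (x - z) ∂(cfg Λ y) - ∫ x, fz ψ ζ (x - z) ∂ρ

/-- the charge of a window -/
noncomputable def Qd (Λ : ℝ) (ψ : 𝓢(R d, ℂ)) (ρ : Measure (R d)) (y : Fin n → R d)
    (z : R d) : ℂ := ∫ x, ψ (x - z) ∂(cfg Λ y) - ∫ x, ψ (x - z) ∂ρ

/-- the averaged spectrum -/
noncomputable def Sp (P : Measure O) (Λ : ℝ) (Y : O → Fin n → R d) (ρ : Measure (R d)) (η : R d) :
    ℝ≥0∞ := ∫⁻ o, ENNReal.ofReal (‖chi (cfg Λ (Y o)) η - chi ρ η‖ ^ 2) ∂P

lemma measurable_D {Λ : ℝ} {Y : O → Fin n → R d} (hY : ∀ i, Measurable fun o => Y o i)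
    (ρ : Measure (R d)) [IsFiniteMeasure ρ] : Measurable fun q : O × R d =>
      ENNReal.ofReal (‖chi (cfg Λ (Y q.1)) q.2 - chi ρ q.2‖ ^ 2) := by
  have hchi : Measurable fun q : O × R d => chi (cfg Λ (Y q.1)) q.2 := by
    refine measurable_int_cfg Λ hY (G := fun (η x : R d) =>
      Complex.exp (((-2 * Real.pi * inner ℝ x η : ℝ) : ℂ) * Complex.I)) ?_
    refine Continuous.measurable ?_
    simp only [Function.uncurry_def]
    fun_prop
  exact ((hchi.sub ((measurable_chi ρ).comp measurable_snd)).norm.pow_const 2).ennreal_ofReal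

lemma measurable_Sp {P : Measure O} [SFinite P] {Λ : ℝ} {Y : O → Fin n → R d}
    (hY : ∀ i, Measurable fun o => Y o i) (ρ : Measure (R d)) [IsFiniteMeasure ρ] :
    Measurable (Sp P Λ Y ρ) := by
  unfold Sp
  exact ((measurable_D hY ρ).comp measurable_swap).lintegral_prod_right'

lemma measurable_fzk (ψ : 𝓢(R d, ℂ)) : Measurable fun q : (R d × R d) × R d =>
    fz ψ q.1.1 (q.2 - q.1.2) := by
  simp_rw [fz_apply]
  have h1 : Measurable fun q : (R d × R d) × R d => ψ (q.2 - q.1.2) :=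
    ψ.continuous.measurable.comp (by fun_prop)
  have h2 : Measurable fun q : (R d × R d) × R d => ech (q.2 - q.1.2) q.1.1 := by
    refine Continuous.measurable ?_
    exact (continuous_ech (V := R d)).comp
      (f := fun q : (R d × R d) × R d => (q.2 - q.1.2, q.1.1)) (by fun_prop)
  exact h1.mul (h2.sub (measurable_kap.comp (measurable_fst.comp measurable_fst)))

lemma measurable_Gd {Λ : ℝ} {Y : O → Fin n → R d} (hY : ∀ i, Measurable fun o => Y o i)
    (ψ : 𝓢(R d, ℂ)) (ρ : Measure (R d)) [IsFiniteMeasure ρ] :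
    Measurable fun q : O × (R d × R d) => Gd Λ ψ ρ (Y q.1) q.2.1 q.2.2 := by
  unfold Gd
  refine Measurable.sub ?_ ?_
  · exact measurable_int_cfg Λ hY (G := fun (p : R d × R d) (x : R d) => fz ψ p.1 (x - p.2))
      (measurable_fzk ψ)
  · have h1 : Measurable fun p : R d × R d => ∫ x, fz ψ p.1 (x - p.2) ∂ρ :=
      ((measurable_fzk ψ).stronglyMeasurable.integral_prod_right' (ν := ρ)).measurable
    exact h1.comp measurable_snd

lemma measurable_Qd {Λ : ℝ} {Y : O → Fin n → R d} (hY : ∀ i, Measurable fun o => Y o i)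
    (ψ : 𝓢(R d, ℂ)) (ρ : Measure (R d)) [IsFiniteMeasure ρ] :
    Measurable fun q : O × R d => Qd Λ ψ ρ (Y q.1) q.2 := by
  have h0 : Measurable fun q : R d × R d => ψ (q.2 - q.1) :=
    ψ.continuous.measurable.comp (by fun_prop)
  unfold Qd
  refine Measurable.sub ?_ ?_
  · exact measurable_int_cfg Λ hY (G := fun (p : R d) (x : R d) => ψ (x - p)) h0
  · have h1 : Measurable fun p : R d => ∫ x, ψ (x - p) ∂ρ :=
      (h0.stronglyMeasurable.integral_prod_right' (ν := ρ)).measurable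
    exact h1.comp measurable_snd

/-- integrated weight -/
noncomputable def wb (a : ℝ) (ζ : R d) : ℝ≥0∞ :=
  ∫⁻ t in Ioi (0:ℝ), wt a t * ENNReal.ofReal (gam t ζ)

lemma measurable_wb (a : ℝ) : Measurable (wb a : R d → ℝ≥0∞) := by
  have h : Measurable fun q : R d × ℝ => wt a q.2 * ENNReal.ofReal (gam q.2 q.1) :=
    ((measurable_wt a).comp measurable_snd).mul
      (((measurable_gam_uncurry (V := R d)).comp measurable_swap).ennreal_ofReal)
  exact h.lintegral_prod_right'

lemma wb_eq {a : ℝ} {f : R d → ℝ≥0∞} (hf : Measurable f) :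
    ∫⁻ t in Ioi (0:ℝ), wt a t * ∫⁻ ζ : R d, ENNReal.ofReal (gam t ζ) * f ζ =
      ∫⁻ ζ : R d, wb a ζ * f ζ := by
  have h : Measurable fun q : ℝ × R d => wt a q.1 * (ENNReal.ofReal (gam q.1 q.2) * f q.2) :=
    ((measurable_wt a).comp measurable_fst).mul
      (((measurable_gam_uncurry (V := R d)).ennreal_ofReal).mul (hf.comp measurable_snd))
  calc ∫⁻ t in Ioi (0:ℝ), wt a t * ∫⁻ ζ : R d, ENNReal.ofReal (gam t ζ) * f ζ
      = ∫⁻ t in Ioi (0:ℝ), ∫⁻ ζ : R d, wt a t * (ENNReal.ofReal (gam t ζ) * f ζ) := by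
        refine lintegral_congr fun t => ?_
        rw [lintegral_const_mul]
        exact ((measurable_gam t).ennreal_ofReal).mul hf
    _ = ∫⁻ ζ : R d, ∫⁻ t in Ioi (0:ℝ), wt a t * (ENNReal.ofReal (gam t ζ) * f ζ) := by
        rw [lintegral_lintegral_swap]
        exact h.aemeasurable
    _ = _ := by
        refine lintegral_congr fun ζ => ?_
        unfold wb
        rw [← lintegral_mul_const]
        · refine lintegral_congr fun t => ?_
          ring
        · exact (measurable_wt a).mul (((measurable_gam_uncurry (V := R d)).comp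
            (measurable_id.prodMk measurable_const)).ennreal_ofReal)

lemma swap_SD {P : Measure O} [SFinite P] {Λ : ℝ} {Y : O → Fin n → R d}
    (hY : ∀ i, Measurable fun o => Y o i) (ρ : Measure (R d)) [IsFiniteMeasure ρ]
    {A : R d → ℝ≥0∞} (hA : Measurable A) :
    ∫⁻ o, (∫⁻ η, A η * ENNReal.ofReal (‖chi (cfg Λ (Y o)) η - chi ρ η‖ ^ 2)) ∂P =
      ∫⁻ η, A η * Sp P Λ Y ρ η := by
  rw [lintegral_lintegral_swap]
  · refine lintegral_congr fun η => ?_
    unfold Sp
    have h1 : Measurable fun o : O => ((o, η) : O × R d) := measurable_id.prodMk measurable_const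
    have h2 : Measurable fun o : O => ENNReal.ofReal (‖chi (cfg Λ (Y o)) η - chi ρ η‖ ^ 2) := by
      have := (measurable_D (Λ := Λ) hY ρ).comp h1
      exact this
    rw [← lintegral_const_mul _ h2]
  · exact ((hA.comp measurable_snd).mul (measurable_D hY ρ)).aemeasurable

/-- average of the energy over the windows -/
lemma avg_energy {a : ℝ} {P : Measure O} [SFinite P] {Λ : ℝ} {Y : O → Fin n → R d}
    (hY : ∀ i, Measurable fun o => Y o i) (ψ : 𝓢(R d, ℂ)) (ρ : Measure (R d))
    [IsFiniteMeasure ρ] :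
    ∫⁻ z, (∫⁻ o, (∫⁻ t in Ioi (0:ℝ), wt a t * ∫⁻ ζ : R d, ENNReal.ofReal (gam t ζ) *
        ENNReal.ofReal (‖Gd Λ ψ ρ (Y o) ζ z‖ ^ 2)) ∂P) =
      ∫⁻ t in Ioi (0:ℝ), wt a t * ∫⁻ ζ : R d, ENNReal.ofReal (gam t ζ) *
        ∫⁻ η : R d, ENNReal.ofReal (‖𝓕 ψ (η + ζ) - kap d ζ * 𝓕 ψ η‖ ^ 2) * Sp P Λ Y ρ η := by
  set H : O → R d → R d → ℝ≥0∞ := fun o ζ z => ENNReal.ofReal (‖Gd Λ ψ ρ (Y o) ζ z‖ ^ 2) with hH
  have hHm : Measurable fun q : O × (R d × R d) => H q.1 q.2.1 q.2.2 :=
    ((measurable_Gd hY ψ ρ).norm.pow_const 2).ennreal_ofReal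
  have hwb := measurable_wb (d := d) a
  have hAm : Measurable fun q : R d × R d =>
      ENNReal.ofReal (‖𝓕 ψ (q.2 + q.1) - kap d q.1 * 𝓕 ψ q.2‖ ^ 2) := by
    have h1 : Measurable fun q : R d × R d => 𝓕 ψ (q.2 + q.1) :=
      (𝓕 ψ).continuous.measurable.comp (by fun_prop)
    have h2 : Measurable fun q : R d × R d => 𝓕 ψ q.2 :=
      (𝓕 ψ).continuous.measurable.comp (by fun_prop)
    exact ((h1.sub ((measurable_kap.comp measurable_fst).mul h2)).norm.pow_const 2).ennreal_ofReal
  have hSm := measurable_Sp (P := P) hY (Λ := Λ) ρ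
  -- rewrite both sides with `wb`
  have hR : ∫⁻ t in Ioi (0:ℝ), wt a t * ∫⁻ ζ : R d, ENNReal.ofReal (gam t ζ) *
        ∫⁻ η : R d, ENNReal.ofReal (‖𝓕 ψ (η + ζ) - kap d ζ * 𝓕 ψ η‖ ^ 2) * Sp P Λ Y ρ η =
      ∫⁻ ζ : R d, wb a ζ *
        ∫⁻ η : R d, ENNReal.ofReal (‖𝓕 ψ (η + ζ) - kap d ζ * 𝓕 ψ η‖ ^ 2) * Sp P Λ Y ρ η := by
    refine wb_eq ?_
    have : Measurable fun q : R d × R d =>
        ENNReal.ofReal (‖𝓕 ψ (q.2 + q.1) - kap d q.1 * 𝓕 ψ q.2‖ ^ 2) * Sp P Λ Y ρ q.2 :=
      hAm.mul (hSm.comp measurable_snd)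
    exact this.lintegral_prod_right'
  have hL : ∀ z : R d, ∫⁻ o, (∫⁻ t in Ioi (0:ℝ), wt a t * ∫⁻ ζ : R d,
      ENNReal.ofReal (gam t ζ) * H o ζ z) ∂P = ∫⁻ o, (∫⁻ ζ : R d, wb a ζ * H o ζ z) ∂P := by
    intro z
    refine lintegral_congr fun o => ?_
    have h1 : Measurable fun ζ : R d => ((o, (ζ, z)) : O × (R d × R d)) :=
      measurable_const.prodMk (measurable_id.prodMk measurable_const)
    have h2 : Measurable fun ζ : R d => H o ζ z := by
      have := hHm.comp h1
      exact this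
    exact wb_eq h2
  rw [hR]
  calc ∫⁻ z, (∫⁻ o, (∫⁻ t in Ioi (0:ℝ), wt a t * ∫⁻ ζ : R d, ENNReal.ofReal (gam t ζ) *
        H o ζ z) ∂P) = ∫⁻ z, (∫⁻ o, (∫⁻ ζ : R d, wb a ζ * H o ζ z) ∂P) :=
        lintegral_congr fun z => hL z
    _ = ∫⁻ z, (∫⁻ ζ : R d, wb a ζ * ∫⁻ o, H o ζ z ∂P) := by
        refine lintegral_congr fun z => ?_
        rw [lintegral_lintegral_swap]
        · refine lintegral_congr fun ζ => ?_
          have h1 : Measurable fun o : O => ((o, (ζ, z)) : O × (R d × R d)) :=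
            measurable_id.prodMk measurable_const
          have h2 : Measurable fun o : O => H o ζ z := by
            have := hHm.comp h1
            exact this
          rw [lintegral_const_mul _ h2]
        · have h1 : Measurable fun q : O × R d => ((q.1, (q.2, z)) : O × (R d × R d)) :=
            measurable_fst.prodMk (measurable_snd.prodMk measurable_const)
          have h2 : Measurable fun q : O × R d => wb a q.2 * H q.1 q.2 z := by
            have := (hwb.comp measurable_snd).mul (hHm.comp h1)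
            exact this
          exact h2.aemeasurable
    _ = ∫⁻ ζ : R d, (∫⁻ z, wb a ζ * ∫⁻ o, H o ζ z ∂P) := by
        rw [lintegral_lintegral_swap]
        have h0 : Measurable fun q : (R d × R d) × O =>
            ((q.2, (q.1.2, q.1.1)) : O × (R d × R d)) :=
          measurable_snd.prodMk ((measurable_snd.comp measurable_fst).prodMk
            (measurable_fst.comp measurable_fst))
        have h1 : Measurable fun q : (R d × R d) × O => H q.2 q.1.2 q.1.1 := by
          have := hHm.comp h0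
          exact this
        have h2 : Measurable fun q : R d × R d => ∫⁻ o, H o q.2 q.1 ∂P :=
          h1.lintegral_prod_right'
        have h3 : Measurable fun q : R d × R d => wb a q.2 * ∫⁻ o, H o q.2 q.1 ∂P := by
          have := (hwb.comp measurable_snd).mul h2
          exact this
        exact h3.aemeasurable
    _ = ∫⁻ ζ : R d, wb a ζ * (∫⁻ z, (∫⁻ o, H o ζ z ∂P)) := by
        refine lintegral_congr fun ζ => ?_
        have h0 : Measurable fun q : R d × O => ((q.2, (ζ, q.1)) : O × (R d × R d)) :=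
          measurable_snd.prodMk (measurable_const.prodMk measurable_fst)
        have h1 : Measurable fun q : R d × O => H q.2 ζ q.1 := by
          have := hHm.comp h0
          exact this
        have h2 : Measurable fun z : R d => ∫⁻ o, H o ζ z ∂P := h1.lintegral_prod_right'
        rw [lintegral_const_mul _ h2]
    _ = _ := by
        refine lintegral_congr fun ζ => ?_
        congr 1
        have h0 : Measurable fun q : R d × O => ((q.2, (ζ, q.1)) : O × (R d × R d)) :=
          measurable_snd.prodMk (measurable_const.prodMk measurable_fst)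
        have h1 : Measurable fun q : R d × O => H q.2 ζ q.1 := by
          have := hHm.comp h0
          exact this
        rw [lintegral_lintegral_swap h1.aemeasurable]
        have h2 : Measurable fun η : R d => ((ζ, η) : R d × R d) :=
          measurable_const.prodMk measurable_id
        have h3 : Measurable fun η : R d =>
            ENNReal.ofReal (‖𝓕 ψ (η + ζ) - kap d ζ * 𝓕 ψ η‖ ^ 2) := by
          have := hAm.comp h2
          exact this
        rw [← swap_SD hY ρ h3]
        refine lintegral_congr fun o => ?_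
        simp only [hH, Gd]
        rw [planch (fz ψ ζ) (cfg Λ (Y o)) ρ]
        refine lintegral_congr fun η => ?_
        rw [fourier_fz]

/-- average of the squared charge over the windows -/
lemma avg_charge {P : Measure O} [SFinite P] {Λ : ℝ} {Y : O → Fin n → R d}
    (hY : ∀ i, Measurable fun o => Y o i) (ψ : 𝓢(R d, ℂ)) (ρ : Measure (R d))
    [IsFiniteMeasure ρ] :
    ∫⁻ z, (∫⁻ o, ENNReal.ofReal (‖Qd Λ ψ ρ (Y o) z‖ ^ 2) ∂P) =
      ∫⁻ η : R d, ENNReal.ofReal (‖𝓕 ψ η‖ ^ 2) * Sp P Λ Y ρ η := by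
  have hHm : Measurable fun q : O × R d => ENNReal.ofReal (‖Qd Λ ψ ρ (Y q.1) q.2‖ ^ 2) :=
    ((measurable_Qd hY ψ ρ).norm.pow_const 2).ennreal_ofReal
  rw [lintegral_lintegral_swap]
  swap
  · exact (hHm.comp measurable_swap).aemeasurable
  rw [← swap_SD hY ρ (A := fun η => ENNReal.ofReal (‖𝓕 ψ η‖ ^ 2))
    (((𝓕 ψ).continuous.measurable.norm.pow_const 2).ennreal_ofReal)]
  refine lintegral_congr fun o => ?_
  unfold Qd
  rw [planch ψ (cfg Λ (Y o)) ρ]

/-- the averaged energy through the window at `z` -/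
noncomputable def EJ (a : ℝ) (P : Measure O) (Λ : ℝ) (Y : O → Fin n → R d) (ψ : 𝓢(R d, ℂ))
    (ρ : Measure (R d)) (z : R d) : ℝ≥0∞ :=
  ∫⁻ o, (∫⁻ t in Ioi (0:ℝ), wt a t * ∫⁻ ζ : R d, ENNReal.ofReal (gam t ζ) *
        ENNReal.ofReal (‖Gd Λ ψ ρ (Y o) ζ z‖ ^ 2)) ∂P

/-- the averaged squared charge of the window at `z` -/
noncomputable def EQ (P : Measure O) (Λ : ℝ) (Y : O → Fin n → R d) (ψ : 𝓢(R d, ℂ))
    (ρ : Measure (R d)) (z : R d) : ℝ≥0∞ :=
  ∫⁻ o, ENNReal.ofReal (‖Qd Λ ψ ρ (Y o) z‖ ^ 2) ∂P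

lemma measurable_EJ {a : ℝ} {P : Measure O} [SFinite P] {Λ : ℝ} {Y : O → Fin n → R d}
    (hY : ∀ i, Measurable fun o => Y o i) (ψ : 𝓢(R d, ℂ)) (ρ : Measure (R d))
    [IsFiniteMeasure ρ] : Measurable (EJ a P Λ Y ψ ρ) := by
  set H : O → R d → R d → ℝ≥0∞ := fun o ζ z => ENNReal.ofReal (‖Gd Λ ψ ρ (Y o) ζ z‖ ^ 2) with hH
  have hHm : Measurable fun q : O × (R d × R d) => H q.1 q.2.1 q.2.2 :=
    ((measurable_Gd hY ψ ρ).norm.pow_const 2).ennreal_ofReal
  have hwb := measurable_wb (d := d) a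
  have hE : EJ a P Λ Y ψ ρ = fun z => ∫⁻ o, (∫⁻ ζ : R d, wb a ζ * H o ζ z) ∂P := by
    funext z
    unfold EJ
    refine lintegral_congr fun o => ?_
    have h1 : Measurable fun ζ : R d => ((o, (ζ, z)) : O × (R d × R d)) :=
      measurable_const.prodMk (measurable_id.prodMk measurable_const)
    have h2 : Measurable fun ζ : R d => H o ζ z := by
      have := hHm.comp h1
      exact this
    exact wb_eq h2
  rw [hE]
  have h0 : Measurable fun q : (R d × O) × R d =>
      ((q.1.2, (q.2, q.1.1)) : O × (R d × R d)) :=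
    (measurable_snd.comp measurable_fst).prodMk
      (measurable_snd.prodMk (measurable_fst.comp measurable_fst))
  have h1 : Measurable fun q : (R d × O) × R d => wb a q.2 * H q.1.2 q.2 q.1.1 := by
    have := (hwb.comp measurable_snd).mul (hHm.comp h0)
    exact this
  have h2 : Measurable fun q : R d × O => ∫⁻ ζ : R d, wb a ζ * H q.2 ζ q.1 :=
    h1.lintegral_prod_right'
  exact h2.lintegral_prod_right'

lemma measurable_EQ {P : Measure O} [SFinite P] {Λ : ℝ} {Y : O → Fin n → R d}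
    (hY : ∀ i, Measurable fun o => Y o i) (ψ : 𝓢(R d, ℂ)) (ρ : Measure (R d))
    [IsFiniteMeasure ρ] : Measurable (EQ P Λ Y ψ ρ) := by
  have hHm : Measurable fun q : O × R d => ENNReal.ofReal (‖Qd Λ ψ ρ (Y q.1) q.2‖ ^ 2) :=
    ((measurable_Qd hY ψ ρ).norm.pow_const 2).ennreal_ofReal
  unfold EQ
  exact (hHm.comp measurable_swap).lintegral_prod_right'

end Choose

end Helper23.Riesz
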