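import Pool.Agent.Helper95.Riesz.Flat3

/-!
# The flat core: large times and the final statement
-/

set_option autoImplicit false
set_option linter.unusedSectionVars false
open MeasureTheory Set Filter Topology
open scoped ENNReal NNReal FourierTransform SchwartzMap

namespace Helper23.Riesz

variable {V : Type*} [NormedAddCommGroup V] [InnerProductSpace ℝ V] [FiniteDimensional ℝ V]
  [MeasurableSpace V] [BorelSpace V]

lemma integrable_pow_sq (F : 𝓢(V, ℂ)) (k : ℕ) : Integrable fun θ : V => ‖θ‖ ^ k * ‖F θ‖ ^ 2 := by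
  obtain ⟨C, hC0, hC⟩ := schwartz_le F 0
  have h1 : Integrable fun θ : V => C * (‖θ‖ ^ k * ‖F θ‖) := by
    have := F.integrable_pow_mul (volume : Measure V) k
    exact this.const_mul C
  refine h1.mono' ?_ (Eventually.of_forall fun θ => ?_)
  · exact ((continuous_norm.pow k).mul (F.continuous.norm.pow 2)).aestronglyMeasurable
  · rw [Real.norm_of_nonneg (by positivity)]
    have h2 := hC θ
    simp only [pow_zero, inv_one, mul_one] at h2
    have h3 : 0 ≤ ‖θ‖ ^ k * ‖F θ‖ := by positivity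
    calc ‖θ‖ ^ k * ‖F θ‖ ^ 2 = ‖F θ‖ * (‖θ‖ ^ k * ‖F θ‖) := by ring
      _ ≤ C * (‖θ‖ ^ k * ‖F θ‖) := mul_le_mul_of_nonneg_right h2 h3

lemma young_sq {δ : ℝ} (hδ : 0 < δ) {k x y : ℂ} (hk : ‖k‖ ≤ 1) :
    ‖x - k * y‖ ^ 2 ≤ (1 + δ) * ‖x‖ ^ 2 + (1 + 1 / δ) * ‖y‖ ^ 2 := by
  have h1 : ‖x - k * y‖ ≤ ‖x‖ + ‖y‖ := by
    refine (norm_sub_le _ _).trans ?_
    rw [norm_mul]
    have := mul_le_mul_of_nonneg_right hk (norm_nonneg y)
    linarith
  have h2 : ‖x - k * y‖ ^ 2 ≤ (‖x‖ + ‖y‖) ^ 2 := pow_le_pow_left₀ (norm_nonneg _) h1 2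
  have h3 : 0 ≤ (δ * ‖x‖ - ‖y‖) ^ 2 / δ := by positivity
  have h4 : (δ * ‖x‖ - ‖y‖) ^ 2 / δ = δ * ‖x‖ ^ 2 + 1 / δ * ‖y‖ ^ 2 - 2 * ‖x‖ * ‖y‖ := by
    field_simp; ring
  nlinarith

lemma measurable_gamconv {S : V → ℝ≥0∞} (hS : Measurable S) :
    Measurable fun q : ℝ × V => ∫⁻ η : V, ENNReal.ofReal (gam q.1 (η - q.2)) * S η := by
  have h : Measurable (fun q : (ℝ × V) × V =>
      ENNReal.ofReal (gam q.1.1 (q.2 - q.1.2)) * S q.2) := by
    refine Measurable.mul ?_ (hS.comp measurable_snd)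
    have h2 : Measurable (fun q : (ℝ × V) × V => (q.1.1, q.2 - q.1.2)) :=
      (measurable_fst.comp measurable_fst).prodMk
        (measurable_snd.sub (measurable_snd.comp measurable_fst))
    exact ((measurable_gam_uncurry (V := V)).comp h2).ennreal_ofReal
  exact h.lintegral_prod_right'

/-- unfolding the window at one time -/
lemma unfold_time {t : ℝ} (g : V → ℝ≥0∞) (hg : Measurable g) {S : V → ℝ≥0∞}
    (hS : Measurable S) :
    ∫⁻ ζ : V, ENNReal.ofReal (gam t ζ) * ∫⁻ η : V, g (η + ζ) * S η =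
      ∫⁻ θ : V, g θ * ∫⁻ η : V, ENNReal.ofReal (gam t (η - θ)) * S η := by
  have hgam : Measurable fun ζ : V => ENNReal.ofReal (gam t ζ) := (measurable_gam t).ennreal_ofReal
  calc ∫⁻ ζ : V, ENNReal.ofReal (gam t ζ) * ∫⁻ η : V, g (η + ζ) * S η
      = ∫⁻ ζ : V, ∫⁻ η : V, ENNReal.ofReal (gam t ζ) * (g (η + ζ) * S η) := by
        refine lintegral_congr fun ζ => ?_
        rw [lintegral_const_mul' _ _ ENNReal.ofReal_ne_top]
    _ = ∫⁻ η : V, ∫⁻ ζ : V, ENNReal.ofReal (gam t ζ) * (g (η + ζ) * S η) := by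
        rw [lintegral_lintegral_swap]
        refine Measurable.aemeasurable ?_
        exact (hgam.comp measurable_fst).mul ((hg.comp (measurable_snd.add measurable_fst)).mul
          (hS.comp measurable_snd))
    _ = ∫⁻ η : V, ∫⁻ θ : V, ENNReal.ofReal (gam t (η - θ)) * (g θ * S η) := by
        refine lintegral_congr fun η => ?_
        rw [← lintegral_add_left_eq_self (μ := (volume : Measure V))
          (fun θ => ENNReal.ofReal (gam t (η - θ)) * (g θ * S η)) η]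
        refine lintegral_congr fun ζ => ?_
        rw [sub_add_cancel_left, gam_neg]
    _ = ∫⁻ θ : V, ∫⁻ η : V, ENNReal.ofReal (gam t (η - θ)) * (g θ * S η) := by
        rw [lintegral_lintegral_swap]
        refine Measurable.aemeasurable ?_
        exact (hgam.comp (measurable_fst.sub measurable_snd)).mul
          ((hg.comp measurable_snd).mul (hS.comp measurable_fst))
    _ = _ := by
        refine lintegral_congr fun θ => ?_
        rw [← lintegral_const_mul]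
        · refine lintegral_congr fun η => ?_
          ring
        · exact (hgam.comp (measurable_id.sub_const θ)).mul hS

lemma lintegral_wt_tail {a A : ℝ} (ha : 0 < a) (hA : 0 < A) :
    ∫⁻ t in Ioi (A ^ 2), wt a t ≤ ENNReal.ofReal (2 / a * (A ^ 2) ^ (-(a / 2))) := by
  have hA2 : 0 < A ^ 2 := by positivity
  have hi : IntegrableOn (fun t : ℝ => t ^ (-(a / 2) - 1)) (Ioi (A ^ 2)) :=
    integrableOn_Ioi_rpow_of_lt (by linarith) hA2
  have h := integral_Ioi_rpow_of_lt (a := -(a / 2) - 1) (by linarith) hA2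
  unfold wt
  rw [← ofReal_integral_eq_lintegral_ofReal hi, h]
  · refine ENNReal.ofReal_le_ofReal (le_of_eq ?_)
    have : -(a / 2) - 1 + 1 = -(a / 2) := by ring
    rw [this]
    field_simp
  · refine (ae_restrict_iff' measurableSet_Ioi).2 (Eventually.of_forall fun t ht => ?_)
    exact Real.rpow_nonneg (hA2.le.trans (le_of_lt ht)) _

/-- large times -/
lemma part1 {a : ℝ} (ha : 0 < a) (F : 𝓢(V, ℂ)) (κ : V → ℂ) (hκ1 : ∀ ζ, ‖κ ζ‖ ≤ 1) {δ : ℝ}
    (hδ : 0 < δ) : ∃ A : ℝ, 1 ≤ A ∧ ∀ S : V → ℝ≥0∞, Measurable S →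
      ∫⁻ t in Ioi (A ^ 2), wt a t * ∫⁻ ζ : V, ENNReal.ofReal (gam t ζ) *
        ∫⁻ η : V, ENNReal.ofReal (‖F (η + ζ) - κ ζ * F η‖ ^ 2) * S η ≤
      ENNReal.ofReal ((1 + δ) * ((∫ x : V, ‖F x‖ ^ 2) + δ)) *
          (∫⁻ t in Ioi (A ^ 2), wt a t * Phi S t) +
        ENNReal.ofReal ((1 + 1 / δ) * (2 / a * (A ^ 2) ^ (-(a / 2)))) *
          ∫⁻ η : V, ENNReal.ofReal (‖F η‖ ^ 2) * S η := by
  set n : ℝ := (Module.finrank ℝ V : ℝ) with hn
  set m : ℝ := n / 2 + a / 2 + 1 with hm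
  have hm0 : 0 ≤ m := by positivity
  set gr : V → ℝ := fun θ => ‖F θ‖ ^ 2 with hgr
  have hgrc : Continuous gr := F.continuous.norm.pow 2
  have hdec : ∀ k : ℕ, Integrable fun θ : V => ‖θ‖ ^ k * gr θ := fun k => integrable_pow_sq F k
  obtain ⟨A, hA1, hA⟩ := exists_A m hm0 gr hgrc hdec (fun θ => by positivity) hδ
  refine ⟨A, hA1, fun S hS => ?_⟩
  have hA0 : 0 < A := by linarith
  set g : V → ℝ≥0∞ := fun θ => ENNReal.ofReal (gr θ) with hg
  have hgm : Measurable g := hgrc.measurable.ennreal_ofReal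
  set B : ℝ≥0∞ := ∫⁻ η : V, g η * S η with hB
  -- pointwise in time
  have h1 : ∀ t : ℝ, 0 < t → ∫⁻ ζ : V, ENNReal.ofReal (gam t ζ) *
        ∫⁻ η : V, ENNReal.ofReal (‖F (η + ζ) - κ ζ * F η‖ ^ 2) * S η ≤
      ENNReal.ofReal (1 + δ) * (∫⁻ θ : V, g θ * ∫⁻ η : V, ENNReal.ofReal (gam t (η - θ)) * S η) +
        ENNReal.ofReal (1 + 1 / δ) * B := by
    intro t ht
    have hgam : Measurable fun ζ : V => ENNReal.ofReal (gam t ζ) :=
      (measurable_gam t).ennreal_ofReal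
    have e1 : ∀ ζ : V, ∫⁻ η : V, ENNReal.ofReal (‖F (η + ζ) - κ ζ * F η‖ ^ 2) * S η ≤
        ENNReal.ofReal (1 + δ) * (∫⁻ η : V, g (η + ζ) * S η) + ENNReal.ofReal (1 + 1 / δ) * B := by
      intro ζ
      rw [hB, ← lintegral_const_mul' _ _ ENNReal.ofReal_ne_top,
        ← lintegral_const_mul' _ _ ENNReal.ofReal_ne_top, ← lintegral_add_left]
      · refine lintegral_mono fun η => ?_
        rw [← mul_assoc, ← mul_assoc, ← add_mul]
        refine mul_le_mul_left ?_ _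
        simp only [hg]
        rw [← ENNReal.ofReal_mul (by positivity), ← ENNReal.ofReal_mul (by positivity),
          ← ENNReal.ofReal_add (by positivity) (by positivity)]
        exact ENNReal.ofReal_le_ofReal (young_sq hδ (hκ1 ζ))
      · exact ((hgm.comp (measurable_id.add_const ζ)).mul hS).const_mul _
    have hmeas : Measurable fun ζ : V => ∫⁻ η : V, g (η + ζ) * S η := by
      have : Measurable (fun q : V × V => g (q.2 + q.1) * S q.2) :=
        (hgm.comp (measurable_snd.add measurable_fst)).mul (hS.comp measurable_snd)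
      exact this.lintegral_prod_right'
    calc ∫⁻ ζ : V, ENNReal.ofReal (gam t ζ) *
          ∫⁻ η : V, ENNReal.ofReal (‖F (η + ζ) - κ ζ * F η‖ ^ 2) * S η
        ≤ ∫⁻ ζ : V, (ENNReal.ofReal (1 + δ) * (ENNReal.ofReal (gam t ζ) *
            (∫⁻ η : V, g (η + ζ) * S η)) +
            ENNReal.ofReal (gam t ζ) * (ENNReal.ofReal (1 + 1 / δ) * B)) := by
          refine lintegral_mono fun ζ => ?_
          refine (mul_le_mul_right (e1 ζ) _).trans (le_of_eq ?_)
          ring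
      _ = _ := by
          rw [lintegral_add_left, lintegral_const_mul' _ _ ENNReal.ofReal_ne_top,
            lintegral_mul_const _ hgam, lintegral_gam ht, one_mul, unfold_time g hgm hS]
          exact (hgam.mul hmeas).const_mul _
  -- integrate in time
  have hpos : ∀ t ∈ Ioi (A ^ 2), (0:ℝ) < t := fun t ht => lt_trans (by positivity) (mem_Ioi.1 ht)
  have hmain : ∫⁻ t in Ioi (A ^ 2), wt a t *
      (∫⁻ θ : V, g θ * ∫⁻ η : V, ENNReal.ofReal (gam t (η - θ)) * S η) ≤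
      ENNReal.ofReal ((∫ x : V, gr x) + δ) * ∫⁻ t in Ioi (A ^ 2), wt a t * Phi S t := by
    set I := ∫⁻ t in Ioi (A ^ 2), wt a t * Phi S t with hI
    have hgc := measurable_gamconv hS
    calc ∫⁻ t in Ioi (A ^ 2), wt a t *
          (∫⁻ θ : V, g θ * ∫⁻ η : V, ENNReal.ofReal (gam t (η - θ)) * S η)
        = ∫⁻ t in Ioi (A ^ 2), ∫⁻ θ : V, g θ *
            (wt a t * ∫⁻ η : V, ENNReal.ofReal (gam t (η - θ)) * S η) := by
          refine lintegral_congr fun t => ?_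
          rw [← lintegral_const_mul]
          · refine lintegral_congr fun θ => ?_
            ring
          · exact hgm.mul (hgc.comp (measurable_const.prodMk measurable_id))
      _ = ∫⁻ θ : V, ∫⁻ t in Ioi (A ^ 2), g θ *
            (wt a t * ∫⁻ η : V, ENNReal.ofReal (gam t (η - θ)) * S η) := by
          rw [lintegral_lintegral_swap]
          refine Measurable.aemeasurable ?_
          exact (hgm.comp measurable_snd).mul (((measurable_wt a).comp measurable_fst).mul hgc)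
      _ ≤ ∫⁻ θ : V, ENNReal.ofReal (gr θ * G0 m (‖θ‖ / A)) * I := by
          refine lintegral_mono fun θ => ?_
          have hG0 : 0 ≤ G0 m (‖θ‖ / A) := G0_nonneg (by positivity)
          have hm1 : Measurable fun t : ℝ => wt a t *
              ∫⁻ η : V, ENNReal.ofReal (gam t (η - θ)) * S η :=
            (measurable_wt a).mul (hgc.comp (measurable_id.prodMk measurable_const))
          rw [lintegral_const_mul _ hm1]
          rw [ENNReal.ofReal_mul (by positivity), mul_assoc]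
          refine mul_le_mul_right ?_ _
          refine le_trans ?_ (flat_change ha hA0 θ hS)
          refine setLIntegral_mono' measurableSet_Ioi fun t ht => ?_
          have ht0 := hpos t ht
          refine mul_le_mul_right ?_ _
          unfold Phi
          rw [← lintegral_const_mul' _ _ ENNReal.ofReal_ne_top]
          refine lintegral_mono fun η => ?_
          rw [← mul_assoc]
          refine mul_le_mul_left ?_ _
          rw [← ENNReal.ofReal_mul (G0_nonneg (by positivity))]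
          exact ENNReal.ofReal_le_ofReal (gam_shift ht0 θ η)
      _ = (∫⁻ θ : V, ENNReal.ofReal (gr θ * G0 m (‖θ‖ / A))) * I := by
          rw [lintegral_mul_const]
          refine Measurable.ennreal_ofReal ?_
          refine hgrc.measurable.mul ?_
          unfold G0
          refine Measurable.mul ?_ ?_
          · exact ((measurable_const.add (measurable_norm.div_const A)).add
              ((measurable_norm.div_const A).pow_const 2)).pow_const m
          · exact Real.measurable_exp.comp (((measurable_norm.div_const A).div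
              (measurable_const.add (measurable_norm.div_const A))).const_mul _)
      _ ≤ _ := mul_le_mul_left hA _
  have hBt := lintegral_wt_tail ha hA0
  calc ∫⁻ t in Ioi (A ^ 2), wt a t * ∫⁻ ζ : V, ENNReal.ofReal (gam t ζ) *
        ∫⁻ η : V, ENNReal.ofReal (‖F (η + ζ) - κ ζ * F η‖ ^ 2) * S η
      ≤ ∫⁻ t in Ioi (A ^ 2), (ENNReal.ofReal (1 + δ) * (wt a t *
          (∫⁻ θ : V, g θ * ∫⁻ η : V, ENNReal.ofReal (gam t (η - θ)) * S η)) +
          wt a t * (ENNReal.ofReal (1 + 1 / δ) * B)) := by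
        refine setLIntegral_mono' measurableSet_Ioi fun t ht => ?_
        refine (mul_le_mul_right (h1 t (hpos t ht)) _).trans (le_of_eq ?_)
        ring
    _ = ENNReal.ofReal (1 + δ) * (∫⁻ t in Ioi (A ^ 2), wt a t *
          (∫⁻ θ : V, g θ * ∫⁻ η : V, ENNReal.ofReal (gam t (η - θ)) * S η)) +
          (∫⁻ t in Ioi (A ^ 2), wt a t) * (ENNReal.ofReal (1 + 1 / δ) * B) := by
        rw [lintegral_add_right, lintegral_const_mul' _ _ ENNReal.ofReal_ne_top,
          lintegral_mul_const _ (measurable_wt a)]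
        exact (measurable_wt a).mul_const _
    _ ≤ ENNReal.ofReal (1 + δ) * (ENNReal.ofReal ((∫ x : V, gr x) + δ) *
          ∫⁻ t in Ioi (A ^ 2), wt a t * Phi S t) +
          ENNReal.ofReal (2 / a * (A ^ 2) ^ (-(a / 2))) * (ENNReal.ofReal (1 + 1 / δ) * B) := by
        gcongr
    _ = _ := by
        rw [ENNReal.ofReal_mul (show (0:ℝ) ≤ 1 + δ by positivity), mul_assoc,
          ENNReal.ofReal_mul (show (0:ℝ) ≤ 1 + 1 / δ by positivity)]
        ring

/-- the flat core -/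
theorem flat1 {a : ℝ} (ha : 0 < a) (ha2 : a < 2) (ψ : 𝓢(V, ℂ)) (κ : V → ℂ) (_hκ : Measurable κ)
    (hκ1 : ∀ ζ, ‖κ ζ‖ ≤ 1) (Cκ : ℝ) (hκ2 : ∀ ζ, ‖1 - κ ζ‖ ≤ Cκ * ‖ζ‖) (δ : ℝ) (hδ : 0 < δ) :
    ∃ A C q : ℝ, 1 ≤ A ∧ 0 ≤ C ∧ 0 < q ∧ ∀ T : ℝ, A ^ 2 ≤ T → ∀ S : V → ℝ≥0∞, Measurable S →
      (∫⁻ t in Ioi (0:ℝ), wt a t * ∫⁻ ζ : V, ENNReal.ofReal (gam t ζ) *
        ∫⁻ η : V, ENNReal.ofReal (‖𝓕 ψ (η + ζ) - κ ζ * 𝓕 ψ η‖ ^ 2) * S η ≤
      ENNReal.ofReal ((1 + δ) * ((∫ x, ‖ψ x‖ ^ 2) + δ)) *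
        (∫⁻ t in Ioi (A ^ 2), wt a t * Phi S t) +
        ENNReal.ofReal C * ((∫⁻ t in Ioc (A ^ 2) T, wt a t * Phi S t) +
          ENNReal.ofReal (T ^ (-q)) * (∫⁻ t in Ioi T, wt a t * Phi S t))) ∧
      (∫⁻ η : V, ENNReal.ofReal (‖𝓕 ψ η‖ ^ 2) * S η ≤
        ENNReal.ofReal C * ((∫⁻ t in Ioc (A ^ 2) T, wt a t * Phi S t) +
          ENNReal.ofReal (T ^ (-q)) * (∫⁻ t in Ioi T, wt a t * Phi S t))) := by
  set n : ℝ := (Module.finrank ℝ V : ℝ) with hn
  obtain ⟨A, hA1, hA⟩ := part1 ha (𝓕 ψ) κ hκ1 hδ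
  obtain ⟨p, hp⟩ := exists_nat_gt ((n + a) / 2)
  obtain ⟨C2, hC20, hC2⟩ := part2 ha2 (𝓕 ψ) κ Cκ hκ2 p hA1
  obtain ⟨C3, hC30, hC3⟩ := res_bound (V := V) p (a := a) hA1 hp
  obtain ⟨C4, hC40, hC4⟩ := schwartz_le (𝓕 ψ) p
  set D : ℝ := (1 + 1 / δ) * (2 / a * (A ^ 2) ^ (-(a / 2))) with hD
  have hD0 : 0 ≤ D := by positivity
  refine ⟨A, (C2 + (D + 1) * C4 ^ 2) * C3, p - (n + a) / 2, hA1, by positivity, by linarith,
    fun T hT S hS => ?_⟩
  set W := ∫⁻ η : V, Wp p η * S η with hW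
  set Res := (∫⁻ t in Ioc (A ^ 2) T, wt a t * Phi S t) +
          ENNReal.ofReal (T ^ (-((p:ℝ) - (n + a) / 2))) *
            (∫⁻ t in Ioi T, wt a t * Phi S t) with hRes
  have hWR : W ≤ ENNReal.ofReal C3 * Res := hC3 T hT S hS
  have hB : ∫⁻ η : V, ENNReal.ofReal (‖𝓕 ψ η‖ ^ 2) * S η ≤ ENNReal.ofReal (C4 ^ 2) * W := by
    rw [hW, ← lintegral_const_mul' _ _ ENNReal.ofReal_ne_top]
    refine lintegral_mono fun η => ?_
    rw [← mul_assoc]
    refine mul_le_mul_left ?_ _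
    unfold Wp
    rw [← ENNReal.ofReal_mul (by positivity)]
    refine ENNReal.ofReal_le_ofReal ?_
    calc ‖𝓕 ψ η‖ ^ 2 ≤ (C4 * ((1 + ‖η‖) ^ p)⁻¹) ^ 2 :=
          pow_le_pow_left₀ (norm_nonneg _) (hC4 η) 2
      _ = C4 ^ 2 * ((1 + ‖η‖) ^ (2 * p))⁻¹ := by
          rw [pow_mul' (1 + ‖η‖)]; field_simp
  constructor
  · have hsplit : Ioi (0:ℝ) = Ioc 0 (A ^ 2) ∪ Ioi (A ^ 2) :=
      (Ioc_union_Ioi_eq_Ioi (by positivity)).symm
    rw [hsplit, lintegral_union measurableSet_Ioi (Ioc_disjoint_Ioi le_rfl)]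
    have h2 := hC2 S hS
    have h1 := hA S hS
    have hPl : ∫ x : V, ‖𝓕 ψ x‖ ^ 2 = ∫ x : V, ‖ψ x‖ ^ 2 := ψ.integral_norm_sq_fourier
    rw [hPl] at h1
    set X := ∫⁻ t in Ioi (A ^ 2), wt a t * Phi S t with hX
    have h3 : ENNReal.ofReal C2 * W + ENNReal.ofReal D *
        (∫⁻ η : V, ENNReal.ofReal (‖𝓕 ψ η‖ ^ 2) * S η) ≤
        ENNReal.ofReal ((C2 + (D + 1) * C4 ^ 2) * C3) * Res := by
      calc ENNReal.ofReal C2 * W + ENNReal.ofReal D *
            (∫⁻ η : V, ENNReal.ofReal (‖𝓕 ψ η‖ ^ 2) * S η)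
          ≤ ENNReal.ofReal C2 * W + ENNReal.ofReal D * (ENNReal.ofReal (C4 ^ 2) * W) := by
            gcongr
        _ = ENNReal.ofReal (C2 + D * C4 ^ 2) * W := by
            rw [ENNReal.ofReal_add hC20 (by positivity), ENNReal.ofReal_mul hD0]
            ring
        _ ≤ ENNReal.ofReal (C2 + (D + 1) * C4 ^ 2) * (ENNReal.ofReal C3 * Res) := by
            refine mul_le_mul' (ENNReal.ofReal_le_ofReal ?_) hWR
            nlinarith [sq_nonneg C4]
        _ = _ := by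
            rw [ENNReal.ofReal_mul (p := C2 + (D + 1) * C4 ^ 2) (by positivity)]
            ring
    calc (∫⁻ t in Ioc 0 (A ^ 2), wt a t * ∫⁻ ζ : V, ENNReal.ofReal (gam t ζ) *
          ∫⁻ η : V, ENNReal.ofReal (‖𝓕 ψ (η + ζ) - κ ζ * 𝓕 ψ η‖ ^ 2) * S η) +
          (∫⁻ t in Ioi (A ^ 2), wt a t * ∫⁻ ζ : V, ENNReal.ofReal (gam t ζ) *
          ∫⁻ η : V, ENNReal.ofReal (‖𝓕 ψ (η + ζ) - κ ζ * 𝓕 ψ η‖ ^ 2) * S η)
        ≤ ENNReal.ofReal C2 * W + (ENNReal.ofReal ((1 + δ) * ((∫ x, ‖ψ x‖ ^ 2) + δ)) * X +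
            ENNReal.ofReal D * (∫⁻ η : V, ENNReal.ofReal (‖𝓕 ψ η‖ ^ 2) * S η)) :=
          add_le_add h2 h1
      _ = ENNReal.ofReal ((1 + δ) * ((∫ x, ‖ψ x‖ ^ 2) + δ)) * X + (ENNReal.ofReal C2 * W +
            ENNReal.ofReal D * (∫⁻ η : V, ENNReal.ofReal (‖𝓕 ψ η‖ ^ 2) * S η)) := by ring
      _ ≤ _ := by gcongr
  · calc ∫⁻ η : V, ENNReal.ofReal (‖𝓕 ψ η‖ ^ 2) * S η ≤ ENNReal.ofReal (C4 ^ 2) * W := hB
      _ ≤ ENNReal.ofReal (C2 + (D + 1) * C4 ^ 2) * (ENNReal.ofReal C3 * Res) := by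
          refine mul_le_mul' (ENNReal.ofReal_le_ofReal ?_) hWR
          nlinarith [mul_nonneg hD0 (sq_nonneg C4)]
      _ = _ := by
          rw [ENNReal.ofReal_mul (p := C2 + (D + 1) * C4 ^ 2) (by positivity)]
          ring

end Helper23.Riesz
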