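import Pool.Agent.Helper95.Riesz.Choose3
import Pool.Agent.Helper95.Riesz.Flat4

/-!
# CHOOSE, part 4: the cell seen through one window
-/

set_option autoImplicit false
set_option linter.unusedSectionVars false
open MeasureTheory Set Filter Topology
open scoped ENNReal NNReal FourierTransform SchwartzMap

namespace Helper23.Riesz

namespace Choose

variable {s : ℝ} {d n : ℕ} {O : Type*} [MeasurableSpace O]

section ident

variable {M Λ δ₂ : ℝ} {h ψr : R d → ℝ} {ψ : 𝓢(R d, ℂ)} {z : R d}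
  (hM : 0 ≤ M) (hδ1 : δ₂ ≤ 1) (hh : Measurable h)
  (hhb : ∀ x ∈ Bx d Λ, 1 - δ₂ ≤ h x ∧ h x ≤ 1)
  (hψ : ∀ x, ψ x = (ψr x : ℂ)) (hψr : ∀ x, 0 ≤ ψr x ∧ ψr x ≤ 1)
  (hψ0 : ∀ x, x ∉ cubo (0 : R d) 1 → ψr x = 0)
  (hz : ∀ u ∈ cubo (0 : R d) 1, u + z ∈ Bx d Λ)

include hψ0 hz in
lemma psi_out {x : R d} (hx : x ∉ Bx d Λ) : ψr (x - z) = 0 := by
  refine hψ0 _ fun hc => hx ?_
  have := hz _ hc
  rwa [sub_add_cancel] at this

include hψ hψ0 hz in
lemma sum_eq (y : Fin n → R d) (g : R d → ℂ) :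
    ∑ i, ((ψr (y i - z) : ℝ) : ℂ) * g (y i - z) = ∫ x, ψ (x - z) * g (x - z) ∂(cfg Λ y) := by
  rw [integral_cfgC]
  refine Finset.sum_congr rfl fun i _ => ?_
  by_cases hi : y i ∈ Bx d Λ
  · rw [indicator_of_mem hi, hψ]
  · rw [indicator_of_notMem hi, psi_out hψ0 hz hi]
    simp

include hM hδ1 hh hhb hψ hψ0 hz in
lemma int_eq (g : R d → ℂ) :
    ∫ x, ((M ^ d * h (x + z) * ψr x : ℝ) : ℂ) * g x =
      ∫ x, ψ (x - z) * g (x - z) ∂(rhoB M Λ h) := by
  unfold rhoB
  have hmd : Measurable fun x : R d => ENNReal.ofReal (M ^ d * h x) :=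
    (hh.const_mul (M ^ d)).ennreal_ofReal
  rw [integral_withDensity_eq_integral_toReal_smul hmd
    (Eventually.of_forall fun x => ENNReal.ofReal_lt_top)]
  have h1 : ∫ x in Bx d Λ, (ENNReal.ofReal (M ^ d * h x)).toReal • (ψ (x - z) * g (x - z)) =
      ∫ x in Bx d Λ, ((M ^ d * h x * ψr (x - z) : ℝ) : ℂ) * g (x - z) := by
    refine setIntegral_congr_fun (Pull.measurableSet_Bx Λ) fun x hx => ?_
    have h2 : 0 ≤ M ^ d * h x := by
      have := (hhb x hx).1
      have h3 : 0 ≤ h x := by linarith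
      positivity
    rw [ENNReal.toReal_ofReal h2, hψ]
    push_cast
    rw [Complex.real_smul]
    push_cast
    ring
  rw [h1, setIntegral_eq_integral_of_forall_compl_eq_zero]
  · rw [← integral_add_right_eq_self (fun x => ((M ^ d * h x * ψr (x - z) : ℝ) : ℂ) * g (x - z)) z]
    simp only [add_sub_cancel_right]
  · intro x hx
    rw [psi_out hψ0 hz hx]
    simp

lemma chi_wcf (y : Fin n → R d) (ζ : R d) (hψr : ∀ x, 0 ≤ ψr x ∧ ψr x ≤ 1) :
    chi (wcf ψr y) ζ = ∑ i, ((ψr (y i) : ℝ) : ℂ) * ech (y i) ζ := by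
  unfold chi wcf
  rw [integral_finsetSum_measure]
  · refine Finset.sum_congr rfl fun i _ => ?_
    rw [integral_smul_measure, integral_dirac, ENNReal.toReal_ofReal (hψr _).1,
      Complex.real_smul]
    rfl
  · intro i _
    refine Integrable.smul_measure ?_ ENNReal.ofReal_ne_top
    exact integrable_dirac enorm_lt_top

include hM hδ1 hh hhb hψr hψ0 hz in
lemma chi_rps (hψc : Measurable ψr) (ζ : R d) :
    chi (rps M (fun x => h (x + z)) ψr) ζ =
      ∫ x, ((M ^ d * h (x + z) * ψr x : ℝ) : ℂ) * ech x ζ := by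
  unfold chi rps
  rw [integral_withDensity_eq_integral_toReal_smul]
  · refine integral_congr_ae (Eventually.of_forall fun x => ?_)
    simp only
    have h2 : 0 ≤ M ^ d * h (x + z) * ψr x := by
      by_cases hx : x ∈ cubo (0 : R d) 1
      · have h3 := (hhb _ (hz x hx)).1
        have h4 : 0 ≤ h (x + z) := by linarith
        have h5 := (hψr x).1
        positivity
      · rw [hψ0 x hx, mul_zero]
    rw [ENNReal.toReal_ofReal h2, Complex.real_smul]
    rfl
  · exact (((hh.comp (measurable_id.add_const z)).const_mul (M ^ d)).mul hψc).ennreal_ofReal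
  · exact Eventually.of_forall fun x => ENNReal.ofReal_lt_top

include hM hδ1 hh hhb hψ hψ0 hz in
lemma qf_eq (y : Fin n → R d) :
    ((qf M (fun x => h (x + z)) ψr (fun i => y i - z) : ℝ) : ℂ) = Qd Λ ψ (rhoB M Λ h) y z := by
  unfold qf Qd
  have h1 := sum_eq hψ hψ0 hz y (fun _ => (1:ℂ))
  have h2 := int_eq hM hδ1 hh hhb hψ hψ0 hz (fun _ => (1:ℂ))
  simp only [mul_one] at h1 h2
  rw [← h1, ← h2, Complex.ofReal_sub, Complex.ofReal_sum, integral_complex_ofReal]

lemma integrable_win (μ : Measure (R d)) [IsFiniteMeasure μ] (ψ : 𝓢(R d, ℂ)) (z : R d) :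
    Integrable (fun x => ψ (x - z)) μ := by
  obtain ⟨C, hC0, hC⟩ := schwartz_le ψ 0
  refine (integrable_const C).mono' ?_ (Eventually.of_forall fun x => ?_)
  · exact (ψ.continuous.comp (continuous_id.sub continuous_const)).aestronglyMeasurable
  · have := hC (x - z)
    simpa using this

lemma integrable_win_ech (μ : Measure (R d)) [IsFiniteMeasure μ] (ψ : 𝓢(R d, ℂ)) (z ζ : R d) :
    Integrable (fun x => ψ (x - z) * ech (x - z) ζ) μ := by
  refine (integrable_win μ ψ z).norm.mono' ?_ (Eventually.of_forall fun x => ?_)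
  · refine Continuous.aestronglyMeasurable ?_
    refine (ψ.continuous.comp (continuous_id.sub continuous_const)).mul ?_
    exact continuous_ech.comp ((continuous_id.sub continuous_const).prodMk continuous_const)
  · rw [norm_mul, norm_ech, mul_one]

lemma int_fz (μ : Measure (R d)) [IsFiniteMeasure μ] (ψ : 𝓢(R d, ℂ)) (z ζ : R d) :
    ∫ x, fz ψ ζ (x - z) ∂μ = ∫ x, ψ (x - z) * ech (x - z) ζ ∂μ -
      kap d ζ * ∫ x, ψ (x - z) ∂μ := by
  simp_rw [fz_apply, mul_sub]
  rw [integral_sub (integrable_win_ech μ ψ z ζ) ((integrable_win μ ψ z).mul_const _),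
    integral_mul_const, mul_comm (kap d ζ)]

lemma finite_rhoB (hM : 0 ≤ M) (hhb : ∀ x ∈ Bx d Λ, 1 - δ₂ ≤ h x ∧ h x ≤ 1) (hΛ : 0 < Λ) :
    IsFiniteMeasure (rhoB M Λ h) := by
  constructor
  unfold rhoB
  rw [withDensity_apply _ MeasurableSet.univ, Measure.restrict_univ]
  calc ∫⁻ x in Bx d Λ, ENNReal.ofReal (M ^ d * h x)
      ≤ ∫⁻ _ in Bx d Λ, ENNReal.ofReal (M ^ d) := by
        refine setLIntegral_mono' (Pull.measurableSet_Bx Λ) fun x hx => ?_
        refine ENNReal.ofReal_le_ofReal ?_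
        have := (hhb x hx).2
        have h4 : 0 ≤ M ^ d := pow_nonneg hM _
        nlinarith
    _ < ∞ := by
        rw [setLIntegral_const, Pull.volume_Bx hΛ]
        exact ENNReal.mul_lt_top ENNReal.ofReal_lt_top ENNReal.ofReal_lt_top

include hM hδ1 hh hhb hψ hψr hψ0 hz in
lemma tauHat_eq [IsFiniteMeasure (rhoB M Λ h)] (y : Fin n → R d) (ζ : R d) :
    tauHat M (fun x => h (x + z)) ψr (fun i => y i - z) ζ = Gd Λ ψ (rhoB M Λ h) y ζ z := by
  have hψc : Measurable ψr := by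
    have h1 : ψr = fun x => (ψ x).re := by
      funext x; rw [hψ, Complex.ofReal_re]
    rw [h1]
    exact Complex.measurable_re.comp ψ.continuous.measurable
  unfold tauHat Gd
  rw [qf_eq hM hδ1 hh hhb hψ hψ0 hz y, chi_wcf _ ζ hψr,
    chi_rps hM hδ1 hh hhb hψr hψ0 hz hψc ζ, int_fz, int_fz,
    sum_eq hψ hψ0 hz y (fun u => ech u ζ), int_eq hM hδ1 hh hhb hψ hψ0 hz (fun u => ech u ζ)]
  unfold Qd kap
  ring

include hh hz in
lemma mean_eq {P : Measure O} {Y : O → Fin n → R d}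
    (hmean : ∀ B : Set (R d), MeasurableSet B → ∫⁻ o, cfg Λ (Y o) B ∂P = rhoB M Λ h B)
    {B : Set (R d)} (hB : B ⊆ cubo (0 : R d) 1) (hBm : MeasurableSet B) :
    ∫⁻ o, (∑ i, Measure.dirac (Y o i - z)) B ∂P =
      ∫⁻ x in B, ENNReal.ofReal (M ^ d * h (x + z)) := by
  set B' : Set (R d) := (fun x => x - z) ⁻¹' B with hB'
  have hB'm : MeasurableSet B' := (measurable_id.sub_const z) hBm
  have hB'B : B' ⊆ Bx d Λ := by
    intro x hx
    have := hz _ (hB hx)
    rwa [sub_add_cancel] at this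
  have h1 : ∀ o, (∑ i, Measure.dirac (Y o i - z)) B = cfg Λ (Y o) B' := by
    intro o
    rw [Pull.cfg_apply Λ _ hB'm, inter_eq_left.2 hB'B, Measure.finsetSum_apply]
    refine Finset.sum_congr rfl fun i _ => ?_
    rw [Measure.dirac_apply' _ hBm]
    rfl
  simp_rw [h1]
  rw [hmean B' hB'm]
  unfold rhoB
  rw [withDensity_apply _ hB'm, Measure.restrict_restrict hB'm, inter_eq_left.2 hB'B,
    ← lintegral_indicator hB'm, ← lintegral_indicator hBm,
    ← lintegral_add_right_eq_self (B'.indicator fun x => ENNReal.ofReal (M ^ d * h x)) z]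
  refine lintegral_congr fun x => ?_
  by_cases hx : x ∈ B
  · rw [indicator_of_mem hx, indicator_of_mem]
    rw [hB', mem_preimage, add_sub_cancel_right]; exact hx
  · rw [indicator_of_notMem hx, indicator_of_notMem]
    rw [hB', mem_preimage, add_sub_cancel_right]; exact hx

end ident

/-- the set of good windows -/
lemma exists_good {Λ : ℝ} (hΛ : 1 ≤ Λ) : ∃ Z : Set (R d), MeasurableSet Z ∧
    volume Z = ENNReal.ofReal ((2 * Λ - 1) ^ d) ∧
    ∀ z ∈ Z, ∀ u ∈ cubo (0 : R d) 1, u + z ∈ Bx d Λ := by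
  set c : R d := WithLp.toLp 2 (fun _ => (1/2 : ℝ)) with hc
  refine ⟨(fun z => z + c) ⁻¹' (Bx d (Λ - 1/2)), ?_, ?_, ?_⟩
  · exact (measurable_id.add_const c) (Pull.measurableSet_Bx _)
  · rw [measure_preimage_add_right, Pull.volume_Bx (by linarith)]
    congr 2
    ring
  · intro z hz u hu k
    have h1 := hz k
    have h2 := hu k
    simp only [PiLp.add_apply, PiLp.zero_apply] at h1 h2 ⊢
    have h3 : c k = 1/2 := rfl
    rw [h3, abs_le] at h1
    rw [abs_le]
    constructor <;> linarith [h1.1, h1.2, h2.1, h2.2]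

end Choose

end Helper23.Riesz
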