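import Pool.Agent.Helper95.Riesz.Choose4
import Pool.Agent.Helper16.Riesz.Psi
import Pool.Agent.Helper74.Riesz.Gauss1

/-!
# CHOOSE, part 5: choice of the window
-/

set_option autoImplicit false
set_option linter.unusedSectionVars false
open MeasureTheory Set Filter Topology
open scoped ENNReal NNReal FourierTransform SchwartzMap

namespace Helper23.Riesz

namespace Choose

variable {s : ℝ} {d n : ℕ} {O : Type*} [MeasurableSpace O]

lemma norm_psi_le {ψr : R d → ℝ} {ψ : 𝓢(R d, ℂ)} (hψ : ∀ x, ψ x = (ψr x : ℂ))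
    (hψr : ∀ x, 0 ≤ ψr x ∧ ψr x ≤ 1) (hψ0 : ∀ x, x ∉ cubo (0 : R d) 1 → ψr x = 0) :
    ∫ x, ‖ψ x‖ ^ 2 ≤ 1 := by
  have h1 : ∫ x : R d, (cubo (0 : R d) 1).indicator (fun _ => (1:ℝ)) x = 1 := by
    rw [integral_indicator_const _ FinishAux.mCu, FinishAux.vCu]
    simp
  rw [← h1]
  refine integral_mono_of_nonneg (Eventually.of_forall fun x => by positivity) ?_
    (Eventually.of_forall fun x => ?_)
  · rw [integrable_indicator_iff FinishAux.mCu]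
    exact integrableOn_const (by rw [FinishAux.vCu']; simp)
  · simp only
    rw [hψ, Complex.norm_real, Real.norm_of_nonneg (hψr x).1]
    by_cases hx : x ∈ cubo (0 : R d) 1
    · rw [indicator_of_mem hx]
      exact pow_le_one₀ (hψr x).1 (hψr x).2
    · rw [indicator_of_notMem hx, hψ0 x hx]
      simp

lemma box_ratio (d : ℕ) {δ₁ : ℝ} (h1 : 0 < δ₁) : ∃ Λ₁ : ℝ, 1 ≤ Λ₁ ∧ ∀ Λ : ℝ, Λ₁ ≤ Λ →
    (2 * Λ) ^ d ≤ (1 + δ₁) * (2 * Λ - 1) ^ d := by
  have h2 : Tendsto (fun Λ : ℝ => (1 + δ₁) * (1 - 1 / (2 * Λ)) ^ d) atTop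
      (𝓝 ((1 + δ₁) * (1 - 0) ^ d)) := by
    refine Tendsto.const_mul _ (Tendsto.pow (Tendsto.const_sub _ ?_) _)
    refine tendsto_const_nhds.div_atTop ?_
    exact tendsto_id.const_mul_atTop (by norm_num)
  have h3 : (1:ℝ) < (1 + δ₁) * (1 - 0) ^ d := by simp; linarith
  obtain ⟨Λ₁, hΛ₁⟩ := (h2.eventually (lt_mem_nhds h3)).exists_forall_of_atTop
  refine ⟨max 1 Λ₁, le_max_left _ _, fun Λ hΛ => ?_⟩
  have h4 := hΛ₁ Λ ((le_max_right _ _).trans hΛ)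
  have h5 : 1 ≤ Λ := (le_max_left _ _).trans hΛ
  have h6 : (1 - 1 / (2 * Λ)) ^ d * (2 * Λ) ^ d = (2 * Λ - 1) ^ d := by
    rw [← mul_pow]
    congr 1
    field_simp
  have h7 : 0 < (2 * Λ) ^ d := by positivity
  calc (2 * Λ) ^ d = 1 * (2 * Λ) ^ d := (one_mul _).symm
    _ ≤ ((1 + δ₁) * (1 - 1 / (2 * Λ)) ^ d) * (2 * Λ) ^ d := by gcongr
    _ = _ := by rw [mul_assoc, h6]

/-- arithmetic of the parameters -/
lemma params {Lam δ K1 δ₁ δ₂ τ : ℝ} (hLam : 0 ≤ Lam) (hδ : 0 < δ) (hK : 0 ≤ K1)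
    (h1 : 0 < δ₁) (h11 : δ₁ ≤ 1) (h12 : δ₁ * (14 * (Lam + 1)) ≤ δ) (h2 : 0 < δ₂) (h21 : δ₂ ≤ 1)
    (h22 : (8 + 2 * K1) * δ₂ ≤ δ / 4) (hτ0 : 0 ≤ τ) (hτ : τ * (8 * (K1 + 1) * (Lam + 1)) ≤ δ) :
    (1 + δ₁) * ((1 + δ₁) * (1 + δ₁) * (Lam + δ₂) + K1 * (δ₂ + τ * (Lam + δ₂))) ≤ Lam + δ := by
  have e1 : (1 + δ₁) * ((1 + δ₁) * (1 + δ₁)) ≤ 1 + 7 * δ₁ := by
    nlinarith [mul_nonneg h1.le (sub_nonneg.2 h11),
      mul_nonneg (mul_nonneg h1.le h1.le) (sub_nonneg.2 h11)]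
  have e2 : (1 + δ₁) * ((1 + δ₁) * (1 + δ₁)) * Lam ≤ Lam + δ / 2 := by
    have : (1 + δ₁) * ((1 + δ₁) * (1 + δ₁)) * Lam ≤ (1 + 7 * δ₁) * Lam :=
      mul_le_mul_of_nonneg_right e1 hLam
    nlinarith
  have e3 : (1 + δ₁) * ((1 + δ₁) * (1 + δ₁)) * δ₂ ≤ 8 * δ₂ := by
    refine mul_le_mul_of_nonneg_right ?_ h2.le
    nlinarith
  have e4 : (1 + δ₁) * (K1 * (δ₂ + τ * (Lam + δ₂))) ≤ 2 * (K1 * (δ₂ + τ * (Lam + 1))) := by
    have hx : K1 * (δ₂ + τ * (Lam + δ₂)) ≤ K1 * (δ₂ + τ * (Lam + 1)) := by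
      refine mul_le_mul_of_nonneg_left ?_ hK
      have := mul_le_mul_of_nonneg_left h21 hτ0
      nlinarith
    have hy : 0 ≤ K1 * (δ₂ + τ * (Lam + δ₂)) := by positivity
    calc (1 + δ₁) * (K1 * (δ₂ + τ * (Lam + δ₂))) ≤ 2 * (K1 * (δ₂ + τ * (Lam + δ₂))) :=
          mul_le_mul_of_nonneg_right (by linarith) hy
      _ ≤ _ := by linarith
  have e5 : 2 * (K1 * (τ * (Lam + 1))) ≤ δ / 4 := by
    have : 0 ≤ τ * (Lam + 1) := by positivity
    nlinarith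
  nlinarith

end Choose

open Helper23.Riesz.Choose in
theorem choose_cell {s : ℝ} {d : ℕ} (_hd : 2 ≤ d) (hs : -2 < s) (hs0 : s < 0) {Lam : ℝ}
    (hLam : 0 ≤ Lam) (hF : HasFlat s d Lam) (δ : ℝ) (hδ : 0 < δ) (M₀ : ℝ) :
    HasUCell s d Lam δ M₀ := by
  have ha : 0 < -s := by linarith
  have ha2 : -s < 2 := by linarith
  have hca := ca_pos ha ha2
  obtain ⟨ψ, ψr, hψ, hψr, hψ0, hψv⟩ := exists_psi d δ hδ
  set δ₁ : ℝ := min 1 (δ / (14 * (Lam + 1))) with hδ₁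
  have h1 : 0 < δ₁ := lt_min one_pos (by positivity)
  have h11 : δ₁ ≤ 1 := min_le_left _ _
  have h12 : δ₁ * (14 * (Lam + 1)) ≤ δ := by
    have : δ₁ ≤ δ / (14 * (Lam + 1)) := min_le_right _ _
    rwa [le_div_iff₀ (by positivity)] at this
  obtain ⟨A, C, q, hA1, hC0, hq, hflat⟩ := flat1 (V := R d) ha ha2 ψ (kap d) measurable_kap
    norm_kap_le (2 * Real.pi * d) norm_one_sub_kap δ₁ h1
  set c := ca (-s) with hc
  set B : ℝ := (Lam + δ) / δ with hB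
  have hB0 : 0 < B := by positivity
  set K1 : ℝ := C * (c + B) / c with hK1
  have hK10 : 0 ≤ K1 := by positivity
  have hT : ∀ᶠ T : ℝ in atTop, T ^ (-q) * (8 * (K1 + 1) * (Lam + 1)) ≤ δ := by
    have := (tendsto_rpow_neg_atTop hq).mul_const (8 * (K1 + 1) * (Lam + 1))
    rw [zero_mul] at this
    exact (this.eventually (gt_mem_nhds hδ)).mono fun T h => h.le
  obtain ⟨T, hTA, hTτ⟩ := ((eventually_gt_atTop (A ^ 2)).and hT).exists
  have hA2 : (1:ℝ) ≤ A ^ 2 := one_le_pow₀ hA1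
  have hT0 : 0 < T := by linarith
  set τ := T ^ (-q) with hτ
  have hτ0 : 0 ≤ τ := Real.rpow_nonneg hT0.le _
  set δ₂ : ℝ := min (min 1 δ) (δ / (4 * (8 + 2 * K1))) with hδ₂
  have h2 : 0 < δ₂ := lt_min (lt_min one_pos hδ) (by positivity)
  have h21 : δ₂ ≤ 1 := (min_le_left _ _).trans (min_le_left _ _)
  have h2δ : δ₂ ≤ δ := (min_le_left _ _).trans (min_le_right _ _)
  have h22 : (8 + 2 * K1) * δ₂ ≤ δ / 4 := by
    have : δ₂ ≤ δ / (4 * (8 + 2 * K1)) := min_le_right _ _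
    rw [le_div_iff₀ (by positivity)] at this
    linarith
  obtain ⟨Λ₁, hΛ₁1, hΛ₁⟩ := box_ratio d h1
  obtain ⟨M, Λ, n, O, _, P, Y, h, hM, hΛ, hP, hY, hh, hhb, hmean, hI1, hI2⟩ :=
    hF A T δ₂ (max (max M₀ Λ₁) 1) hA1 hTA h2
  have hMM : M₀ ≤ M := ((le_max_left _ _).trans (le_max_left _ _)).trans hM
  have hM1 : 1 ≤ M := (le_max_right _ _).trans hM
  have hM0 : 0 ≤ M := by linarith
  have hΛ1 : 1 ≤ Λ := (le_max_right _ _).trans hΛ
  have hΛΛ : Λ₁ ≤ Λ := ((le_max_right _ _).trans (le_max_left _ _)).trans hΛ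
  have hfin : IsFiniteMeasure (rhoB M Λ h) := finite_rhoB hM0 hhb (by linarith)
  set ρ := rhoB M Λ h with hρ
  have hSm := measurable_Sp (P := P) (Λ := Λ) hY ρ
  obtain ⟨hf1, hf2⟩ := hflat T hTA.le (Sp P Λ Y ρ) hSm
  set U : ℝ := (2 * Λ) ^ d * M ^ (d + s) with hU
  have hU0 : 0 < U := by positivity
  -- the three integrals
  have hPhi : ∀ t : ℝ, 0 < t → Phi (Sp P Λ Y ρ) t = ENNReal.ofReal
      (∫ o, Qt t (cfg Λ (Y o)) (cfg Λ (Y o)) ∂P - Qt t ρ ρ) := fun t ht =>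
    Phi_eq hY hmean ht
  have hI1' : ∫⁻ t in Ioi (A ^ 2), wt (-s) t * Phi (Sp P Λ Y ρ) t ≤
      ENNReal.ofReal (U * (Lam + δ₂) / c) := by
    refine le_trans (le_of_eq ?_) (hI1.trans (le_of_eq ?_))
    · refine setLIntegral_congr_fun measurableSet_Ioi fun t ht => ?_
      have ht0 : 0 < t := lt_trans (by positivity) (mem_Ioi.1 ht)
      simp only [hPhi t ht0]
    · congr 1
      rw [hU]
      ring
  have hI2' : ∫⁻ t in Ioc (A ^ 2) T, wt (-s) t * Phi (Sp P Λ Y ρ) t ≤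
      ENNReal.ofReal (U * δ₂ / c) := by
    refine le_trans (le_of_eq ?_) (hI2.trans (le_of_eq ?_))
    · refine setLIntegral_congr_fun measurableSet_Ioc fun t ht => ?_
      have ht0 : 0 < t := lt_trans (by positivity) ht.1
      simp only [hPhi t ht0]
    · congr 1
      rw [hU]
      ring
  have hI3' : ∫⁻ t in Ioi T, wt (-s) t * Phi (Sp P Λ Y ρ) t ≤
      ENNReal.ofReal (U * (Lam + δ₂) / c) :=
    (lintegral_mono_set (Ioi_subset_Ioi hTA.le)).trans hI1'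
  have hRes : (∫⁻ t in Ioc (A ^ 2) T, wt (-s) t * Phi (Sp P Λ Y ρ) t) +
      ENNReal.ofReal τ * (∫⁻ t in Ioi T, wt (-s) t * Phi (Sp P Λ Y ρ) t) ≤
      ENNReal.ofReal (U * (δ₂ + τ * (Lam + δ₂)) / c) := by
    calc _ ≤ ENNReal.ofReal (U * δ₂ / c) + ENNReal.ofReal τ *
          ENNReal.ofReal (U * (Lam + δ₂) / c) := by gcongr
      _ = _ := by
          rw [← ENNReal.ofReal_mul hτ0, ← ENNReal.ofReal_add (by positivity) (by positivity)]
          congr 1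
          field_simp
  have hN := norm_psi_le hψ hψr hψ0
  have hE1 : ∫⁻ z, EJ (-s) P Λ Y ψ ρ z ≤ ENNReal.ofReal ((1 + δ₁) * (1 + δ₁) *
      (U * (Lam + δ₂) / c) + C * (U * (δ₂ + τ * (Lam + δ₂)) / c)) := by
    have e1 : ∫⁻ z, EJ (-s) P Λ Y ψ ρ z = _ := avg_energy (a := -s) (P := P) (Λ := Λ) hY ψ ρ
    rw [e1]
    refine hf1.trans ?_
    have hb : (1 + δ₁) * ((∫ x : R d, ‖ψ x‖ ^ 2) + δ₁) ≤ (1 + δ₁) * (1 + δ₁) :=
      mul_le_mul_of_nonneg_left (by linarith) (by linarith)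
    calc _ ≤ ENNReal.ofReal ((1 + δ₁) * (1 + δ₁)) * ENNReal.ofReal (U * (Lam + δ₂) / c) +
          ENNReal.ofReal C * ENNReal.ofReal (U * (δ₂ + τ * (Lam + δ₂)) / c) := by
            refine add_le_add (mul_le_mul' (ENNReal.ofReal_le_ofReal hb) hI1')
              (mul_le_mul_right hRes _)
      _ = _ := by
          rw [← ENNReal.ofReal_mul (by positivity), ← ENNReal.ofReal_mul hC0,
            ← ENNReal.ofReal_add (by positivity) (by positivity)]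
  have hE2 : ∫⁻ z, EQ P Λ Y ψ ρ z ≤ ENNReal.ofReal (C * (U * (δ₂ + τ * (Lam + δ₂)) / c)) := by
    have e1 : ∫⁻ z, EQ P Λ Y ψ ρ z = _ := avg_charge (P := P) (Λ := Λ) hY ψ ρ
    rw [e1]
    refine hf2.trans ?_
    rw [ENNReal.ofReal_mul hC0]
    exact mul_le_mul_right hRes _
  set X : ℝ := (1 + δ₁) * (1 + δ₁) * (Lam + δ₂) + K1 * (δ₂ + τ * (Lam + δ₂)) with hX
  have hX0 : 0 ≤ X := by positivity
  set Ψ : R d → ℝ≥0∞ := fun z => ENNReal.ofReal c * EJ (-s) P Λ Y ψ ρ z +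
    ENNReal.ofReal B * EQ P Λ Y ψ ρ z with hΨ
  have hEJm := measurable_EJ (a := -s) (P := P) (Λ := Λ) hY ψ ρ
  have hEQm := measurable_EQ (P := P) (Λ := Λ) hY ψ ρ
  have hΨm : Measurable Ψ := (hEJm.const_mul _).add (hEQm.const_mul _)
  have hΨi : ∫⁻ z, Ψ z ≤ ENNReal.ofReal (U * X) := by
    simp only [hΨ]
    rw [lintegral_add_left (hEJm.const_mul _), lintegral_const_mul _ hEJm,
      lintegral_const_mul _ hEQm]
    calc _ ≤ ENNReal.ofReal c * ENNReal.ofReal ((1 + δ₁) * (1 + δ₁) *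
          (U * (Lam + δ₂) / c) + C * (U * (δ₂ + τ * (Lam + δ₂)) / c)) +
          ENNReal.ofReal B * ENNReal.ofReal (C * (U * (δ₂ + τ * (Lam + δ₂)) / c)) := by
            gcongr
      _ = _ := by
          rw [← ENNReal.ofReal_mul hca.le, ← ENNReal.ofReal_mul hB0.le,
            ← ENNReal.ofReal_add (by positivity) (by positivity)]
          congr 1
          rw [hX, hK1]
          field_simp
          ring
  obtain ⟨Z, hZm, hZv, hZ⟩ := exists_good (d := d) hΛ1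
  have hr0 : (0:ℝ) < (2 * Λ - 1) ^ d := by
    have : 0 < 2 * Λ - 1 := by linarith
    positivity
  have hZ0 : volume Z ≠ 0 := by
    rw [hZv]
    exact (ENNReal.ofReal_pos.2 hr0).ne'
  have hZt : volume Z ≠ ∞ := by
    rw [hZv]; exact ENNReal.ofReal_ne_top
  obtain ⟨z, hzZ, hz⟩ := exists_le_setLAverage hZ0 hZt hΨm.aemeasurable
  have hzb : Ψ z ≤ ENNReal.ofReal ((Lam + δ) * M ^ (d + s)) := by
    refine hz.trans ?_
    rw [setLAverage_eq, hZv]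
    calc (∫⁻ z in Z, Ψ z) / ENNReal.ofReal ((2 * Λ - 1) ^ d)
        ≤ ENNReal.ofReal (U * X) / ENNReal.ofReal ((2 * Λ - 1) ^ d) :=
          ENNReal.div_le_div_right ((setLIntegral_le_lintegral _ _).trans hΨi) _
      _ = ENNReal.ofReal (U * X / (2 * Λ - 1) ^ d) := by
          rw [ENNReal.ofReal_div_of_pos hr0]
      _ ≤ _ := by
          refine ENNReal.ofReal_le_ofReal ?_
          rw [div_le_iff₀ hr0, hU]
          have e1 := hΛ₁ Λ hΛΛ
          have e2 := params hLam hδ hK10 h1 h11 h12 h2 h21 h22 hτ0 hTτ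
          have e3 : 0 < M ^ (d + s) := by positivity
          calc (2 * Λ) ^ d * M ^ (d + s) * X ≤ ((1 + δ₁) * (2 * Λ - 1) ^ d) * M ^ (d + s) * X := by
                gcongr
            _ = ((1 + δ₁) * X) * (M ^ (d + s) * (2 * Λ - 1) ^ d) := by ring
            _ ≤ (Lam + δ) * (M ^ (d + s) * (2 * Λ - 1) ^ d) := by
                gcongr
            _ = _ := by ring
  have hgood := hZ z hzZ
  have hΨ1 : ENNReal.ofReal c * EJ (-s) P Λ Y ψ ρ z ≤ ENNReal.ofReal ((Lam + δ) * M ^ (d + s)) :=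
    le_trans le_self_add hzb
  have hΨ2 : ENNReal.ofReal B * EQ P Λ Y ψ ρ z ≤ ENNReal.ofReal ((Lam + δ) * M ^ (d + s)) :=
    le_trans le_add_self hzb
  refine ⟨M, n, O, inferInstance, P, fun o i => Y o i - z, fun x => h (x + z), ψr, hMM, hP, ?_,
    ?_, ?_, hψr, hψ0, hψv, ?_, ?_, ?_, ?_⟩
  · exact fun i => (hY i).sub_const z
  · exact hh.comp (measurable_id.add_const z)
  · have e1 : ψr = fun x => (ψ x).re := by
      funext x; rw [hψ, Complex.ofReal_re]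
    rw [e1]
    exact Complex.continuous_re.comp ψ.continuous
  · intro x hx
    have := hhb _ (hgood x hx)
    exact ⟨by linarith [this.1], this.2⟩
  · intro D hD hDm
    exact mean_eq hh hgood hmean hD hDm
  · have e1 : ∀ o, ENNReal.ofReal (qf M (fun x => h (x + z)) ψr (fun i => Y o i - z) ^ 2) =
        ENNReal.ofReal (‖Qd Λ ψ ρ (Y o) z‖ ^ 2) := by
      intro o
      rw [← qf_eq hM0 h21 hh hhb hψ hψ0 hgood (Y o), Complex.norm_real, Real.norm_eq_abs, sq_abs]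
    simp_rw [e1]
    have e2 : EQ P Λ Y ψ ρ z ≤ ENNReal.ofReal (δ * M ^ (d + s)) := by
      have e3 : ENNReal.ofReal ((Lam + δ) * M ^ (d + s)) =
          ENNReal.ofReal B * ENNReal.ofReal (δ * M ^ (d + s)) := by
        rw [← ENNReal.ofReal_mul hB0.le]
        congr 1
        rw [hB]
        field_simp
      rw [e3] at hΨ2
      exact (ENNReal.mul_le_mul_iff_right (ENNReal.ofReal_pos.2 hB0).ne'
        ENNReal.ofReal_ne_top).1 hΨ2
    refine le_trans e2 (ENNReal.ofReal_le_ofReal ?_)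
    refine mul_le_mul_of_nonneg_left ?_ hδ.le
    rw [← Real.rpow_natCast M (2 * d)]
    refine Real.rpow_le_rpow_of_exponent_le hM1 ?_
    push_cast
    have : (0:ℝ) ≤ d := Nat.cast_nonneg d
    linarith
  · refine le_trans (le_of_eq ?_) hΨ1
    congr 1
    unfold EJ
    refine lintegral_congr fun o => ?_
    refine lintegral_congr fun t => ?_
    congr 1
    refine lintegral_congr fun ζ => ?_
    rw [tauHat_eq hM0 h21 hh hhb hψ hψr hψ0 hgood (Y o) ζ]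

end Helper23.Riesz
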