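import Pool.Agent.Helper95.Riesz.Gam

/-!
# The flat core: change of variables in the scale
-/

set_option autoImplicit false
set_option linter.unusedSectionVars false
open MeasureTheory Set Filter Topology
open scoped ENNReal NNReal FourierTransform SchwartzMap

namespace Helper23.Riesz

variable {V : Type*} [NormedAddCommGroup V] [InnerProductSpace ℝ V] [FiniteDimensional ℝ V]
  [MeasurableSpace V] [BorelSpace V]

/-- the weight in the scale variable -/
noncomputable def wt (a : ℝ) (t : ℝ) : ℝ≥0∞ := ENNReal.ofReal (t ^ (-(a / 2) - 1))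

lemma measurable_wt (a : ℝ) : Measurable (wt a) := by
  unfold wt; exact (measurable_id.pow_const _).ennreal_ofReal

lemma flat_change {a : ℝ} (ha : 0 < a) {A : ℝ} (hA : 0 < A) (θ : V) {S : V → ℝ≥0∞}
    (hS : Measurable S) :
    ∫⁻ t in Ioi (A ^ 2), wt a t * (ENNReal.ofReal (G0 ((Module.finrank ℝ V : ℝ) / 2)
        (‖θ‖ / Real.sqrt t)) * Phi S (t + ‖θ‖ * Real.sqrt t + ‖θ‖ ^ 2)) ≤
      ENNReal.ofReal (G0 ((Module.finrank ℝ V : ℝ) / 2 + a / 2 + 1) (‖θ‖ / A)) *
        ∫⁻ t in Ioi (A ^ 2), wt a t * Phi S t := by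
  set c := ‖θ‖ with hc
  have hc0 : 0 ≤ c := norm_nonneg _
  set φ : ℝ → ℝ := fun t => t + c * Real.sqrt t + c ^ 2 with hφ
  set φ' : ℝ → ℝ := fun t => 1 + c * (1 / (2 * Real.sqrt t)) with hφ'
  have hderiv : ∀ t ∈ Ioi (A ^ 2), HasDerivWithinAt φ (φ' t) (Ioi (A ^ 2)) t := by
    intro t ht
    have ht0 : 0 < t := lt_trans (by positivity) (mem_Ioi.1 ht)
    have h1 : HasDerivAt φ (1 + c * (1 / (2 * Real.sqrt t)) + 0) t :=
      ((hasDerivAt_id t).add ((Real.hasDerivAt_sqrt ht0.ne').const_mul c)).add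
        (hasDerivAt_const t (c ^ 2))
    rw [add_zero] at h1
    exact h1.hasDerivWithinAt
  have hmono : ∀ t ∈ Ioi (A ^ 2), ∀ u ∈ Ioi (A ^ 2), t < u → φ t < φ u := by
    intro t ht u hu htu
    simp only [hφ]
    have := Real.sqrt_le_sqrt htu.le
    have := mul_le_mul_of_nonneg_left this hc0
    linarith
  have hinj : InjOn φ (Ioi (A ^ 2)) := by
    intro t ht u hu h
    rcases lt_trichotomy t u with h1 | h1 | h1
    · exact absurd h (hmono t ht u hu h1).ne
    · exact h1
    · exact absurd h (hmono u hu t ht h1).ne'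
  have himg : φ '' (Ioi (A ^ 2)) ⊆ Ioi (A ^ 2) := by
    rintro _ ⟨t, ht, rfl⟩
    have ht' : A ^ 2 < t := ht
    change A ^ 2 < t + c * Real.sqrt t + c ^ 2
    have : 0 ≤ c * Real.sqrt t := mul_nonneg hc0 (Real.sqrt_nonneg _)
    nlinarith [sq_nonneg c]
  have hcv := lintegral_image_eq_lintegral_abs_deriv_mul (s := Ioi (A ^ 2)) (f := φ) (f' := φ')
    measurableSet_Ioi hderiv hinj (fun t => wt a t * Phi S t)
  have hle : ∫⁻ t in φ '' (Ioi (A ^ 2)), wt a t * Phi S t ≤
      ∫⁻ t in Ioi (A ^ 2), wt a t * Phi S t := lintegral_mono_set himg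
  rw [hcv] at hle
  refine le_trans ?_ (mul_le_mul_right hle _)
  rw [← lintegral_const_mul']
  swap
  · exact ENNReal.ofReal_ne_top
  refine setLIntegral_mono_ae' measurableSet_Ioi (Eventually.of_forall fun t ht => ?_)
  have ht0 : 0 < t := lt_trans (by positivity) (mem_Ioi.1 ht)
  have ht' : A ^ 2 < t := ht
  set r := Real.sqrt t with hr
  have hr0 : 0 < r := Real.sqrt_pos.2 ht0
  have hrt : r ^ 2 = t := Real.sq_sqrt ht0.le
  have hrA : A ≤ r := Real.le_sqrt_of_sq_le ht'.le
  set b := c / r with hb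
  have hb0 : 0 ≤ b := by positivity
  have hcb : c = b * r := by rw [hb]; field_simp
  have hφt : φ t = t * (1 + b + b ^ 2) := by
    simp only [hφ]
    rw [← hr, hcb, ← hrt]; ring
  have hB : 0 < 1 + b + b ^ 2 := by positivity
  have h1 : wt a t * ENNReal.ofReal (G0 ((Module.finrank ℝ V : ℝ) / 2) b)
      = ENNReal.ofReal (G0 ((Module.finrank ℝ V : ℝ) / 2 + a / 2 + 1) b) * wt a (φ t) := by
    unfold wt
    rw [← ENNReal.ofReal_mul (Real.rpow_nonneg ht0.le _), ← ENNReal.ofReal_mul (G0_nonneg hb0)]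
    congr 1
    rw [hφt, Real.mul_rpow ht0.le hB.le]
    unfold G0
    have e : (1 + b + b ^ 2) ^ ((Module.finrank ℝ V : ℝ) / 2)
        = (1 + b + b ^ 2) ^ ((Module.finrank ℝ V : ℝ) / 2 + a / 2 + 1) *
          (1 + b + b ^ 2) ^ (-(a / 2) - 1) := by
      rw [← Real.rpow_add hB]; congr 1; ring
    rw [e]; ring
  have h2 : ENNReal.ofReal (G0 ((Module.finrank ℝ V : ℝ) / 2 + a / 2 + 1) b) ≤
      ENNReal.ofReal (G0 ((Module.finrank ℝ V : ℝ) / 2 + a / 2 + 1) (c / A)) := by
    refine ENNReal.ofReal_le_ofReal (G0_mono (by positivity) hb0 ?_)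
    rw [hb]
    exact div_le_div_of_nonneg_left hc0 hA hrA
  have h3 : (1:ℝ≥0∞) ≤ ENNReal.ofReal |φ' t| := by
    rw [← ENNReal.ofReal_one]
    refine ENNReal.ofReal_le_ofReal ?_
    have : 0 ≤ c * (1 / (2 * Real.sqrt t)) := by positivity
    simp only [hφ']
    rw [abs_of_nonneg (by linarith)]
    linarith
  calc wt a t * (ENNReal.ofReal (G0 ((Module.finrank ℝ V : ℝ) / 2) b) * Phi S (φ t))
      = ENNReal.ofReal (G0 ((Module.finrank ℝ V : ℝ) / 2 + a / 2 + 1) b) *
          (1 * (wt a (φ t) * Phi S (φ t))) := by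
        rw [← mul_assoc, h1]; ring
    _ ≤ ENNReal.ofReal (G0 ((Module.finrank ℝ V : ℝ) / 2 + a / 2 + 1) (c / A)) *
          (ENNReal.ofReal |φ' t| * (wt a (φ t) * Phi S (φ t))) := by
        gcongr

/-- integrability of the spectral weight of `ψ` against the loss factor -/
lemma integrable_g (m : ℝ) (hm : 0 ≤ m) (g : V → ℝ) (hg : Continuous g)
    (hdec : ∀ k : ℕ, Integrable fun θ => ‖θ‖ ^ k * g θ) (hg0 : ∀ θ, 0 ≤ g θ) :
    Integrable fun θ : V => g θ * G0 m ‖θ‖ := by
  obtain ⟨k, hk⟩ := exists_nat_ge m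
  have hb : ∀ b : ℝ, 0 ≤ b → G0 m b ≤ 3 ^ k * Real.exp (Real.pi ^ 2) * (1 + b ^ (2 * k)) := by
    intro b hb
    unfold G0
    have h1 : Real.exp (Real.pi ^ 2 * (b / (1 + b))) ≤ Real.exp (Real.pi ^ 2) := by
      apply Real.exp_le_exp.2
      have : b / (1 + b) ≤ 1 := by rw [div_le_one (by linarith)]; linarith
      nlinarith [sq_nonneg Real.pi]
    have h2 : (1 + b + b ^ 2) ^ m ≤ (1 + b + b ^ 2) ^ (k:ℝ) :=
      Real.rpow_le_rpow_of_exponent_le (by nlinarith [sq_nonneg b]) hk
    rw [Real.rpow_natCast] at h2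
    have h3 : (1 + b + b ^ 2) ^ k ≤ 3 ^ k * (1 + b ^ (2 * k)) := by
      by_cases hb1 : b ≤ 1
      · calc (1 + b + b ^ 2) ^ k ≤ 3 ^ k := pow_le_pow_left₀ (by positivity) (by nlinarith) k
          _ ≤ 3 ^ k * (1 + b ^ (2 * k)) := by
              have : 0 ≤ b ^ (2 * k) := by positivity
              nlinarith [pow_pos (show (0:ℝ) < 3 by norm_num) k]
      · push Not at hb1
        calc (1 + b + b ^ 2) ^ k ≤ (3 * b ^ 2) ^ k :=
              pow_le_pow_left₀ (by positivity) (by nlinarith) k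
          _ = 3 ^ k * b ^ (2 * k) := by rw [mul_pow, ← pow_mul]
          _ ≤ 3 ^ k * (1 + b ^ (2 * k)) := by
              have : (0:ℝ) < 3 ^ k := by positivity
              nlinarith
    calc (1 + b + b ^ 2) ^ m * Real.exp (Real.pi ^ 2 * (b / (1 + b)))
        ≤ (3 ^ k * (1 + b ^ (2 * k))) * Real.exp (Real.pi ^ 2) :=
          mul_le_mul (le_trans h2 h3) h1 (Real.exp_pos _).le (by positivity)
      _ = _ := by ring
  have hint : Integrable fun θ : V => 3 ^ k * Real.exp (Real.pi ^ 2) *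
      (‖θ‖ ^ 0 * g θ + ‖θ‖ ^ (2 * k) * g θ) := ((hdec 0).add (hdec (2 * k))).const_mul _
  refine hint.mono' ?_ (Eventually.of_forall fun θ => ?_)
  · refine (hg.mul ?_).aestronglyMeasurable
    unfold G0
    refine Continuous.mul ?_ ?_
    · refine Continuous.rpow_const (by fun_prop) (fun θ => Or.inl ?_)
      positivity
    · refine Real.continuous_exp.comp (continuous_const.mul ?_)
      refine Continuous.div (by fun_prop) (by fun_prop) (fun θ => ?_)
      positivity
  · rw [Real.norm_of_nonneg (mul_nonneg (hg0 θ) (G0_nonneg (norm_nonneg θ)))]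
    have := mul_le_mul_of_nonneg_left (hb ‖θ‖ (norm_nonneg θ)) (hg0 θ)
    refine le_trans this (le_of_eq ?_)
    rw [pow_zero]; ring

/-- `A → ∞` -/
lemma exists_A (m : ℝ) (hm : 0 ≤ m) (g : V → ℝ) (hg : Continuous g)
    (hdec : ∀ k : ℕ, Integrable fun θ => ‖θ‖ ^ k * g θ) (hg0 : ∀ θ, 0 ≤ g θ) {δ : ℝ}
    (hδ : 0 < δ) : ∃ A : ℝ, 1 ≤ A ∧ ∫⁻ θ : V, ENNReal.ofReal (g θ * G0 m (‖θ‖ / A)) ≤
      ENNReal.ofReal ((∫ θ, g θ) + δ) := by
  have hcontG : Continuous fun θ : V => G0 m ‖θ‖ := by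
    unfold G0
    refine Continuous.mul ?_ ?_
    · refine Continuous.rpow_const (by fun_prop) (fun θ => Or.inl ?_)
      positivity
    · refine Real.continuous_exp.comp (continuous_const.mul ?_)
      refine Continuous.div (by fun_prop) (by fun_prop) (fun θ => ?_)
      positivity
  have hcontG' : ∀ A : ℝ, 0 < A → Continuous fun θ : V => G0 m (‖θ‖ / A) := by
    intro A hA
    unfold G0
    refine Continuous.mul ?_ ?_
    · refine Continuous.rpow_const (by fun_prop) (fun θ => Or.inl ?_)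
      positivity
    · refine Real.continuous_exp.comp (continuous_const.mul ?_)
      refine Continuous.div (by fun_prop) (by fun_prop) (fun θ => ?_)
      positivity
  have hG1 : ContinuousAt (fun b : ℝ => G0 m b) 0 := by
    unfold G0
    refine ContinuousAt.mul ?_ ?_
    · refine ContinuousAt.rpow_const (by fun_prop) (Or.inl (by norm_num))
    · refine Real.continuous_exp.continuousAt.comp (continuousAt_const.mul ?_)
      exact ContinuousAt.div (by fun_prop) (by fun_prop) (by norm_num)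
  have hint := integrable_g m hm g hg hdec hg0
  have hlim : Tendsto (fun A : ℝ => ∫ θ : V, g θ * G0 m (‖θ‖ / A)) atTop (𝓝 (∫ θ : V, g θ)) := by
    refine tendsto_integral_filter_of_dominated_convergence (fun θ => g θ * G0 m ‖θ‖) ?_ ?_ hint ?_
    · filter_upwards [eventually_gt_atTop 0] with A hA
      exact (hg.mul (hcontG' A hA)).aestronglyMeasurable
    · filter_upwards [eventually_ge_atTop 1] with A hA
      refine Eventually.of_forall fun θ => ?_
      have h0 : 0 ≤ ‖θ‖ / A := by positivity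
      rw [Real.norm_of_nonneg (mul_nonneg (hg0 θ) (G0_nonneg h0))]
      refine mul_le_mul_of_nonneg_left (G0_mono hm h0 ?_) (hg0 θ)
      exact div_le_self (norm_nonneg _) hA
    · refine Eventually.of_forall fun θ => ?_
      have h1 : Tendsto (fun A : ℝ => ‖θ‖ / A) atTop (𝓝 0) :=
        tendsto_const_nhds.div_atTop tendsto_id
      have h2 := (hG1.tendsto.comp h1).const_mul (g θ)
      simp only [Function.comp_def, G0_zero, mul_one] at h2
      exact h2
  obtain ⟨A, hA1, hA2⟩ := ((eventually_ge_atTop (1:ℝ)).and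
    (hlim.eventually (Iio_mem_nhds (lt_add_of_pos_right _ hδ)))).exists
  refine ⟨A, hA1, ?_⟩
  have hA0 : 0 < A := by linarith
  have hintA : Integrable fun θ : V => g θ * G0 m (‖θ‖ / A) := by
    refine hint.mono' (hg.mul (hcontG' A hA0)).aestronglyMeasurable
      (Eventually.of_forall fun θ => ?_)
    have h0 : 0 ≤ ‖θ‖ / A := by positivity
    rw [Real.norm_of_nonneg (mul_nonneg (hg0 θ) (G0_nonneg h0))]
    refine mul_le_mul_of_nonneg_left (G0_mono hm h0 ?_) (hg0 θ)
    exact div_le_self (norm_nonneg _) hA1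
  rw [← ofReal_integral_eq_lintegral_ofReal hintA (Eventually.of_forall fun θ =>
    mul_nonneg (hg0 θ) (G0_nonneg (by positivity)))]
  exact ENNReal.ofReal_le_ofReal hA2.le

end Helper23.Riesz
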