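import Pool.Agent.Helper95.Riesz.Flat1

/-!
# The flat core: the reservoir
-/

set_option autoImplicit false
set_option linter.unusedSectionVars false
open MeasureTheory Set Filter Topology
open scoped ENNReal NNReal FourierTransform SchwartzMap

namespace Helper23.Riesz

variable {V : Type*} [NormedAddCommGroup V] [InnerProductSpace ℝ V] [FiniteDimensional ℝ V]
  [MeasurableSpace V] [BorelSpace V]

/-- the Schwartz weight -/
noncomputable def Wp (p : ℕ) (η : V) : ℝ≥0∞ := ENNReal.ofReal (((1 + ‖η‖) ^ (2 * p))⁻¹)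

lemma measurable_Wp (p : ℕ) : Measurable (Wp p : V → ℝ≥0∞) := by
  unfold Wp
  exact (((measurable_norm.const_add 1).pow_const _).inv).ennreal_ofReal

lemma N2 (p : ℕ) {A : ℝ} (hA : 1 ≤ A) : ∃ C : ℝ, 0 ≤ C ∧ ∀ η : V, Wp p η ≤
    ENNReal.ofReal C * ∫⁻ t in Ioi (A ^ 2),
      ENNReal.ofReal (t ^ ((Module.finrank ℝ V : ℝ) / 2 - p - 1)) * ENNReal.ofReal (gam t η) := by
  set n : ℝ := (Module.finrank ℝ V : ℝ) with hn
  set c : ℝ := Real.pi ^ (n / 2) * Real.exp (-Real.pi ^ 2) * 2 ^ (-(p:ℝ) - 1) with hc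
  have hpi := Real.pi_pos
  have hc0 : 0 < c := by positivity
  have hA0 : 0 < A := by linarith
  refine ⟨A ^ (2 * p) / c, by positivity, fun η => ?_⟩
  set R : ℝ := A ^ 2 * (1 + ‖η‖) ^ 2 with hR
  have h1 : (1:ℝ) ≤ 1 + ‖η‖ := by linarith [norm_nonneg η]
  have hR0 : 0 < R := by positivity
  have hRA : A ^ 2 ≤ R := by
    rw [hR]
    have : (1:ℝ) ≤ (1 + ‖η‖) ^ 2 := one_le_pow₀ h1
    nlinarith [sq_nonneg A]
  have hRη : ‖η‖ ^ 2 ≤ R := by
    rw [hR]
    have e1 : ‖η‖ ^ 2 ≤ (1 + ‖η‖) ^ 2 := pow_le_pow_left₀ (norm_nonneg _) (by linarith) 2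
    have e2 : (1:ℝ) ≤ A ^ 2 := one_le_pow₀ hA
    nlinarith [sq_nonneg (1 + ‖η‖)]
  have hsub : Ioc R (2 * R) ⊆ Ioi (A ^ 2) := fun t ht => lt_of_le_of_lt hRA ht.1
  have hlow : ∀ t ∈ Ioc R (2 * R), ENNReal.ofReal (Real.pi ^ (n / 2) * Real.exp (-Real.pi ^ 2) *
      (2 * R) ^ (-(p:ℝ) - 1)) ≤
      ENNReal.ofReal (t ^ (n / 2 - p - 1)) * ENNReal.ofReal (gam t η) := by
    intro t ht
    have ht0 : 0 < t := lt_trans hR0 ht.1
    rw [← ENNReal.ofReal_mul (Real.rpow_nonneg ht0.le _)]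
    refine ENNReal.ofReal_le_ofReal ?_
    unfold gam
    rw [← hn, Real.div_rpow hpi.le ht0.le]
    have e1 : t ^ (n / 2 - p - 1) = t ^ (n / 2) * t ^ (-(p:ℝ) - 1) := by
      rw [← Real.rpow_add ht0]; congr 1; ring
    rw [e1]
    have e2 : t ^ (n / 2) * t ^ (-(p:ℝ) - 1) * (Real.pi ^ (n / 2) / t ^ (n / 2) *
        Real.exp (-(Real.pi ^ 2 * ‖η‖ ^ 2 / t))) =
        Real.pi ^ (n / 2) * Real.exp (-(Real.pi ^ 2 * ‖η‖ ^ 2 / t)) * t ^ (-(p:ℝ) - 1) := by
      have : t ^ (n / 2) ≠ 0 := (Real.rpow_pos_of_pos ht0 _).ne'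
      field_simp
    rw [e2]
    have e3 : Real.exp (-Real.pi ^ 2) ≤ Real.exp (-(Real.pi ^ 2 * ‖η‖ ^ 2 / t)) := by
      apply Real.exp_le_exp.2
      rw [neg_le_neg_iff, div_le_iff₀ ht0]
      have : ‖η‖ ^ 2 ≤ t := le_trans hRη ht.1.le
      exact mul_le_mul_of_nonneg_left this (by positivity)
    have e4 : (2 * R) ^ (-(p:ℝ) - 1) ≤ t ^ (-(p:ℝ) - 1) :=
      Real.rpow_le_rpow_of_nonpos ht0 ht.2 (by
        have : (0:ℝ) ≤ p := Nat.cast_nonneg p
        linarith)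
    exact mul_le_mul (mul_le_mul_of_nonneg_left e3 (by positivity)) e4 (by positivity)
      (by positivity)
  have hint : ENNReal.ofReal (c * R ^ (-(p:ℝ))) ≤ ∫⁻ t in Ioi (A ^ 2),
      ENNReal.ofReal (t ^ (n / 2 - p - 1)) * ENNReal.ofReal (gam t η) := by
    refine le_trans ?_ (lintegral_mono_set hsub)
    refine le_trans ?_ (setLIntegral_mono' measurableSet_Ioc hlow)
    rw [setLIntegral_const, Real.volume_Ioc, ← ENNReal.ofReal_mul (by positivity)]
    refine ENNReal.ofReal_le_ofReal (le_of_eq ?_)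
    have e5 : (2 * R) ^ (-(p:ℝ) - 1) = 2 ^ (-(p:ℝ) - 1) * (R ^ (-(p:ℝ)) * R⁻¹) := by
      rw [Real.mul_rpow (by norm_num) hR0.le]
      congr 1
      rw [sub_eq_add_neg, Real.rpow_add hR0, Real.rpow_neg_one]
    rw [e5, hc]
    field_simp
    ring
  calc Wp p η = ENNReal.ofReal (A ^ (2 * p) / c) * ENNReal.ofReal (c * R ^ (-(p:ℝ))) := by
        rw [← ENNReal.ofReal_mul (by positivity)]
        unfold Wp
        congr 1
        rw [Real.rpow_neg hR0.le, Real.rpow_natCast, hR, mul_pow, ← pow_mul, ← pow_mul]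
        field_simp
    _ ≤ _ := by gcongr

/-- the reservoir controls the Schwartz-weighted mass -/
lemma res_bound (p : ℕ) {a A : ℝ} (hA : 1 ≤ A)
    (hp : ((Module.finrank ℝ V : ℝ) + a) / 2 < p) : ∃ C : ℝ, 0 ≤ C ∧ ∀ T : ℝ, A ^ 2 ≤ T →
      ∀ S : V → ℝ≥0∞, Measurable S → ∫⁻ η : V, Wp p η * S η ≤
        ENNReal.ofReal C * ((∫⁻ t in Ioc (A ^ 2) T, wt a t * Phi S t) +
          ENNReal.ofReal (T ^ (-((p:ℝ) - ((Module.finrank ℝ V : ℝ) + a) / 2))) *
            (∫⁻ t in Ioi T, wt a t * Phi S t)) := by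
  obtain ⟨C, hC0, hC⟩ := N2 (V := V) p hA
  set n : ℝ := (Module.finrank ℝ V : ℝ) with hn
  refine ⟨C, hC0, fun T hT S hS => ?_⟩
  have hA1 : (1:ℝ) ≤ A ^ 2 := one_le_pow₀ hA
  set u : ℝ → ℝ≥0∞ := fun t => ENNReal.ofReal (t ^ (n / 2 - p - 1)) with hu
  have hum : Measurable u := (measurable_id.pow_const _).ennreal_ofReal
  have h1 : ∫⁻ η : V, Wp p η * S η ≤
      ∫⁻ η : V, ENNReal.ofReal C * (∫⁻ t in Ioi (A ^ 2), u t * ENNReal.ofReal (gam t η)) * S η :=
    lintegral_mono fun η => mul_le_mul_left (hC η) _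
  have hG : Measurable (fun q : V × ℝ => u q.2 * ENNReal.ofReal (gam q.2 q.1) * S q.1) := by
    refine ((hum.comp measurable_snd).mul ?_).mul (hS.comp measurable_fst)
    exact ((measurable_gam_uncurry (V := V)).comp measurable_swap).ennreal_ofReal
  have h2 : ∫⁻ η : V, ENNReal.ofReal C *
      (∫⁻ t in Ioi (A ^ 2), u t * ENNReal.ofReal (gam t η)) * S η =
      ENNReal.ofReal C * ∫⁻ t in Ioi (A ^ 2), u t * Phi S t := by
    have e1 : ∀ η : V, ENNReal.ofReal C *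
      (∫⁻ t in Ioi (A ^ 2), u t * ENNReal.ofReal (gam t η)) * S η =
      ENNReal.ofReal C * ∫⁻ t in Ioi (A ^ 2), u t * ENNReal.ofReal (gam t η) * S η := by
      intro η
      rw [mul_assoc, ← lintegral_mul_const]
      exact hum.mul (((measurable_gam_uncurry (V := V)).comp
        (measurable_id.prodMk measurable_const)).ennreal_ofReal)
    simp_rw [e1]
    rw [lintegral_const_mul' _ _ ENNReal.ofReal_ne_top]
    congr 1
    rw [lintegral_lintegral_swap hG.aemeasurable]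
    refine lintegral_congr fun t => ?_
    unfold Phi
    rw [← lintegral_const_mul]
    · refine lintegral_congr fun η => ?_
      rw [mul_assoc]
    · exact ((measurable_gam (V := V) t).ennreal_ofReal).mul hS
  refine le_trans h1 (h2.le.trans ?_)
  gcongr
  have hsplit : Ioi (A ^ 2) = Ioc (A ^ 2) T ∪ Ioi T := (Ioc_union_Ioi_eq_Ioi hT).symm
  rw [hsplit, lintegral_union measurableSet_Ioi (Ioc_disjoint_Ioi le_rfl)]
  have hu1 : ∀ t : ℝ, 0 < t → u t = wt a t * ENNReal.ofReal (t ^ (-((p:ℝ) - (n + a) / 2))) := by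
    intro t ht
    simp only [hu, wt]
    rw [← ENNReal.ofReal_mul (Real.rpow_nonneg ht.le _), ← Real.rpow_add ht]
    congr 2
    ring
  refine add_le_add ?_ ?_
  · refine setLIntegral_mono' measurableSet_Ioc fun t ht => ?_
    have ht1 : 1 ≤ t := hA1.trans ht.1.le
    rw [hu1 t (by linarith)]
    have : ENNReal.ofReal (t ^ (-((p:ℝ) - (n + a) / 2))) ≤ 1 := by
      rw [← ENNReal.ofReal_one]
      exact ENNReal.ofReal_le_ofReal (Real.rpow_le_one_of_one_le_of_nonpos ht1 (by linarith))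
    calc wt a t * ENNReal.ofReal (t ^ (-((p:ℝ) - (n + a) / 2))) * Phi S t
        ≤ wt a t * 1 * Phi S t := by gcongr
      _ = wt a t * Phi S t := by rw [mul_one]
  · rw [← lintegral_const_mul' _ _ ENNReal.ofReal_ne_top]
    refine setLIntegral_mono' measurableSet_Ioi fun t ht => ?_
    have hT1 : 1 ≤ T := hA1.trans hT
    have htT : T < t := ht
    rw [hu1 t (by linarith)]
    have : ENNReal.ofReal (t ^ (-((p:ℝ) - (n + a) / 2))) ≤
        ENNReal.ofReal (T ^ (-((p:ℝ) - (n + a) / 2))) :=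
      ENNReal.ofReal_le_ofReal (Real.rpow_le_rpow_of_nonpos (by linarith) htT.le (by linarith))
    calc wt a t * ENNReal.ofReal (t ^ (-((p:ℝ) - (n + a) / 2))) * Phi S t
        = ENNReal.ofReal (t ^ (-((p:ℝ) - (n + a) / 2))) * (wt a t * Phi S t) := by ring
      _ ≤ _ := by gcongr

end Helper23.Riesz
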