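import Pool.Agent.Helper95.Riesz.Flat2

/-!
# The flat core: small times
-/

set_option autoImplicit false
set_option linter.unusedSectionVars false
open MeasureTheory Set Filter Topology
open scoped ENNReal NNReal FourierTransform SchwartzMap

namespace Helper23.Riesz

variable {V : Type*} [NormedAddCommGroup V] [InnerProductSpace ℝ V] [FiniteDimensional ℝ V]
  [MeasurableSpace V] [BorelSpace V]

lemma schwartz_le (F : 𝓢(V, ℂ)) (p : ℕ) : ∃ C : ℝ, 0 ≤ C ∧ ∀ η : V,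
    ‖F η‖ ≤ C * ((1 + ‖η‖) ^ p)⁻¹ := by
  refine ⟨2 ^ p * (Finset.Iic (p, 0)).sup (fun m => SchwartzMap.seminorm ℝ m.1 m.2) F,
    by positivity, fun η => ?_⟩
  have h := SchwartzMap.one_add_le_sup_seminorm_apply (𝕜 := ℝ) (m := (p, 0)) (k := p) (n := 0)
    le_rfl le_rfl F η
  rw [norm_iteratedFDeriv_zero] at h
  have h1 : (0:ℝ) < (1 + ‖η‖) ^ p := by have := norm_nonneg η; positivity
  rw [← div_eq_mul_inv, le_div_iff₀ h1, mul_comm]
  exact h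

lemma schwartz_fderiv_le (F : 𝓢(V, ℂ)) (p : ℕ) : ∃ C : ℝ, 0 ≤ C ∧ ∀ η : V,
    ‖fderiv ℝ F η‖ ≤ C * ((1 + ‖η‖) ^ p)⁻¹ := by
  refine ⟨2 ^ p * (Finset.Iic (p, 1)).sup (fun m => SchwartzMap.seminorm ℝ m.1 m.2) F,
    by positivity, fun η => ?_⟩
  have h := SchwartzMap.one_add_le_sup_seminorm_apply (𝕜 := ℝ) (m := (p, 1)) (k := p) (n := 1)
    le_rfl le_rfl F η
  rw [norm_iteratedFDeriv_one] at h
  have h1 : (0:ℝ) < (1 + ‖η‖) ^ p := by have := norm_nonneg η; positivity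
  rw [← div_eq_mul_inv, le_div_iff₀ h1, mul_comm]
  exact h

lemma peetre {x η ζ : V} (h : ‖x - η‖ ≤ ‖ζ‖) (p : ℕ) :
    ((1 + ‖x‖) ^ p)⁻¹ ≤ (1 + ‖ζ‖) ^ p * ((1 + ‖η‖) ^ p)⁻¹ := by
  have h0 := norm_nonneg x
  have h1 := norm_nonneg ζ
  have h2 := norm_nonneg η
  have h3 : ‖η‖ ≤ ‖x‖ + ‖ζ‖ := by
    have : ‖η‖ ≤ ‖x‖ + ‖x - η‖ := by
      have := norm_sub_le x (x - η)
      rwa [sub_sub_cancel] at this
    linarith
  have h4 : 1 + ‖η‖ ≤ (1 + ‖x‖) * (1 + ‖ζ‖) := by nlinarith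
  rw [← div_eq_mul_inv, le_div_iff₀ (by positivity), inv_mul_le_iff₀ (by positivity), ← mul_pow]
  exact pow_le_pow_left₀ (by positivity) h4 p

lemma schwartz_diff_le (F : 𝓢(V, ℂ)) (p : ℕ) : ∃ C : ℝ, 0 ≤ C ∧ ∀ η ζ : V,
    ‖F (η + ζ) - F η‖ ≤ C * ‖ζ‖ * (1 + ‖ζ‖) ^ p * ((1 + ‖η‖) ^ p)⁻¹ := by
  obtain ⟨C, hC0, hC⟩ := schwartz_fderiv_le F p
  refine ⟨C, hC0, fun η ζ => ?_⟩
  have h := Convex.norm_image_sub_le_of_norm_fderiv_le (𝕜 := ℝ) (f := (F : V → ℂ))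
    (s := segment ℝ η (η + ζ)) (C := C * ((1 + ‖ζ‖) ^ p * ((1 + ‖η‖) ^ p)⁻¹))
    (x := η) (y := η + ζ) (fun x _ => F.differentiableAt) ?_ (convex_segment _ _)
    (left_mem_segment ℝ _ _) (right_mem_segment ℝ _ _)
  · refine h.trans (le_of_eq ?_)
    rw [add_sub_cancel_left]; ring
  · intro x hx
    refine (hC x).trans (mul_le_mul_of_nonneg_left (peetre ?_ p) hC0)
    have := norm_sub_le_of_mem_segment hx
    rwa [add_sub_cancel_left] at this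

/-- the kernel of the window, near the diagonal -/
lemma delta_le (F : 𝓢(V, ℂ)) (κ : V → ℂ) (Cκ : ℝ) (hκ2 : ∀ ζ, ‖1 - κ ζ‖ ≤ Cκ * ‖ζ‖) (p : ℕ) :
    ∃ C : ℝ, 0 ≤ C ∧ ∀ η ζ : V, ‖F (η + ζ) - κ ζ * F η‖ ^ 2 ≤
      C * (‖ζ‖ ^ 2 * (1 + ‖ζ‖) ^ (2 * p)) * ((1 + ‖η‖) ^ (2 * p))⁻¹ := by
  obtain ⟨C1, hC10, hC1⟩ := schwartz_diff_le F p
  obtain ⟨C0, hC00, hC0⟩ := schwartz_le F p
  refine ⟨(C1 + |Cκ| * C0) ^ 2, by positivity, fun η ζ => ?_⟩
  have hζ := norm_nonneg ζ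
  have hη := norm_nonneg η
  have h1 : ‖F (η + ζ) - κ ζ * F η‖ ≤
      (C1 + |Cκ| * C0) * (‖ζ‖ * (1 + ‖ζ‖) ^ p * ((1 + ‖η‖) ^ p)⁻¹) := by
    have e : F (η + ζ) - κ ζ * F η = (F (η + ζ) - F η) + (1 - κ ζ) * F η := by ring
    rw [e]
    refine (norm_add_le _ _).trans ?_
    rw [norm_mul]
    have e1 := hC1 η ζ
    have e2 : ‖1 - κ ζ‖ * ‖F η‖ ≤ (|Cκ| * ‖ζ‖) * (C0 * ((1 + ‖η‖) ^ p)⁻¹) := by
      refine mul_le_mul ((hκ2 ζ).trans ?_) (hC0 η) (norm_nonneg _) (by positivity)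
      exact mul_le_mul_of_nonneg_right (le_abs_self _) hζ
    have e3 : (|Cκ| * ‖ζ‖) * (C0 * ((1 + ‖η‖) ^ p)⁻¹) ≤
        (|Cκ| * ‖ζ‖) * (C0 * ((1 + ‖η‖) ^ p)⁻¹) * (1 + ‖ζ‖) ^ p :=
      le_mul_of_one_le_right (by positivity) (one_le_pow₀ (by linarith))
    calc ‖F (η + ζ) - F η‖ + ‖1 - κ ζ‖ * ‖F η‖
        ≤ C1 * ‖ζ‖ * (1 + ‖ζ‖) ^ p * ((1 + ‖η‖) ^ p)⁻¹ +
          (|Cκ| * ‖ζ‖) * (C0 * ((1 + ‖η‖) ^ p)⁻¹) * (1 + ‖ζ‖) ^ p := by linarith
      _ = _ := by ring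
  calc ‖F (η + ζ) - κ ζ * F η‖ ^ 2 ≤
      ((C1 + |Cκ| * C0) * (‖ζ‖ * (1 + ‖ζ‖) ^ p * ((1 + ‖η‖) ^ p)⁻¹)) ^ 2 :=
        pow_le_pow_left₀ (norm_nonneg _) h1 2
    _ = _ := by
        rw [pow_mul' (1 + ‖η‖), pow_mul' (1 + ‖ζ‖)]
        field_simp

lemma poly_exp (p : ℕ) {c : ℝ} (hc : 0 < c) (x : ℝ) (hx : 0 ≤ x) :
    (1 + x) ^ (2 * p) * Real.exp (-(c * x ^ 2)) ≤
      (2 / c) ^ p * (p.factorial * Real.exp c) := by
  have h1 : (1 + x) ^ (2 * p) ≤ (2 / c) ^ p * (c + c * x ^ 2) ^ p := by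
    rw [← mul_pow, pow_mul]
    refine pow_le_pow_left₀ (by positivity) ?_ p
    have : 2 / c * (c + c * x ^ 2) = 2 + 2 * x ^ 2 := by field_simp
    rw [this]
    nlinarith [sq_nonneg (1 - x)]
  have h2 : (c + c * x ^ 2) ^ p ≤ p.factorial * Real.exp (c + c * x ^ 2) := by
    have := Real.pow_div_factorial_le_exp (c + c * x ^ 2) (by positivity) p
    rwa [div_le_iff₀' (by positivity)] at this
  calc (1 + x) ^ (2 * p) * Real.exp (-(c * x ^ 2))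
      ≤ ((2 / c) ^ p * (p.factorial * Real.exp (c + c * x ^ 2))) * Real.exp (-(c * x ^ 2)) := by
        refine mul_le_mul_of_nonneg_right (h1.trans ?_) (Real.exp_pos _).le
        exact mul_le_mul_of_nonneg_left h2 (by positivity)
    _ = (2 / c) ^ p * (p.factorial * (Real.exp (c + c * x ^ 2) * Real.exp (-(c * x ^ 2)))) := by
        ring
    _ = _ := by
        rw [← Real.exp_add]
        congr 3
        ring

/-- Gaussian moments at small times -/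
lemma moment_le (p : ℕ) {A : ℝ} (hA : 1 ≤ A) : ∃ C : ℝ, 0 ≤ C ∧ ∀ t : ℝ, 0 < t → t ≤ A ^ 2 →
    ∫⁻ ζ : V, ENNReal.ofReal (gam t ζ) * ENNReal.ofReal (‖ζ‖ ^ 2 * (1 + ‖ζ‖) ^ (2 * p)) ≤
      ENNReal.ofReal (C * t) := by
  set n : ℝ := (Module.finrank ℝ V : ℝ) with hn
  have hpi := Real.pi_pos
  set c : ℝ := Real.pi ^ 2 / (4 * A ^ 2) with hc
  have hA0 : 0 < A := by linarith
  have hc0 : 0 < c := by positivity
  set C0 : ℝ := (2 / c) ^ p * (p.factorial * Real.exp c) with hC0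
  have hC00 : 0 ≤ C0 := by positivity
  refine ⟨2 ^ (n / 2) * C0, by positivity, fun t ht htA => ?_⟩
  have hpt : ∀ ζ : V, gam t ζ * (‖ζ‖ ^ 2 * (1 + ‖ζ‖) ^ (2 * p)) ≤
      (2 ^ (n / 2) * C0 * t) * gam (2 * t) ζ := by
    intro ζ
    set x := ‖ζ‖ with hx
    have hx0 : 0 ≤ x := norm_nonneg _
    have e1 : gam t ζ = 2 ^ (n / 2) * gam (2 * t) ζ * Real.exp (-(Real.pi ^ 2 * x ^ 2 / (2 * t))) := by
      unfold gam
      rw [← hn, ← hx]
      have e2 : (Real.pi / t) ^ (n / 2) = 2 ^ (n / 2) * (Real.pi / (2 * t)) ^ (n / 2) := by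
        rw [← Real.mul_rpow (by norm_num) (by positivity)]
        congr 1
        field_simp
      rw [e2, mul_assoc, mul_assoc, mul_assoc, ← Real.exp_add]
      congr 3
      field_simp
      ring
    rw [e1]
    set y := Real.pi ^ 2 * x ^ 2 / (4 * t) with hy
    have hy0 : 0 ≤ y := by positivity
    have e3 : Real.exp (-(Real.pi ^ 2 * x ^ 2 / (2 * t))) = Real.exp (-y) * Real.exp (-y) := by
      rw [← Real.exp_add]
      congr 1
      rw [hy]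
      field_simp
      ring
    have e4 : x ^ 2 * Real.exp (-y) ≤ t := by
      have h1 : x ^ 2 = 4 * t / Real.pi ^ 2 * y := by rw [hy]; field_simp
      have h2 : y * Real.exp (-y) ≤ 1 := by
        rw [Real.exp_neg]
        have h3 : y ≤ Real.exp y := by linarith [Real.add_one_le_exp y]
        rw [← div_eq_mul_inv, div_le_one (Real.exp_pos _)]
        exact h3
      have h3 : 4 * t / Real.pi ^ 2 ≤ t := by
        rw [div_le_iff₀ (by positivity)]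
        have : 4 ≤ Real.pi ^ 2 := by nlinarith [Real.pi_gt_three]
        nlinarith
      calc x ^ 2 * Real.exp (-y) = 4 * t / Real.pi ^ 2 * (y * Real.exp (-y)) := by rw [h1]; ring
        _ ≤ 4 * t / Real.pi ^ 2 * 1 := mul_le_mul_of_nonneg_left h2 (by positivity)
        _ ≤ t := by linarith
    have e5 : (1 + x) ^ (2 * p) * Real.exp (-y) ≤ C0 := by
      refine le_trans (mul_le_mul_of_nonneg_left (Real.exp_le_exp.2 ?_) (by positivity))
        (poly_exp p hc0 x hx0)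
      rw [neg_le_neg_iff, hy, hc, div_mul_eq_mul_div]
      exact div_le_div_of_nonneg_left (by positivity) (by positivity) (by linarith)
    rw [e3]
    have hg : 0 ≤ gam (2 * t) ζ := gam_nonneg (by positivity) ζ
    calc 2 ^ (n / 2) * gam (2 * t) ζ * (Real.exp (-y) * Real.exp (-y)) *
          (x ^ 2 * (1 + x) ^ (2 * p))
        = 2 ^ (n / 2) * gam (2 * t) ζ * ((x ^ 2 * Real.exp (-y)) *
          ((1 + x) ^ (2 * p) * Real.exp (-y))) := by ring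
      _ ≤ 2 ^ (n / 2) * gam (2 * t) ζ * (t * C0) := by
          refine mul_le_mul_of_nonneg_left ?_ (by positivity)
          exact mul_le_mul e4 e5 (by positivity) ht.le
      _ = _ := by ring
  calc ∫⁻ ζ : V, ENNReal.ofReal (gam t ζ) * ENNReal.ofReal (‖ζ‖ ^ 2 * (1 + ‖ζ‖) ^ (2 * p))
      ≤ ∫⁻ ζ : V, ENNReal.ofReal (2 ^ (n / 2) * C0 * t) * ENNReal.ofReal (gam (2 * t) ζ) := by
        refine lintegral_mono fun ζ => ?_
        rw [← ENNReal.ofReal_mul (gam_nonneg ht ζ), ← ENNReal.ofReal_mul (by positivity)]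
        exact ENNReal.ofReal_le_ofReal (hpt ζ)
    _ = _ := by
        rw [lintegral_const_mul' _ _ ENNReal.ofReal_ne_top, lintegral_gam (by positivity), mul_one]

/-- small times -/
lemma part2 {a : ℝ} (ha2 : a < 2) (F : 𝓢(V, ℂ)) (κ : V → ℂ) (Cκ : ℝ)
    (hκ2 : ∀ ζ, ‖1 - κ ζ‖ ≤ Cκ * ‖ζ‖) (p : ℕ) {A : ℝ} (hA : 1 ≤ A) : ∃ C : ℝ, 0 ≤ C ∧
      ∀ S : V → ℝ≥0∞, Measurable S →
      ∫⁻ t in Ioc 0 (A ^ 2), wt a t * ∫⁻ ζ : V, ENNReal.ofReal (gam t ζ) *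
        ∫⁻ η : V, ENNReal.ofReal (‖F (η + ζ) - κ ζ * F η‖ ^ 2) * S η ≤
      ENNReal.ofReal C * ∫⁻ η : V, Wp p η * S η := by
  obtain ⟨C1, hC10, hC1⟩ := delta_le F κ Cκ hκ2 p
  obtain ⟨C2, hC20, hC2⟩ := moment_le (V := V) p hA
  have hfin : ∫⁻ t in Ioc 0 (A ^ 2), wt a t * ENNReal.ofReal (C2 * t) ≠ ∞ := by
    have hi : IntegrableOn (fun t : ℝ => t ^ (-(a / 2))) (Ioc 0 (A ^ 2)) := by
      have := intervalIntegral.intervalIntegrable_rpow' (a := 0) (b := A ^ 2) (r := -(a / 2))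
        (by linarith)
      rwa [intervalIntegrable_iff_integrableOn_Ioc_of_le (by positivity)] at this
    have hi2 : IntegrableOn (fun t : ℝ => C2 * t ^ (-(a / 2))) (Ioc 0 (A ^ 2)) :=
      Integrable.const_mul hi _
    have e : ∫⁻ t in Ioc 0 (A ^ 2), wt a t * ENNReal.ofReal (C2 * t) =
        ∫⁻ t in Ioc 0 (A ^ 2), ENNReal.ofReal (C2 * t ^ (-(a / 2))) := by
      refine setLIntegral_congr_fun measurableSet_Ioc fun t ht => ?_
      have ht0 : 0 < t := ht.1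
      simp only [wt]
      rw [← ENNReal.ofReal_mul (Real.rpow_nonneg ht0.le _)]
      congr 1
      rw [Real.rpow_sub ht0, Real.rpow_one]
      field_simp
    rw [e]
    exact hi2.lintegral_lt_top.ne
  refine ⟨C1 * (∫⁻ t in Ioc 0 (A ^ 2), wt a t * ENNReal.ofReal (C2 * t)).toReal, by positivity,
    fun S hS => ?_⟩
  set W := ∫⁻ η : V, Wp p η * S η with hW
  have h1 : ∀ ζ : V, ∫⁻ η : V, ENNReal.ofReal (‖F (η + ζ) - κ ζ * F η‖ ^ 2) * S η ≤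
      ENNReal.ofReal C1 * ENNReal.ofReal (‖ζ‖ ^ 2 * (1 + ‖ζ‖) ^ (2 * p)) * W := by
    intro ζ
    have hm : 0 ≤ ‖ζ‖ ^ 2 * (1 + ‖ζ‖) ^ (2 * p) := by have := norm_nonneg ζ; positivity
    rw [hW, ← lintegral_const_mul' _ _ (ENNReal.mul_ne_top ENNReal.ofReal_ne_top
      ENNReal.ofReal_ne_top)]
    refine lintegral_mono fun η => ?_
    rw [← mul_assoc]
    refine mul_le_mul_left ?_ _
    unfold Wp
    rw [← ENNReal.ofReal_mul hC10, ← ENNReal.ofReal_mul (by positivity)]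
    exact ENNReal.ofReal_le_ofReal (hC1 η ζ)
  calc ∫⁻ t in Ioc 0 (A ^ 2), wt a t * ∫⁻ ζ : V, ENNReal.ofReal (gam t ζ) *
        ∫⁻ η : V, ENNReal.ofReal (‖F (η + ζ) - κ ζ * F η‖ ^ 2) * S η
      ≤ ∫⁻ t in Ioc 0 (A ^ 2), (wt a t * ENNReal.ofReal (C2 * t)) * (ENNReal.ofReal C1 * W) := by
        refine setLIntegral_mono' measurableSet_Ioc fun t ht => ?_
        rw [mul_assoc]
        refine mul_le_mul_right ?_ _
        calc ∫⁻ ζ : V, ENNReal.ofReal (gam t ζ) *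
              ∫⁻ η : V, ENNReal.ofReal (‖F (η + ζ) - κ ζ * F η‖ ^ 2) * S η
            ≤ ∫⁻ ζ : V, (ENNReal.ofReal (gam t ζ) *
                ENNReal.ofReal (‖ζ‖ ^ 2 * (1 + ‖ζ‖) ^ (2 * p))) * (ENNReal.ofReal C1 * W) := by
              refine lintegral_mono fun ζ => ?_
              refine (mul_le_mul_right (h1 ζ) _).trans (le_of_eq ?_)
              ring
          _ = (∫⁻ ζ : V, ENNReal.ofReal (gam t ζ) *
                ENNReal.ofReal (‖ζ‖ ^ 2 * (1 + ‖ζ‖) ^ (2 * p))) * (ENNReal.ofReal C1 * W) := by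
              rw [lintegral_mul_const]
              refine ((measurable_gam (V := V) t).ennreal_ofReal).mul ?_
              exact ((measurable_norm.pow_const 2).mul
                ((measurable_norm.const_add 1).pow_const _)).ennreal_ofReal
          _ ≤ _ := mul_le_mul_left (hC2 t ht.1 ht.2) _
    _ = (∫⁻ t in Ioc 0 (A ^ 2), wt a t * ENNReal.ofReal (C2 * t)) * (ENNReal.ofReal C1 * W) := by
        rw [lintegral_mul_const]
        exact (measurable_wt a).mul ((measurable_id.const_mul C2).ennreal_ofReal)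
    _ = _ := by
        rw [ENNReal.ofReal_mul hC10, ENNReal.ofReal_toReal hfin]
        ring

end Helper23.Riesz
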