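import Mathlib

/-!
# Gaussian spectral densities
-/

set_option autoImplicit false
set_option linter.unusedSectionVars false
open MeasureTheory Set Filter Topology
open scoped ENNReal NNReal FourierTransform SchwartzMap

namespace Helper23.Riesz

variable {V : Type*} [NormedAddCommGroup V] [InnerProductSpace ℝ V] [FiniteDimensional ℝ V]
  [MeasurableSpace V] [BorelSpace V]

/-- the spectral density of `exp (-t |x|^2)` -/
noncomputable def gam (t : ℝ) (ξ : V) : ℝ :=
  (Real.pi / t) ^ ((Module.finrank ℝ V : ℝ) / 2) * Real.exp (-(Real.pi ^ 2 * ‖ξ‖ ^ 2 / t))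

lemma gam_nonneg {t : ℝ} (ht : 0 < t) (ξ : V) : 0 ≤ gam t ξ := by
  unfold gam; have := Real.pi_pos; positivity

omit [MeasurableSpace V] [BorelSpace V] in
lemma continuous_gam (t : ℝ) : Continuous (gam t : V → ℝ) := by
  unfold gam; fun_prop

lemma measurable_gam (t : ℝ) : Measurable (gam t : V → ℝ) := (continuous_gam t).measurable

lemma measurable_gam_uncurry : Measurable (fun p : ℝ × V => gam p.1 p.2) := by
  unfold gam
  refine Measurable.mul ?_ ?_
  · exact (measurable_const.div measurable_fst).pow_const _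
  · refine Real.measurable_exp.comp (Measurable.neg ?_)
    exact ((measurable_snd.norm.pow_const 2).const_mul _).div measurable_fst

omit [MeasurableSpace V] [BorelSpace V] [FiniteDimensional ℝ V] in
lemma gam_neg (t : ℝ) (ξ : V) : gam t (-ξ) = gam t ξ := by
  unfold gam; rw [norm_neg]

lemma integral_gam {t : ℝ} (ht : 0 < t) : ∫ ξ : V, gam t ξ = 1 := by
  unfold gam
  rw [integral_const_mul]
  have h : ∫ ξ : V, Real.exp (-(Real.pi ^ 2 * ‖ξ‖ ^ 2 / t))
      = (Real.pi / (Real.pi ^ 2 / t)) ^ ((Module.finrank ℝ V : ℝ) / 2) := by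
    rw [← GaussianFourier.integral_rexp_neg_mul_sq_norm (by have := Real.pi_pos; positivity :
      0 < Real.pi ^ 2 / t)]
    refine integral_congr_ae (Eventually.of_forall fun ξ => ?_)
    simp only
    congr 1; ring
  rw [h, ← Real.mul_rpow (by have := Real.pi_pos; positivity) (by have := Real.pi_pos; positivity)]
  have : Real.pi / t * (Real.pi / (Real.pi ^ 2 / t)) = 1 := by
    have := Real.pi_pos
    field_simp
  rw [this, Real.one_rpow]

lemma integrable_gam {t : ℝ} (ht : 0 < t) : Integrable (gam t : V → ℝ) := by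
  by_contra h
  have := integral_undef h
  rw [integral_gam ht] at this
  exact one_ne_zero this

lemma lintegral_gam {t : ℝ} (ht : 0 < t) : ∫⁻ ξ : V, ENNReal.ofReal (gam t ξ) = 1 := by
  rw [← ofReal_integral_eq_lintegral_ofReal (integrable_gam ht)
    (Eventually.of_forall fun ξ => gam_nonneg ht ξ), integral_gam ht, ENNReal.ofReal_one]

/-- the loss factor -/
noncomputable def G0 (m b : ℝ) : ℝ := (1 + b + b ^ 2) ^ m * Real.exp (Real.pi ^ 2 * (b / (1 + b)))

lemma G0_mono {m : ℝ} (hm : 0 ≤ m) {b b' : ℝ} (hb : 0 ≤ b) (hbb : b ≤ b') : G0 m b ≤ G0 m b' := by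
  unfold G0
  have h1 : b / (1 + b) ≤ b' / (1 + b') := by
    rw [div_le_div_iff₀ (by linarith) (by linarith)]
    nlinarith
  have h2 : (1 + b + b ^ 2) ^ m ≤ (1 + b' + b' ^ 2) ^ m :=
    Real.rpow_le_rpow (by positivity) (by nlinarith) hm
  have h3 : Real.exp (Real.pi ^ 2 * (b / (1 + b))) ≤ Real.exp (Real.pi ^ 2 * (b' / (1 + b'))) :=
    Real.exp_le_exp.2 (mul_le_mul_of_nonneg_left h1 (by positivity))
  exact mul_le_mul h2 h3 (Real.exp_pos _).le (Real.rpow_nonneg (by nlinarith) _)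

lemma G0_nonneg {m b : ℝ} (hb : 0 ≤ b) : 0 ≤ G0 m b := by
  unfold G0; positivity

lemma G0_zero (m : ℝ) : G0 m 0 = 1 := by
  unfold G0; simp

/-- the domination of shifted Gaussians -/
lemma gam_shift {t : ℝ} (ht : 0 < t) (θ η : V) :
    gam t (η - θ) ≤ G0 ((Module.finrank ℝ V : ℝ) / 2) (‖θ‖ / Real.sqrt t) *
      gam (t + ‖θ‖ * Real.sqrt t + ‖θ‖ ^ 2) η := by
  set r := Real.sqrt t with hr
  have hr0 : 0 < r := Real.sqrt_pos.2 ht
  have hrt : r ^ 2 = t := Real.sq_sqrt ht.le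
  set c := ‖θ‖ with hc
  have hc0 : 0 ≤ c := norm_nonneg _
  set b := c / r with hb
  have hb0 : 0 ≤ b := by positivity
  have hcb : c = b * r := by rw [hb]; field_simp
  have ht' : t + c * r + c ^ 2 = t * (1 + b + b ^ 2) := by
    rw [hcb, ← hrt]; ring
  have hp := Real.pi_pos
  unfold gam G0
  rw [ht']
  have hB : 0 < 1 + b + b ^ 2 := by positivity
  have e1 : (Real.pi / t) ^ ((Module.finrank ℝ V : ℝ) / 2)
      = (1 + b + b ^ 2) ^ ((Module.finrank ℝ V : ℝ) / 2) *
        (Real.pi / (t * (1 + b + b ^ 2))) ^ ((Module.finrank ℝ V : ℝ) / 2) := by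
    rw [← Real.mul_rpow hB.le (by positivity)]
    congr 1
    field_simp
  rw [e1]
  have hexp : Real.exp (-(Real.pi ^ 2 * ‖η - θ‖ ^ 2 / t)) ≤
      Real.exp (Real.pi ^ 2 * (b / (1 + b))) *
        Real.exp (-(Real.pi ^ 2 * ‖η‖ ^ 2 / (t * (1 + b + b ^ 2)))) := by
    rw [← Real.exp_add]
    apply Real.exp_le_exp.2
    -- ‖η‖² ≤ (1 + a)‖η-θ‖² + (1 + 1/a) c²,   a = b + b²
    by_cases hbz : b = 0
    · have hcz : c = 0 := by rw [hcb, hbz, zero_mul]
      have hθ : θ = 0 := norm_eq_zero.1 hcz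
      rw [hbz, hθ]; simp
    have hbp : 0 < b := lt_of_le_of_ne hb0 (Ne.symm hbz)
    have htri : ‖η‖ ≤ ‖η - θ‖ + c := by
      have := norm_add_le (η - θ) θ
      rwa [sub_add_cancel] at this
    set u := ‖η - θ‖ with hu
    have hu0 : 0 ≤ u := norm_nonneg _
    have hη : ‖η‖ ^ 2 ≤ (1 + b + b ^ 2) * u ^ 2 + (1 + b + b ^ 2) / (b + b ^ 2) * c ^ 2 := by
      have h1 : ‖η‖ ^ 2 ≤ (u + c) ^ 2 := pow_le_pow_left₀ (norm_nonneg _) htri 2
      have h2 : (u + c) ^ 2 ≤ (1 + b + b ^ 2) * u ^ 2 + (1 + b + b ^ 2) / (b + b ^ 2) * c ^ 2 := by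
        have h3 : (1 + b + b ^ 2) / (b + b ^ 2) = 1 + 1 / (b + b ^ 2) := by
          field_simp; ring
        rw [h3]
        have h4 : 2 * u * c ≤ (b + b ^ 2) * u ^ 2 + 1 / (b + b ^ 2) * c ^ 2 := by
          have h5 : 0 < b + b ^ 2 := by positivity
          have h6 : 0 ≤ ((b + b ^ 2) * u - c) ^ 2 / (b + b ^ 2) := by positivity
          have h7 : ((b + b ^ 2) * u - c) ^ 2 / (b + b ^ 2)
              = (b + b ^ 2) * u ^ 2 + 1 / (b + b ^ 2) * c ^ 2 - 2 * u * c := by
            field_simp; ring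
          linarith
        nlinarith
      exact le_trans h1 h2
    have key : ‖η‖ ^ 2 / (t * (1 + b + b ^ 2)) ≤ u ^ 2 / t + b / (1 + b) := by
      rw [div_le_iff₀ (by positivity)]
      have e : (u ^ 2 / t + b / (1 + b)) * (t * (1 + b + b ^ 2))
          = (1 + b + b ^ 2) * u ^ 2 + (1 + b + b ^ 2) / (b + b ^ 2) * c ^ 2 := by
        rw [hcb, ← hrt]
        field_simp
      rw [e]; exact hη
    have : Real.pi ^ 2 * ‖η‖ ^ 2 / (t * (1 + b + b ^ 2))
        = Real.pi ^ 2 * (‖η‖ ^ 2 / (t * (1 + b + b ^ 2))) := by ring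
    rw [this]
    have h8 := mul_le_mul_of_nonneg_left key (by positivity : (0:ℝ) ≤ Real.pi ^ 2)
    have h9 : Real.pi ^ 2 * (u ^ 2 / t + b / (1 + b))
        = Real.pi ^ 2 * u ^ 2 / t + Real.pi ^ 2 * (b / (1 + b)) := by ring
    linarith
  have hpos : 0 ≤ (1 + b + b ^ 2) ^ ((Module.finrank ℝ V : ℝ) / 2) *
        (Real.pi / (t * (1 + b + b ^ 2))) ^ ((Module.finrank ℝ V : ℝ) / 2) := by positivity
  have hfin := mul_le_mul_of_nonneg_left hexp hpos
  refine le_trans hfin (le_of_eq ?_)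
  ring

/-- the Gaussian average of the spectral weight -/
noncomputable def Phi (S : V → ℝ≥0∞) (t : ℝ) : ℝ≥0∞ := ∫⁻ ξ, ENNReal.ofReal (gam t ξ) * S ξ

lemma measurable_Phi {S : V → ℝ≥0∞} (hS : Measurable S) : Measurable (Phi S) := by
  unfold Phi
  exact (((measurable_gam_uncurry (V := V)).ennreal_ofReal).mul
    (hS.comp measurable_snd)).lintegral_prod_right'

end Helper23.Riesz
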