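import Pool.Agent.Helper95.Riesz.HSLim

/-!
# Minimal Riesz energy in the unit cube: existence of the limit for `s > d`
-/

set_option autoImplicit false
open Filter Topology MeasureTheory Set

namespace Helper23.Riesz

/-- energy of a finite family of points (the diagonal terms vanish when `s ≠ 0`) -/
noncomputable def enI (s : ℝ) {α ι : Type*} [PseudoMetricSpace α] [Fintype ι] (x : ι → α) : ℝ :=
  ∑ i, ∑ j, (dist (x i) (x j)) ^ (-s)

/-- the unit cube -/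
def cubeU (d : ℕ) : Set (EuclideanSpace ℝ (Fin d)) := {x | ∀ k, 0 ≤ x k ∧ x k ≤ 1}

/-- minimal energy of `N` distinct points in the unit cube -/
noncomputable def Ec (s : ℝ) (d N : ℕ) : ℝ :=
  sInf {e : ℝ | ∃ x : Fin N → EuclideanSpace ℝ (Fin d), Function.Injective x ∧
    (∀ i, x i ∈ cubeU d) ∧ e = enI s x}

lemma enI_nonneg (s : ℝ) {α ι : Type*} [PseudoMetricSpace α] [Fintype ι] (x : ι → α) :
    0 ≤ enI s x :=
  Finset.sum_nonneg fun _ _ => Finset.sum_nonneg fun _ _ => Real.rpow_nonneg dist_nonneg _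

lemma enI_equiv (s : ℝ) {α ι κ : Type*} [PseudoMetricSpace α] [Fintype ι] [Fintype κ]
    (e : κ ≃ ι) (x : ι → α) : enI s (x ∘ e) = enI s x := by
  unfold enI
  rw [← e.sum_comp]
  refine Finset.sum_congr rfl fun i _ => ?_
  rw [← e.sum_comp]
  rfl

lemma enI_emb (s : ℝ) {α ι κ : Type*} [PseudoMetricSpace α] [Fintype ι] [Fintype κ]
    (e : κ ↪ ι) (x : ι → α) : enI s (x ∘ e) ≤ enI s x := by
  classical
  unfold enI
  have h1 : ∀ i : ι, ∑ j : κ, (dist (x i) (x (e j))) ^ (-s)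
      ≤ ∑ j : ι, (dist (x i) (x j)) ^ (-s) := by
    intro i
    rw [← Finset.sum_map Finset.univ e (fun j => (dist (x i) (x j)) ^ (-s))]
    exact Finset.sum_le_sum_of_subset_of_nonneg (Finset.subset_univ _)
      fun _ _ _ => Real.rpow_nonneg dist_nonneg _
  calc ∑ i : κ, ∑ j : κ, (dist (x (e i)) (x (e j))) ^ (-s)
      ≤ ∑ i : κ, ∑ j : ι, (dist (x (e i)) (x j)) ^ (-s) :=
        Finset.sum_le_sum fun i _ => h1 (e i)
    _ = ∑ i ∈ Finset.univ.map e, ∑ j : ι, (dist (x i) (x j)) ^ (-s) := by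
        rw [Finset.sum_map]
    _ ≤ ∑ i : ι, ∑ j : ι, (dist (x i) (x j)) ^ (-s) :=
        Finset.sum_le_sum_of_subset_of_nonneg (Finset.subset_univ _)
          fun _ _ _ => Finset.sum_nonneg fun _ _ => Real.rpow_nonneg dist_nonneg _

lemma Ec_le (s : ℝ) {d : ℕ} {ι : Type*} [Fintype ι] (x : ι → EuclideanSpace ℝ (Fin d))
    (hx : Function.Injective x) (hc : ∀ i, x i ∈ cubeU d) : Ec s d (Fintype.card ι) ≤ enI s x := by
  unfold Ec
  refine csInf_le ⟨0, by rintro e ⟨y, -, -, rfl⟩; exact enI_nonneg s y⟩ ?_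
  refine ⟨x ∘ (Fintype.equivFin ι).symm, hx.comp (Equiv.injective _), fun i => hc _, ?_⟩
  rw [enI_equiv]

lemma Ec_set_nonempty (s : ℝ) {d : ℕ} (hd : 1 ≤ d) (N : ℕ) :
    {e : ℝ | ∃ x : Fin N → EuclideanSpace ℝ (Fin d), Function.Injective x ∧
      (∀ i, x i ∈ cubeU d) ∧ e = enI s x}.Nonempty := by
  refine ⟨_, fun i => WithLp.toLp 2 (fun _ => (i:ℝ) / N), ?_, ?_, rfl⟩
  · intro i j hij
    have h := congrFun (congrArg (WithLp.ofLp) hij) ⟨0, hd⟩
    have hN : (0:ℝ) < N := by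
      have := i.pos
      exact_mod_cast this
    have h' : (i:ℝ) / N = (j:ℝ) / N := h
    rw [div_left_inj' hN.ne'] at h'
    exact Fin.ext (by exact_mod_cast h')
  · intro i k
    have hN : (0:ℝ) < N := by
      have := i.pos
      exact_mod_cast this
    refine ⟨by positivity, ?_⟩
    change (i:ℝ) / N ≤ 1
    rw [div_le_one hN]
    exact_mod_cast i.2.le

lemma Ec_nonneg (s : ℝ) (d N : ℕ) : 0 ≤ Ec s d N := by
  unfold Ec
  exact Real.sInf_nonneg (by rintro e ⟨y, -, -, rfl⟩; exact enI_nonneg s y)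

lemma exists_near (s : ℝ) {d : ℕ} (hd : 1 ≤ d) (N : ℕ) {ε : ℝ} (hε : 0 < ε) :
    ∃ x : Fin N → EuclideanSpace ℝ (Fin d), Function.Injective x ∧ (∀ i, x i ∈ cubeU d) ∧
      enI s x ≤ Ec s d N + ε := by
  obtain ⟨e, ⟨x, h1, h2, rfl⟩, h3⟩ := Real.lt_sInf_add_pos (Ec_set_nonempty s hd N) hε
  exact ⟨x, h1, h2, le_of_lt h3⟩

lemma Ec_mono (s : ℝ) {d : ℕ} (hd : 1 ≤ d) : Monotone (Ec s d) := by
  intro N N' hNN
  refine le_of_forall_pos_le_add fun ε hε => ?_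
  obtain ⟨x, h1, h2, h3⟩ := exists_near s hd N' hε
  refine le_trans ?_ h3
  have h4 := Ec_le s (x ∘ (Fin.castLEEmb hNN)) (h1.comp (Fin.castLEEmb hNN).injective)
    (fun i => h2 _)
  rw [Fintype.card_fin] at h4
  exact le_trans h4 (enI_emb s (Fin.castLEEmb hNN) x)

/-- the integer lattice -/
noncomputable def ZL (d : ℕ) : Submodule ℤ (Fin d → ℝ) :=
  Submodule.span ℤ (Set.range (Pi.basisFun ℝ (Fin d)))

instance (d : ℕ) : DiscreteTopology (ZL d) := by unfold ZL; infer_instance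
instance (d : ℕ) : IsZLattice ℝ (ZL d) := by unfold ZL; infer_instance

lemma mem_ZL {d : ℕ} (k : Fin d → ℤ) : (fun c => (k c : ℝ)) ∈ ZL d := by
  have : (fun c => (k c : ℝ)) = ∑ c, (k c) • (Pi.basisFun ℝ (Fin d)) c := by
    ext c
    simp [Finset.sum_apply, Pi.single_apply]
  rw [this]
  exact Submodule.sum_mem _ fun c _ => Submodule.smul_mem _ _ (Submodule.subset_span ⟨c, rfl⟩)

/-- the lattice sum -/
noncomputable def ZS (s : ℝ) (d : ℕ) : ℝ := ∑' z : ZL d, ‖z‖ ^ (-s)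

lemma ZS_nonneg (s : ℝ) (d : ℕ) : 0 ≤ ZS s d :=
  tsum_nonneg fun _ => Real.rpow_nonneg (norm_nonneg _) _

lemma sum_le_ZS {s : ℝ} {d : ℕ} (hs : (d:ℝ) < s) {ι : Type*} [Fintype ι]
    (k : ι → (Fin d → ℤ)) (hk : Function.Injective k) :
    ∑ i, ‖(fun c => (k i c : ℝ) : Fin d → ℝ)‖ ^ (-s) ≤ ZS s d := by
  classical
  have hsum : Summable fun z : ZL d => ‖z‖ ^ (-s) := by
    refine ZLattice.summable_norm_rpow (ZL d) (-s) ?_
    rw [ZLattice.rank ℝ (ZL d), Module.finrank_fin_fun]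
    linarith
  have hinj : Function.Injective (fun i : ι => (⟨fun c => (k i c : ℝ), mem_ZL (k i)⟩ : ZL d)) := by
    intro i j hij
    apply hk
    have := congrArg Subtype.val hij
    funext c
    have hc : ((k i c : ℤ) : ℝ) = ((k j c : ℤ) : ℝ) := congrFun this c
    exact_mod_cast hc
  have h := hsum.sum_le_tsum (Finset.univ.map ⟨_, hinj⟩)
    (fun _ _ => Real.rpow_nonneg (norm_nonneg _) _)
  rw [Finset.sum_map] at h
  exact h

/-- the points of the subdivided configuration -/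
noncomputable def subP {d m : ℕ} (γ : ℝ) (k : Fin d → Fin m) (x : EuclideanSpace ℝ (Fin d)) :
    EuclideanSpace ℝ (Fin d) :=
  WithLp.toLp 2 (fun c => (((k c : ℕ) : ℝ) + γ / 2 + (1 - γ) * x c) / m)

lemma subP_apply {d m : ℕ} (γ : ℝ) (k : Fin d → Fin m) (x : EuclideanSpace ℝ (Fin d)) (c : Fin d) :
    subP γ k x c = (((k c : ℕ) : ℝ) + γ / 2 + (1 - γ) * x c) / m := rfl

lemma dist_subP_same {d m : ℕ} (hm : 1 ≤ m) {γ : ℝ} (hγ1 : γ < 1) (k : Fin d → Fin m)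
    (x y : EuclideanSpace ℝ (Fin d)) :
    dist (subP γ k x) (subP γ k y) = ((1 - γ) / m) * dist x y := by
  have hm0 : (0:ℝ) < m := by exact_mod_cast hm
  have h : subP γ k x - subP γ k y = ((1 - γ) / m) • (x - y) := by
    ext c
    simp only [PiLp.sub_apply, PiLp.smul_apply, subP_apply, smul_eq_mul]
    field_simp
    ring
  rw [dist_eq_norm, h, norm_smul, dist_eq_norm, Real.norm_of_nonneg]
  exact div_nonneg (by linarith) hm0.le

lemma dist_subP_diff {d m : ℕ} (hm : 1 ≤ m) {γ : ℝ} (hγ0 : 0 < γ) (hγ1 : γ < 1)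
    (k k' : Fin d → Fin m) (x y : EuclideanSpace ℝ (Fin d)) (hx : x ∈ cubeU d) (hy : y ∈ cubeU d) :
    (γ / m) * ‖(fun c => ((((k c : ℕ) : ℤ) - ((k' c : ℕ) : ℤ) : ℤ) : ℝ) : Fin d → ℝ)‖
      ≤ dist (subP γ k x) (subP γ k' y) := by
  have hm0 : (0:ℝ) < m := by exact_mod_cast hm
  rw [div_mul_eq_mul_div, div_le_iff₀ hm0, ← le_div_iff₀' hγ0]
  refine (pi_norm_le_iff_of_nonneg (by positivity)).2 fun c => ?_
  rw [le_div_iff₀' hγ0, Real.norm_eq_abs]
  have h1 : |subP γ k x c - subP γ k' y c| ≤ dist (subP γ k x) (subP γ k' y) := by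
    rw [dist_eq_norm]
    have := PiLp.norm_apply_le (subP γ k x - subP γ k' y) c
    simpa using this
  have h2 : |subP γ k x c - subP γ k' y c| * m
      = |((k c : ℕ) : ℝ) - ((k' c : ℕ) : ℝ) + (1 - γ) * (x c - y c)| := by
    rw [subP_apply, subP_apply]
    conv_lhs => rw [← abs_of_pos hm0, ← abs_mul, abs_of_pos hm0]
    congr 1
    field_simp
    ring
  have h3 : |x c - y c| ≤ 1 := by
    have a := hx c
    have b := hy c
    rw [abs_le]; constructor <;> linarith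
  push_cast
  by_cases hk : k c = k' c
  · rw [hk, sub_self, abs_zero, mul_zero]
    exact mul_nonneg dist_nonneg hm0.le
  · have h4 : (1:ℝ) ≤ |((k c : ℕ) : ℝ) - ((k' c : ℕ) : ℝ)| := by
      have : ((k c : ℕ) : ℤ) - ((k' c : ℕ) : ℤ) ≠ 0 := by
        intro h
        apply hk
        apply Fin.ext
        omega
      have h5 : (1:ℤ) ≤ |((k c : ℕ) : ℤ) - ((k' c : ℕ) : ℤ)| := Int.one_le_abs this
      exact_mod_cast h5
    have h5 : |((k c : ℕ) : ℝ) - ((k' c : ℕ) : ℝ)| - (1 - γ) * |x c - y c|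
        ≤ |((k c : ℕ) : ℝ) - ((k' c : ℕ) : ℝ) + (1 - γ) * (x c - y c)| := by
      have h6 := abs_sub_abs_le_abs_sub (((k c : ℕ) : ℝ) - ((k' c : ℕ) : ℝ))
        (-((1 - γ) * (x c - y c)))
      rw [abs_neg, abs_mul, abs_of_nonneg (by linarith : (0:ℝ) ≤ 1 - γ), sub_neg_eq_add] at h6
      exact h6
    have h7 : (1 - γ) * |x c - y c| ≤ (1 - γ) * |((k c : ℕ) : ℝ) - ((k' c : ℕ) : ℝ)| :=
      mul_le_mul_of_nonneg_left (le_trans h3 h4) (by linarith)
    have h8 : |subP γ k x c - subP γ k' y c| * m ≤ dist (subP γ k x) (subP γ k' y) * m :=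
      mul_le_mul_of_nonneg_right h1 hm0.le
    rw [h2] at h8
    linarith

theorem cube_sub {s : ℝ} {d : ℕ} (hd : 1 ≤ d) (hs : (d:ℝ) < s) (m N₀ : ℕ) (γ : ℝ)
    (hm : 1 ≤ m) (hγ0 : 0 < γ) (hγ1 : γ < 1) :
    Ec s d (m ^ d * N₀) ≤ (m:ℝ) ^ ((d:ℝ) + s) *
      ((1 - γ) ^ (-s) * Ec s d N₀ + ZS s d * γ ^ (-s) * (N₀:ℝ) ^ 2) := by
  classical
  have hd0 : (0:ℝ) < d := by exact_mod_cast hd
  have hs0 : 0 < s := lt_trans hd0 hs
  have hm0 : (0:ℝ) < m := by exact_mod_cast hm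
  have hA0 : 0 < (m:ℝ) ^ ((d:ℝ) + s) * (1 - γ) ^ (-s) :=
    mul_pos (Real.rpow_pos_of_pos hm0 _) (Real.rpow_pos_of_pos (by linarith) _)
  refine le_of_forall_pos_le_add fun ε hε => ?_
  obtain ⟨x, hx1, hx2, hx3⟩ := exists_near s hd N₀
    (show 0 < ε / ((m:ℝ) ^ ((d:ℝ) + s) * (1 - γ) ^ (-s)) by positivity)
  set z : (Fin d → Fin m) × Fin N₀ → EuclideanSpace ℝ (Fin d) := fun p => subP γ p.1 (x p.2) with hz
  have hcard : Fintype.card ((Fin d → Fin m) × Fin N₀) = m ^ d * N₀ := by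
    rw [Fintype.card_prod, Fintype.card_fun, Fintype.card_fin, Fintype.card_fin, Fintype.card_fin]
  have hcube : ∀ p, z p ∈ cubeU d := by
    rintro ⟨k, i⟩ c
    have h := hx2 i c
    have hk : ((k c : ℕ) : ℝ) + 1 ≤ m := by
      have := (k c).2
      exact_mod_cast this
    change 0 ≤ subP γ k (x i) c ∧ subP γ k (x i) c ≤ 1
    rw [subP_apply]
    constructor
    · refine div_nonneg ?_ hm0.le
      have : 0 ≤ (1 - γ) * x i c := mul_nonneg (by linarith) h.1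
      have : (0:ℝ) ≤ ((k c : ℕ) : ℝ) := Nat.cast_nonneg _
      linarith
    · rw [div_le_one hm0]
      have : (1 - γ) * x i c ≤ (1 - γ) * 1 := mul_le_mul_of_nonneg_left h.2 (by linarith)
      linarith
  have hdiff : ∀ (k k' : Fin d → Fin m), k ≠ k' →
      0 < ‖(fun c => ((((k c : ℕ) : ℤ) - ((k' c : ℕ) : ℤ) : ℤ) : ℝ) : Fin d → ℝ)‖ := by
    intro k k' hk
    rw [norm_pos_iff]
    intro h
    apply hk
    funext c
    have hc : ((((k c : ℕ) : ℤ) - ((k' c : ℕ) : ℤ) : ℤ) : ℝ) = 0 := congrFun h c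
    have hc' : ((k c : ℕ) : ℤ) - ((k' c : ℕ) : ℤ) = 0 := by exact_mod_cast hc
    apply Fin.ext
    omega
  have hinj : Function.Injective z := by
    rintro ⟨k, i⟩ ⟨k', j⟩ h
    by_cases hk : k = k'
    · subst hk
      have h1 : dist (z (k, i)) (z (k, j)) = 0 := by rw [h, dist_self]
      rw [hz] at h1
      simp only at h1
      rw [dist_subP_same hm hγ1] at h1
      have h2 : (1 - γ) / (m:ℝ) ≠ 0 := (div_pos (by linarith) hm0).ne'
      have h3 : dist (x i) (x j) = 0 := by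
        rcases mul_eq_zero.1 h1 with h | h
        · exact absurd h h2
        · exact h
      rw [hx1 (dist_eq_zero.1 h3)]
    · exfalso
      have h1 := dist_subP_diff hm hγ0 hγ1 k k' (x i) (x j) (hx2 i) (hx2 j)
      have h2 : dist (subP γ k (x i)) (subP γ k' (x j)) = 0 := by
        have : subP γ k (x i) = subP γ k' (x j) := h
        rw [this, dist_self]
      rw [h2] at h1
      have h3 := hdiff k k' hk
      have : 0 < (γ / m) * ‖(fun c => ((((k c : ℕ) : ℤ) - ((k' c : ℕ) : ℤ) : ℤ) : ℝ) : Fin d → ℝ)‖ :=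
        mul_pos (by positivity) h3
      linarith
  have hle := Ec_le s z hinj hcube
  rw [hcard] at hle
  refine le_trans hle ?_
  -- the energy
  set A : ℝ := ((1 - γ) / m) ^ (-s) with hA
  set Bc : ℝ := (γ / m) ^ (-s) with hBc
  have hBc0 : 0 ≤ Bc := Real.rpow_nonneg (by positivity) _
  have hterm : ∀ (k k' : Fin d → Fin m) (i j : Fin N₀),
      (dist (z (k, i)) (z (k', j))) ^ (-s) ≤
        (if k = k' then A * (dist (x i) (x j)) ^ (-s) else 0) +
        Bc * ‖(fun c => ((((k c : ℕ) : ℤ) - ((k' c : ℕ) : ℤ) : ℤ) : ℝ) : Fin d → ℝ)‖ ^ (-s) := by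
    intro k k' i j
    by_cases hk : k = k'
    · subst hk
      rw [if_pos rfl]
      have h1 : (dist (z (k, i)) (z (k, j))) ^ (-s) = A * (dist (x i) (x j)) ^ (-s) := by
        change (dist (subP γ k (x i)) (subP γ k (x j))) ^ (-s) = _
        rw [dist_subP_same hm hγ1, Real.mul_rpow (div_nonneg (by linarith) hm0.le) dist_nonneg]
      rw [h1]
      have : 0 ≤ Bc * ‖(fun c => ((((k c : ℕ) : ℤ) - ((k c : ℕ) : ℤ) : ℤ) : ℝ) : Fin d → ℝ)‖ ^ (-s) :=
        mul_nonneg hBc0 (Real.rpow_nonneg (norm_nonneg _) _)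
      linarith
    · rw [if_neg hk, zero_add, hBc, ← Real.mul_rpow (by positivity) (norm_nonneg _)]
      exact Real.rpow_le_rpow_of_nonpos (mul_pos (by positivity) (hdiff k k' hk))
        (dist_subP_diff hm hγ0 hγ1 k k' (x i) (x j) (hx2 i) (hx2 j)) (by linarith)
  have hmd : ((Finset.univ : Finset (Fin d → Fin m)).card : ℝ) = (m:ℝ) ^ (d:ℝ) := by
    rw [Finset.card_univ, Fintype.card_fun, Fintype.card_fin, Fintype.card_fin, Real.rpow_natCast]
    push_cast; ring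
  have hsum : enI s z ≤ (m:ℝ) ^ (d:ℝ) * (A * enI s x + Bc * ZS s d * (N₀:ℝ) ^ 2) := by
    calc enI s z = ∑ k : Fin d → Fin m, ∑ i : Fin N₀, ∑ k' : Fin d → Fin m, ∑ j : Fin N₀,
          (dist (z (k, i)) (z (k', j))) ^ (-s) := by
          unfold enI
          rw [Fintype.sum_prod_type]
          refine Finset.sum_congr rfl fun k _ => Finset.sum_congr rfl fun i _ => ?_
          rw [Fintype.sum_prod_type]
      _ ≤ ∑ k : Fin d → Fin m, ∑ i : Fin N₀, ∑ k' : Fin d → Fin m, ∑ j : Fin N₀,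
          ((if k = k' then A * (dist (x i) (x j)) ^ (-s) else 0) +
          Bc * ‖(fun c => ((((k c : ℕ) : ℤ) - ((k' c : ℕ) : ℤ) : ℤ) : ℝ) : Fin d → ℝ)‖ ^ (-s)) :=
          Finset.sum_le_sum fun k _ => Finset.sum_le_sum fun i _ => Finset.sum_le_sum fun k' _ =>
            Finset.sum_le_sum fun j _ => hterm k k' i j
      _ ≤ ∑ k : Fin d → Fin m, (A * enI s x + Bc * ZS s d * (N₀:ℝ) ^ 2) := by
          refine Finset.sum_le_sum fun k _ => ?_
          have e1 : ∑ i : Fin N₀, ∑ k' : Fin d → Fin m, ∑ j : Fin N₀,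
              ((if k = k' then A * (dist (x i) (x j)) ^ (-s) else 0) +
              Bc * ‖(fun c => ((((k c : ℕ) : ℤ) - ((k' c : ℕ) : ℤ) : ℤ) : ℝ) : Fin d → ℝ)‖ ^ (-s))
              = A * enI s x + (N₀:ℝ) ^ 2 * (Bc * ∑ k' : Fin d → Fin m,
                ‖(fun c => ((((k c : ℕ) : ℤ) - ((k' c : ℕ) : ℤ) : ℤ) : ℝ) : Fin d → ℝ)‖ ^ (-s)) := by
            have e2 : ∀ i : Fin N₀, ∑ k' : Fin d → Fin m, ∑ j : Fin N₀,
                ((if k = k' then A * (dist (x i) (x j)) ^ (-s) else 0) +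
                Bc * ‖(fun c => ((((k c : ℕ) : ℤ) - ((k' c : ℕ) : ℤ) : ℤ) : ℝ) : Fin d → ℝ)‖ ^ (-s))
                = A * ∑ j, (dist (x i) (x j)) ^ (-s) + (N₀:ℝ) * (Bc * ∑ k' : Fin d → Fin m,
                ‖(fun c => ((((k c : ℕ) : ℤ) - ((k' c : ℕ) : ℤ) : ℤ) : ℝ) : Fin d → ℝ)‖ ^ (-s)) := by
              intro i
              simp only [Finset.sum_add_distrib, Finset.sum_const, Finset.card_univ,
                Fintype.card_fin, nsmul_eq_mul]
              congr 1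
              · rw [Finset.sum_comm, Finset.mul_sum]
                refine Finset.sum_congr rfl fun j _ => ?_
                rw [Finset.sum_ite_eq]
                simp
              · rw [Finset.mul_sum, Finset.mul_sum]
            rw [Finset.sum_congr rfl fun i _ => e2 i, Finset.sum_add_distrib, ← Finset.mul_sum,
              Finset.sum_const, Finset.card_univ, Fintype.card_fin, nsmul_eq_mul]
            unfold enI
            ring
          rw [e1]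
          have e3 : ∑ k' : Fin d → Fin m,
              ‖(fun c => ((((k c : ℕ) : ℤ) - ((k' c : ℕ) : ℤ) : ℤ) : ℝ) : Fin d → ℝ)‖ ^ (-s)
              ≤ ZS s d := by
            refine sum_le_ZS hs (fun k' : Fin d → Fin m =>
              (fun c => ((k c : ℕ) : ℤ) - ((k' c : ℕ) : ℤ))) ?_
            intro a b hab
            funext c
            have : ((k c : ℕ) : ℤ) - ((a c : ℕ) : ℤ) = ((k c : ℕ) : ℤ) - ((b c : ℕ) : ℤ) :=
              congrFun hab c
            apply Fin.ext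
            omega
          have e4 : (N₀:ℝ) ^ 2 * (Bc * ∑ k' : Fin d → Fin m,
              ‖(fun c => ((((k c : ℕ) : ℤ) - ((k' c : ℕ) : ℤ) : ℤ) : ℝ) : Fin d → ℝ)‖ ^ (-s))
              ≤ (N₀:ℝ) ^ 2 * (Bc * ZS s d) :=
            mul_le_mul_of_nonneg_left (mul_le_mul_of_nonneg_left e3 hBc0) (by positivity)
          linarith
      _ = (m:ℝ) ^ (d:ℝ) * (A * enI s x + Bc * ZS s d * (N₀:ℝ) ^ 2) := by
          rw [Finset.sum_const, nsmul_eq_mul, hmd]
  refine le_trans hsum ?_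
  have hAe : A = (m:ℝ) ^ s * (1 - γ) ^ (-s) := by
    rw [hA, Real.div_rpow (by linarith) hm0.le, Real.rpow_neg hm0.le, div_inv_eq_mul, mul_comm]
  have hBe : Bc = (m:ℝ) ^ s * γ ^ (-s) := by
    rw [hBc, Real.div_rpow hγ0.le hm0.le, Real.rpow_neg hm0.le, div_inv_eq_mul, mul_comm]
  have hms : (m:ℝ) ^ ((d:ℝ) + s) = (m:ℝ) ^ (d:ℝ) * (m:ℝ) ^ s := Real.rpow_add hm0 _ _
  have hfin : (m:ℝ) ^ (d:ℝ) * (A * enI s x + Bc * ZS s d * (N₀:ℝ) ^ 2)
      ≤ (m:ℝ) ^ (d:ℝ) * (A * (Ec s d N₀ + ε / ((m:ℝ) ^ ((d:ℝ) + s) * (1 - γ) ^ (-s)))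
        + Bc * ZS s d * (N₀:ℝ) ^ 2) := by
    have hA1 : 0 ≤ A := Real.rpow_nonneg (div_nonneg (by linarith) hm0.le) _
    gcongr
  refine le_trans hfin (le_of_eq ?_)
  rw [hAe, hBe, hms]
  have n1 : (m:ℝ) ^ (d:ℝ) ≠ 0 := (Real.rpow_pos_of_pos hm0 _).ne'
  have n2 : (m:ℝ) ^ s ≠ 0 := (Real.rpow_pos_of_pos hm0 _).ne'
  have n3 : (1 - γ) ^ (-s) ≠ 0 := (Real.rpow_pos_of_pos (by linarith) _).ne'
  field_simp
  ring

/-- the constant `C_{s,d}` for `s > d` -/
theorem cube_limit_index {s : ℝ} {d : ℕ} (hd : 1 ≤ d) (hs : (d:ℝ) < s) :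
    ∃ C : ℝ, Tendsto (fun N : ℕ => (N:ℝ) ^ (-1 - s / (d:ℝ)) * Ec s d N) atTop (𝓝 C) :=
  hs_limit hd hs (Ec s d) (Ec_nonneg s d) (Ec_mono s hd) (ZS s d) (ZS_nonneg s d)
    fun m N₀ γ hm _ h0 h1 => cube_sub hd hs m N₀ γ hm h0 h1

end Helper23.Riesz
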