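import Pool.Agent.Helper95.Riesz.HSCube

/-!
# The cube limit in terms of finite sets
-/

set_option autoImplicit false
open Filter Topology MeasureTheory Set

namespace Helper23.Riesz

/-- `Ec` in terms of finite sets (the right side is `Ecube` unfolded). -/
theorem Ec_eq_finset {s : ℝ} (hs : s ≠ 0) (d N : ℕ) :
    Ec s d N = sInf {e : ℝ | ∃ Y : Finset (EuclideanSpace ℝ (Fin d)), Y.card = N ∧
      (∀ x ∈ Y, x ∈ {x : EuclideanSpace ℝ (Fin d) |
        ∀ k, (0 : EuclideanSpace ℝ (Fin d)) k ≤ x k ∧ x k ≤ (0 : EuclideanSpace ℝ (Fin d)) k + 1}) ∧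
      e = (open Classical in ∑ x ∈ Y, ∑ y ∈ Y.erase x, (dist x y) ^ (-s))} := by
  classical
  unfold Ec
  congr 1
  ext e
  simp only [Set.mem_setOf_eq]
  have hz : ∀ k, (0 : EuclideanSpace ℝ (Fin d)) k = 0 := fun k => rfl
  have hdiag : ∀ (Y : Finset (EuclideanSpace ℝ (Fin d))),
      ∑ x ∈ Y, ∑ y ∈ Y.erase x, (dist x y) ^ (-s) = ∑ x ∈ Y, ∑ y ∈ Y, (dist x y) ^ (-s) := by
    intro Y
    refine Finset.sum_congr rfl fun x hx => ?_
    rw [← Finset.sum_erase_add _ _ hx, dist_self, Real.zero_rpow (by simpa using hs), add_zero]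
  constructor
  · rintro ⟨x, h1, h2, rfl⟩
    refine ⟨Finset.univ.map ⟨x, h1⟩, by simp, ?_, ?_⟩
    · intro y hy k
      rw [Finset.mem_map] at hy
      obtain ⟨i, -, rfl⟩ := hy
      have := h2 i k
      rw [hz]
      exact ⟨this.1, by simpa using this.2⟩
    · have e1 := hdiag (Finset.univ.map ⟨x, h1⟩)
      rw [e1, Finset.sum_map]
      unfold enI
      refine Finset.sum_congr rfl fun i _ => ?_
      rw [Finset.sum_map]
      rfl
  · rintro ⟨Y, h1, h2, rfl⟩
    have hc : Fintype.card Y = N := by rw [Fintype.card_coe, h1]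
    let e : Fin N ≃ Y := (Fintype.equivFinOfCardEq hc).symm
    refine ⟨fun i => (e i : EuclideanSpace ℝ (Fin d)),
      Subtype.val_injective.comp e.injective, ?_, ?_⟩
    · intro i k
      have := h2 (e i) (e i).2 k
      rw [hz] at this
      exact ⟨this.1, by simpa using this.2⟩
    · rw [hdiag Y]
      have := enI_equiv s e (fun y : Y => (y : EuclideanSpace ℝ (Fin d)))
      have h3 : enI s (fun i => (e i : EuclideanSpace ℝ (Fin d)))
          = enI s (fun y : Y => (y : EuclideanSpace ℝ (Fin d))) := this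
      rw [h3]
      unfold enI
      rw [← Finset.sum_coe_sort Y]
      refine Finset.sum_congr rfl fun i _ => ?_
      rw [← Finset.sum_coe_sort Y]

/-- the limit of the scaled minimal energies in the unit cube, `s > d`
(this is `cube_limit` with `Ecube` unfolded). -/
theorem cube_limit_finset {d : ℕ} (hd : 1 ≤ d) {s : ℝ} (hs : (d:ℝ) < s) : ∃ C : ℝ, 0 ≤ C ∧
    Tendsto (fun N : ℕ => sInf {e : ℝ | ∃ Y : Finset (EuclideanSpace ℝ (Fin d)), Y.card = N ∧
      (∀ x ∈ Y, x ∈ {x : EuclideanSpace ℝ (Fin d) |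
        ∀ k, (0 : EuclideanSpace ℝ (Fin d)) k ≤ x k ∧ x k ≤ (0 : EuclideanSpace ℝ (Fin d)) k + 1}) ∧
      e = (open Classical in ∑ x ∈ Y, ∑ y ∈ Y.erase x, (dist x y) ^ (-s))}
        / (N : ℝ) ^ (1 + s / d)) atTop (𝓝 C) := by
  have hd0 : (0:ℝ) < d := by exact_mod_cast hd
  have hs0 : 0 < s := lt_trans hd0 hs
  obtain ⟨C, hC⟩ := cube_limit_index hd hs
  have heq : ∀ N : ℕ, (N:ℝ) ^ (-1 - s / (d:ℝ)) * Ec s d N
      = sInf {e : ℝ | ∃ Y : Finset (EuclideanSpace ℝ (Fin d)), Y.card = N ∧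
      (∀ x ∈ Y, x ∈ {x : EuclideanSpace ℝ (Fin d) |
        ∀ k, (0 : EuclideanSpace ℝ (Fin d)) k ≤ x k ∧ x k ≤ (0 : EuclideanSpace ℝ (Fin d)) k + 1}) ∧
      e = (open Classical in ∑ x ∈ Y, ∑ y ∈ Y.erase x, (dist x y) ^ (-s))}
        / (N : ℝ) ^ (1 + s / d) := by
    intro N
    rw [← Ec_eq_finset hs0.ne' d N]
    have : -1 - s / (d:ℝ) = -(1 + s / d) := by ring
    rw [this, Real.rpow_neg (Nat.cast_nonneg _), mul_comm, ← div_eq_mul_inv]
  refine ⟨C, ?_, ?_⟩
  · refine ge_of_tendsto hC (Eventually.of_forall fun N => ?_)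
    exact mul_nonneg (Real.rpow_nonneg (Nat.cast_nonneg _) _) (Ec_nonneg s d N)
  · exact hC.congr heq

end Helper23.Riesz
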