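import Mathlib

/-!
# An abstract limit lemma (Hardin-Saff)

A nonnegative nondecreasing sequence `f` with
`f (m^d N₀) ≤ m^(d+s) ((1-γ)^(-s) f N₀ + Z γ^(-s) N₀^2)` is such that `f N / N^(1+s/d)`
converges, for `s > d`.
-/

set_option autoImplicit false
open Filter Topology

namespace Helper23.Riesz

theorem hs_limit {d : ℕ} (hd : 1 ≤ d) {s : ℝ} (hs : (d:ℝ) < s) (f : ℕ → ℝ) (hf0 : ∀ N, 0 ≤ f N)
    (hmono : Monotone f) (Z : ℝ) (hZ : 0 ≤ Z)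
    (hsub : ∀ (m N₀ : ℕ) (γ : ℝ), 1 ≤ m → 1 ≤ N₀ → 0 < γ → γ < 1 →
      f (m ^ d * N₀) ≤ (m:ℝ) ^ ((d:ℝ) + s) *
        ((1 - γ) ^ (-s) * f N₀ + Z * γ ^ (-s) * (N₀:ℝ) ^ 2)) :
    ∃ C : ℝ, Tendsto (fun N : ℕ => (N:ℝ) ^ (-1 - s / (d:ℝ)) * f N) atTop (𝓝 C) := by
  have hd0 : (0:ℝ) < d := by exact_mod_cast hd
  have hs0 : 0 < s := lt_trans hd0 hs
  set g : ℕ → ℝ := fun N : ℕ => (N:ℝ) ^ (-1 - s / (d:ℝ)) * f N with hg
  have hg0 : ∀ N, 0 ≤ g N := fun N => mul_nonneg (Real.rpow_nonneg (Nat.cast_nonneg _) _) (hf0 N)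
  -- the main inequality
  have hmain : ∀ (N₀ : ℕ) (γ : ℝ), 1 ≤ N₀ → 0 < γ → γ < 1 → ∀ δ : ℝ, 0 < δ →
      ∀ᶠ N : ℕ in atTop, g N ≤ (1 - γ) ^ (-s) * g N₀
        + Z * γ ^ (-s) * (N₀:ℝ) ^ (1 - s / (d:ℝ)) + δ := by
    intro N₀ γ hN₀ hγ0 hγ1 δ hδ
    have hN0r : (0:ℝ) < N₀ := by exact_mod_cast hN₀
    set B : ℝ := (1 - γ) ^ (-s) * f N₀ + Z * γ ^ (-s) * (N₀:ℝ) ^ 2 with hB
    have hB0 : 0 ≤ B := by
      have h1 : 0 ≤ (1 - γ) ^ (-s) := Real.rpow_nonneg (by linarith) _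
      have h2 : 0 ≤ γ ^ (-s) := Real.rpow_nonneg hγ0.le _
      have := hf0 N₀
      positivity
    have hlim : Tendsto (fun N : ℕ => (((N₀:ℝ) ^ (-(1 / (d:ℝ))) + (N:ℝ) ^ (-(1 / (d:ℝ))))
        ^ ((d:ℝ) + s)) * B) atTop
        (𝓝 ((((N₀:ℝ) ^ (-(1 / (d:ℝ))) + 0) ^ ((d:ℝ) + s)) * B)) := by
      refine Tendsto.mul_const _ ?_
      refine Tendsto.rpow_const ?_ (Or.inr (by positivity))
      refine Tendsto.add tendsto_const_nhds ?_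
      exact (tendsto_rpow_neg_atTop (by positivity : (0:ℝ) < 1 / (d:ℝ))).comp
        tendsto_natCast_atTop_atTop
    have hval : (((N₀:ℝ) ^ (-(1 / (d:ℝ))) + 0) ^ ((d:ℝ) + s)) * B
        = (1 - γ) ^ (-s) * g N₀ + Z * γ ^ (-s) * (N₀:ℝ) ^ (1 - s / (d:ℝ)) := by
      rw [add_zero, ← Real.rpow_mul hN0r.le, hB, hg]
      have e1 : -(1 / (d:ℝ)) * ((d:ℝ) + s) = -1 - s / d := by field_simp; ring
      have e2 : (N₀:ℝ) ^ (1 - s / (d:ℝ)) = (N₀:ℝ) ^ (-1 - s / (d:ℝ)) * (N₀:ℝ) ^ 2 := by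
        rw [← Real.rpow_natCast, ← Real.rpow_add hN0r]
        congr 1; push_cast; ring
      rw [e1, e2]; ring
    rw [hval] at hlim
    have hev := hlim.eventually (Iio_mem_nhds (lt_add_of_pos_right _ hδ))
    filter_upwards [hev, eventually_ge_atTop N₀] with N hN1 hN2
    refine le_trans ?_ (le_of_lt hN1)
    have hNr : (0:ℝ) < N := by
      have : 1 ≤ N := le_trans hN₀ hN2
      exact_mod_cast this
    set m : ℕ := ⌈((N:ℝ) / N₀) ^ (1 / (d:ℝ))⌉₊ with hm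
    have hq : 0 < ((N:ℝ) / N₀) ^ (1 / (d:ℝ)) := Real.rpow_pos_of_pos (by positivity) _
    have hm1 : 1 ≤ m := Nat.one_le_iff_ne_zero.mpr (Nat.ceil_pos.mpr hq).ne'
    have hm2 : ((N:ℝ) / N₀) ^ (1 / (d:ℝ)) ≤ m := Nat.le_ceil _
    have hm3 : (m:ℝ) ≤ ((N:ℝ) / N₀) ^ (1 / (d:ℝ)) + 1 := (Nat.ceil_lt_add_one hq.le).le
    have hNle : N ≤ m ^ d * N₀ := by
      have h1 : (N:ℝ) / N₀ ≤ (m:ℝ) ^ d := by
        calc (N:ℝ) / N₀ = (((N:ℝ) / N₀) ^ (1 / (d:ℝ))) ^ (d:ℝ) := by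
              rw [← Real.rpow_mul (by positivity), one_div_mul_cancel hd0.ne', Real.rpow_one]
          _ ≤ (m:ℝ) ^ (d:ℝ) := Real.rpow_le_rpow hq.le hm2 hd0.le
          _ = (m:ℝ) ^ d := Real.rpow_natCast _ _
      have h2 : (N:ℝ) ≤ (m:ℝ) ^ d * N₀ := (div_le_iff₀ hN0r).1 h1
      exact_mod_cast h2
    have hfN : f N ≤ (m:ℝ) ^ ((d:ℝ) + s) * B :=
      le_trans (hmono hNle) (hsub m N₀ γ hm1 hN₀ hγ0 hγ1)
    have hNpow : (N:ℝ) ^ (-1 - s / (d:ℝ)) = ((N:ℝ) ^ (-(1 / (d:ℝ)))) ^ ((d:ℝ) + s) := by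
      rw [← Real.rpow_mul hNr.le]; congr 1; field_simp; ring
    have hNp0 : 0 ≤ (N:ℝ) ^ (-(1 / (d:ℝ))) := Real.rpow_nonneg hNr.le _
    calc g N = (N:ℝ) ^ (-1 - s / (d:ℝ)) * f N := rfl
      _ ≤ (N:ℝ) ^ (-1 - s / (d:ℝ)) * ((m:ℝ) ^ ((d:ℝ) + s) * B) :=
          mul_le_mul_of_nonneg_left hfN (Real.rpow_nonneg hNr.le _)
      _ = ((N:ℝ) ^ (-(1 / (d:ℝ))) * m) ^ ((d:ℝ) + s) * B := by
          rw [hNpow, Real.mul_rpow hNp0 (Nat.cast_nonneg _)]; ring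
      _ ≤ ((N₀:ℝ) ^ (-(1 / (d:ℝ))) + (N:ℝ) ^ (-(1 / (d:ℝ)))) ^ ((d:ℝ) + s) * B := by
          refine mul_le_mul_of_nonneg_right ?_ hB0
          refine Real.rpow_le_rpow (by positivity) ?_ (by positivity)
          calc (N:ℝ) ^ (-(1 / (d:ℝ))) * m
              ≤ (N:ℝ) ^ (-(1 / (d:ℝ))) * (((N:ℝ) / N₀) ^ (1 / (d:ℝ)) + 1) :=
                mul_le_mul_of_nonneg_left hm3 hNp0
            _ = (N₀:ℝ) ^ (-(1 / (d:ℝ))) + (N:ℝ) ^ (-(1 / (d:ℝ))) := by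
                rw [Real.div_rpow hNr.le hN0r.le, mul_add, mul_one]
                congr 1
                rw [Real.rpow_neg hNr.le, Real.rpow_neg hN0r.le]
                have := (Real.rpow_pos_of_pos hNr (1 / (d:ℝ))).ne'
                field_simp
  -- boundedness
  obtain ⟨C0, hC0⟩ : ∃ C0 : ℝ, ∀ᶠ N : ℕ in atTop, g N ≤ C0 :=
    ⟨_, hmain 1 (1/2) le_rfl (by norm_num) (by norm_num) 1 one_pos⟩
  have hbdd : IsBoundedUnder (· ≤ ·) atTop g := ⟨C0, by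
    rw [eventually_map]; exact hC0⟩
  have hbdd' : IsBoundedUnder (· ≥ ·) atTop g := ⟨0, by
    rw [eventually_map]; exact Eventually.of_forall hg0⟩
  have hcob : IsCoboundedUnder (· ≥ ·) atTop g := hbdd.isCoboundedUnder_ge
  have hcob' : IsCoboundedUnder (· ≤ ·) atTop g := hbdd'.isCoboundedUnder_le
  set L : ℝ := liminf g atTop with hL
  have hL0 : 0 ≤ L := le_liminf_of_le hcob (Eventually.of_forall hg0)
  refine ⟨L, ?_⟩
  refine tendsto_of_le_liminf_of_limsup_le le_rfl ?_ hbdd hbdd'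
  -- limsup ≤ L
  refine le_of_forall_pos_le_add fun ε hε => ?_
  -- choose γ
  have hγ : ∀ᶠ γ : ℝ in 𝓝[>] 0, (1 - γ) ^ (-s) * (L + ε / 4) ≤ L + ε / 2 := by
    have h1 : Tendsto (fun γ : ℝ => (1 - γ) ^ (-s) * (L + ε / 4)) (𝓝[>] 0)
        (𝓝 ((1 - 0) ^ (-s) * (L + ε / 4))) := by
      refine Tendsto.mul_const _ ?_
      refine Tendsto.rpow_const ?_ (Or.inl (by norm_num))
      exact (tendsto_const_nhds.sub tendsto_id).mono_left nhdsWithin_le_nhds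
    rw [sub_zero, Real.one_rpow, one_mul] at h1
    filter_upwards [h1.eventually (Iio_mem_nhds (show L + ε / 4 < L + ε / 2 by linarith))] with γ h
    exact le_of_lt h
  have hγ2 : ∀ᶠ γ : ℝ in 𝓝[>] 0, γ < 1 :=
    nhdsWithin_le_nhds (Iio_mem_nhds (show (0:ℝ) < 1 by norm_num))
  obtain ⟨γ, hγ1, hγ2, hγ3⟩ := (hγ.and (hγ2.and self_mem_nhdsWithin)).exists
  have hγ3 : 0 < γ := hγ3
  -- choose N₀
  have hfreq : ∃ᶠ N : ℕ in atTop, g N < L + ε / 4 :=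
    frequently_lt_of_liminf_lt hcob (by linarith : L < L + ε / 4)
  have hsmall : ∀ᶠ N : ℕ in atTop, Z * γ ^ (-s) * (N:ℝ) ^ (1 - s / (d:ℝ)) ≤ ε / 4 := by
    have h1 : Tendsto (fun N : ℕ => Z * γ ^ (-s) * (N:ℝ) ^ (-(s / (d:ℝ) - 1))) atTop
        (𝓝 (Z * γ ^ (-s) * 0)) := by
      refine Tendsto.const_mul _ ?_
      exact (tendsto_rpow_neg_atTop (by
        rw [sub_pos, lt_div_iff₀ hd0]; linarith)).comp tendsto_natCast_atTop_atTop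
    rw [mul_zero] at h1
    filter_upwards [h1.eventually (Iio_mem_nhds (show (0:ℝ) < ε / 4 by positivity))] with N h
    have e : -(s / (d:ℝ) - 1) = 1 - s / (d:ℝ) := by ring
    rw [e] at h
    exact le_of_lt h
  obtain ⟨N₀, hN1, hN2, hN3⟩ := (hfreq.and_eventually
    (hsmall.and (eventually_ge_atTop 1))).exists
  have hfin := hmain N₀ γ hN3 hγ3 hγ2 (ε / 4) (by positivity)
  refine limsup_le_of_le hcob' ?_
  filter_upwards [hfin] with N hN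
  have h1 : (1 - γ) ^ (-s) * g N₀ ≤ (1 - γ) ^ (-s) * (L + ε / 4) :=
    mul_le_mul_of_nonneg_left hN1.le (Real.rpow_nonneg (by linarith) _)
  linarith

end Helper23.Riesz
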