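import Pool.Agent.Helper23.Riesz.Defs4
import Pool.Agent.Helper95.Riesz.Flat1

/-!
# Definitions for the source side (range `-2 < s < 0`)
-/

set_option autoImplicit false
open MeasureTheory Set Filter Topology
open scoped ENNReal NNReal FourierTransform SchwartzMap

namespace Helper23.Riesz

/-- the constant of the Gaussian decomposition `r^a = ca a * ∫ (1 - e^{-t r²}) t^{-a/2-1} dt` -/
noncomputable def ca (a : ℝ) : ℝ :=
  (∫ t in Ioi (0:ℝ), t ^ (-(a / 2) - 1) * (1 - Real.exp (-t)))⁻¹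

/-- mutual Gaussian energy -/
noncomputable def Qt {X : Type*} [PseudoMetricSpace X] [MeasurableSpace X] (t : ℝ)
    (μ ν : Measure X) : ℝ := ∫ x, ∫ y, Real.exp (-(t * dist x y ^ 2)) ∂ν ∂μ

/-- Fourier transform of a measure -/
noncomputable def chi {V : Type*} [NormedAddCommGroup V] [InnerProductSpace ℝ V]
    [MeasurableSpace V] (μ : Measure V) (ξ : V) : ℂ :=
  ∫ x, Complex.exp (((-2 * Real.pi * inner ℝ x ξ : ℝ) : ℂ) * Complex.I) ∂μ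

/-- the Gaussian discrepancy of a finite set of points of the sphere -/
noncomputable def DT {d : ℕ} (X : Finset (S d)) (t : ℝ) : ℝ :=
  ∑ x ∈ X, ∑ y ∈ X, Real.exp (-(t * dist x y ^ 2)) -
    (X.card : ℝ) ^ 2 * avg2 (fun x y : S d => Real.exp (-(t * dist x y ^ 2)))

/-- the box of half-side `Λ` -/
def Bx (d : ℕ) (Λ : ℝ) : Set (R d) := {x | ∀ k, |x k| ≤ Λ}

/-- the configuration restricted to the box -/
noncomputable def cfg {d n : ℕ} (Λ : ℝ) (y : Fin n → R d) : Measure (R d) :=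
  (∑ i, Measure.dirac (y i)).restrict (Bx d Λ)

/-- the mean density in the box -/
noncomputable def rhoB {d : ℕ} (M Λ : ℝ) (h : R d → ℝ) : Measure (R d) :=
  ((volume : Measure (R d)).restrict (Bx d Λ)).withDensity fun x => ENNReal.ofReal (M ^ d * h x)

/-- the output of the extraction: a random flat configuration in a large box, with small
long-range fluctuations -/
def HasFlat (s : ℝ) (d : ℕ) (Lam : ℝ) : Prop :=
  ∀ A T δ M₀ : ℝ, 1 ≤ A → A ^ 2 < T → 0 < δ → ∃ (M Λ : ℝ) (n : ℕ) (O : Type)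
    (_ : MeasurableSpace O) (P : Measure O) (Y : O → Fin n → R d) (h : R d → ℝ),
    M₀ ≤ M ∧ M₀ ≤ Λ ∧ IsProbabilityMeasure P ∧ (∀ i, Measurable fun o => Y o i) ∧
    Measurable h ∧ (∀ x ∈ Bx d Λ, 1 - δ ≤ h x ∧ h x ≤ 1) ∧
    (∀ B : Set (R d), MeasurableSet B → ∫⁻ o, cfg Λ (Y o) B ∂P = rhoB M Λ h B) ∧
    (∫⁻ t in Ioi (A ^ 2), wt (-s) t * ENNReal.ofReal
      (∫ o, Qt t (cfg Λ (Y o)) (cfg Λ (Y o)) ∂P - Qt t (rhoB M Λ h) (rhoB M Λ h)) ≤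
        ENNReal.ofReal ((2 * Λ) ^ d * (Lam + δ) * M ^ (d + s) / ca (-s))) ∧
    (∫⁻ t in Ioc (A ^ 2) T, wt (-s) t * ENNReal.ofReal
      (∫ o, Qt t (cfg Λ (Y o)) (cfg Λ (Y o)) ∂P - Qt t (rhoB M Λ h) (rhoB M Λ h)) ≤
        ENNReal.ofReal ((2 * Λ) ^ d * δ * M ^ (d + s) / ca (-s)))

/-- the weighted configuration `∑ ψ(y_i) δ_{y_i}` -/
noncomputable def wcf {d n : ℕ} (ψ : R d → ℝ) (y : Fin n → R d) : Measure (R d) :=
  ∑ i, ENNReal.ofReal (ψ (y i)) • Measure.dirac (y i)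

/-- the weighted mean density `M^d h ψ` -/
noncomputable def rps {d : ℕ} (M : ℝ) (h ψ : R d → ℝ) : Measure (R d) :=
  (volume : Measure (R d)).withDensity fun x => ENNReal.ofReal (M ^ d * h x * ψ x)

/-- the charge of the weighted configuration -/
noncomputable def qf {d n : ℕ} (M : ℝ) (h ψ : R d → ℝ) (y : Fin n → R d) : ℝ :=
  ∑ i, ψ (y i) - ∫ x, M ^ d * h x * ψ x

/-- the Fourier transform of the neutralised discrepancy -/
noncomputable def tauHat {d n : ℕ} (M : ℝ) (h ψ : R d → ℝ) (y : Fin n → R d) (ζ : R d) : ℂ :=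
  chi (wcf ψ y) ζ - chi (rps M h ψ) ζ -
    (qf M h ψ y : ℂ) * chi ((volume : Measure (R d)).restrict (cubo 0 1)) ζ

/-- a random unit cell, before neutralisation -/
def HasUCell (s : ℝ) (d : ℕ) (Lam δ M₀ : ℝ) : Prop :=
  ∃ (M : ℝ) (n : ℕ) (O : Type) (_ : MeasurableSpace O) (P : Measure O)
    (Y : O → Fin n → R d) (h ψ : R d → ℝ),
    M₀ ≤ M ∧ IsProbabilityMeasure P ∧ (∀ i, Measurable fun o => Y o i) ∧ Measurable h ∧
    Continuous ψ ∧ (∀ x, 0 ≤ ψ x ∧ ψ x ≤ 1) ∧ (∀ x, x ∉ cubo (0 : R d) 1 → ψ x = 0) ∧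
    volume {x : R d | x ∈ cubo (0 : R d) 1 ∧ ψ x < 1} ≤ ENNReal.ofReal δ ∧
    (∀ x ∈ cubo (0 : R d) 1, 1 - δ ≤ h x ∧ h x ≤ 1) ∧
    (∀ B : Set (R d), B ⊆ cubo (0 : R d) 1 → MeasurableSet B →
      ∫⁻ o, (∑ i, Measure.dirac (Y o i)) B ∂P = ∫⁻ x in B, ENNReal.ofReal (M ^ d * h x)) ∧
    (∫⁻ o, ENNReal.ofReal (qf M h ψ (Y o) ^ 2) ∂P ≤ ENNReal.ofReal (δ * M ^ (2 * d))) ∧
    (ENNReal.ofReal (ca (-s)) * ∫⁻ o, (∫⁻ t in Ioi (0:ℝ), wt (-s) t * ∫⁻ ζ : R d,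
      ENNReal.ofReal (gam t ζ) * ENNReal.ofReal (‖tauHat M h ψ (Y o) ζ‖ ^ 2)) ∂P ≤
        ENNReal.ofReal ((Lam + δ) * M ^ (d + s)))

/-- the cell in unit coordinates (density `M^d`) -/
def HasCellU (s : ℝ) (d : ℕ) (Lam ε : ℝ) : Prop :=
  ∃ (M : ℝ) (n : ℕ) (O : Type) (_ : MeasurableSpace O) (P : Measure O)
    (v : O → Fin n → R d) (w : O → Fin n → ℝ) (r : O → ℝ) (b : ℝ) (mbar : Measure (R d)),
    1 / ε ≤ M ∧ IsProbabilityMeasure P ∧ (∀ i, Measurable fun o => v o i) ∧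
    (∀ i, Measurable fun o => w o i) ∧ Measurable r ∧
    (∀ o i, 0 ≤ w o i ∧ w o i ≤ 1) ∧ (∀ o, 0 ≤ r o) ∧
    (∀ o i, w o i ≠ 0 → v o i ∈ cubo 0 1) ∧
    (∀ o, ∑ i, w o i + r o = b) ∧ |b - M ^ d| ≤ ε * M ^ d ∧
    (∀ A : Set (R d), MeasurableSet A → mbar A = ∫⁻ o, muM 1 (v o) (w o) (r o) A ∂P) ∧
    mbar ≤ ENNReal.ofReal ((1 + ε) * M ^ d) • (volume : Measure (R d)).restrict (cubo 0 1) ∧
    (∫ o, ((∑ i, if w o i < 1 then w o i else 0) + r o) ∂P ≤ ε * M ^ d) ∧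
    Im s mbar mbar - ∫ o, Im s (muM 1 (v o) (w o) (r o)) (muM 1 (v o) (w o) (r o)) ∂P ≤
      (Lam + ε) * M ^ (d + s)

end Helper23.Riesz
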